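import Mathlib

/-! The Cauchy–Pompeiu formula for functions with compact support. -/

set_option autoImplicit false

namespace Pool.RSE

open Filter Topology Set Metric MeasureTheory
open Real (pi cos sin)

/-- the point with polar coordinates `p` -/
noncomputable def pt (p : ℝ × ℝ) : ℂ := p.1 * (Real.cos p.2 + Real.sin p.2 * Complex.I)

theorem pt_cont : Continuous pt := by
  unfold pt
  fun_prop

theorem norm_pt (p : ℝ × ℝ) : ‖pt p‖ = |p.1| := by
  have h := Complex.norm_polarCoord_symm p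
  rwa [Complex.polarCoord_symm_apply] at h

theorem pompeiu0 (χ : ℂ → ℝ) (h : ContDiff ℝ 1 χ) (hc : HasCompactSupport χ) :
    ∫ ζ : ℂ, (((fderiv ℝ χ ζ 1 : ℝ) : ℂ) + Complex.I * ((fderiv ℝ χ ζ Complex.I : ℝ) : ℂ)) / ζ
      = ((-(2 * Real.pi * χ 0) : ℝ) : ℂ) := by
  set D1 : ℂ → ℝ := fun ζ => fderiv ℝ χ ζ 1 with hD1
  set D2 : ℂ → ℝ := fun ζ => fderiv ℝ χ ζ Complex.I with hD2
  have hcf : Continuous (fderiv ℝ χ) := h.continuous_fderiv (by norm_num)
  have hD1c : Continuous D1 := hcf.clm_apply continuous_const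
  have hD2c : Continuous D2 := hcf.clm_apply continuous_const
  -- the support
  obtain ⟨R, hR⟩ := hc.isCompact.isBounded.subset_closedBall 0
  have hsf : ∀ ζ : ℂ, R < ‖ζ‖ → fderiv ℝ χ ζ = 0 := by
    intro ζ hζ
    apply image_eq_zero_of_notMem_tsupport
    intro hmem
    have h1 := tsupport_fderiv_subset ℝ hmem
    have h2 := hR h1
    rw [mem_closedBall, dist_zero_right] at h2
    linarith
  have hs : ∀ ζ : ℂ, R < ‖ζ‖ → χ ζ = 0 := by
    intro ζ hζ
    apply image_eq_zero_of_notMem_tsupport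
    intro hmem
    have h2 := hR hmem
    rw [mem_closedBall, dist_zero_right] at h2
    linarith
  set A : ℝ × ℝ → ℝ := fun p => Real.cos p.2 * D1 (pt p) + Real.sin p.2 * D2 (pt p) with hA
  set B : ℝ × ℝ → ℝ := fun p => Real.cos p.2 * D2 (pt p) - Real.sin p.2 * D1 (pt p) with hB
  have hAc : Continuous A := by
    have h1 := hD1c.comp pt_cont
    have h2 := hD2c.comp pt_cont
    exact ((Real.continuous_cos.comp continuous_snd).mul h1).add
      ((Real.continuous_sin.comp continuous_snd).mul h2)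
  have hBc : Continuous B := by
    have h1 := hD1c.comp pt_cont
    have h2 := hD2c.comp pt_cont
    exact ((Real.continuous_cos.comp continuous_snd).mul h2).sub
      ((Real.continuous_sin.comp continuous_snd).mul h1)
  have hA0 : ∀ p : ℝ × ℝ, R < |p.1| → A p = 0 := by
    intro p hp
    have h1 := hsf (pt p) (by rw [norm_pt]; exact hp)
    simp only [hA, hD1, hD2, h1]
    simp
  have hB0 : ∀ p : ℝ × ℝ, R < |p.1| → B p = 0 := by
    intro p hp
    have h1 := hsf (pt p) (by rw [norm_pt]; exact hp)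
    simp only [hB, hD1, hD2, h1]
    simp
  have hmeas : MeasurableSet (Ioi (0 : ℝ) ×ˢ Ioo (-Real.pi) Real.pi) :=
    measurableSet_Ioi.prod measurableSet_Ioo
  have hint : ∀ F : ℝ × ℝ → ℝ, Continuous F → (∀ p : ℝ × ℝ, R < |p.1| → F p = 0) →
      IntegrableOn F (Ioi (0 : ℝ) ×ˢ Ioo (-Real.pi) Real.pi) (volume.prod volume) := by
    intro F hF hF0
    have h1 : IntegrableOn F (Icc (0 : ℝ) R ×ˢ Icc (-Real.pi) Real.pi) (volume.prod volume) :=
      hF.continuousOn.integrableOn_compact (isCompact_Icc.prod isCompact_Icc)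
    refine h1.of_forall_diff_eq_zero hmeas ?_
    rintro p ⟨⟨hp1, hp2⟩, hp3⟩
    apply hF0
    rw [mem_Ioi] at hp1
    rw [abs_of_pos hp1]
    by_contra hcon
    apply hp3
    exact ⟨⟨hp1.le, not_lt.1 hcon⟩, ⟨hp2.1.le, hp2.2.le⟩⟩
  have hAi := hint A hAc hA0
  have hBi := hint B hBc hB0
  -- the radial integral
  have hAr : ∀ θ : ℝ, ∫ r in Ioi (0 : ℝ), A (r, θ) = - χ 0 := by
    intro θ
    have hder : ∀ r ∈ Ici (0 : ℝ), HasDerivAt (fun r : ℝ => χ (pt (r, θ))) (A (r, θ)) r := by
      intro r _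
      have h1 : HasDerivAt (fun r : ℝ => pt (r, θ))
          (1 * ((Real.cos θ : ℂ) + Real.sin θ * Complex.I)) r := by
        have h2 : HasDerivAt (fun r : ℝ => (r : ℂ)) 1 r := Complex.ofRealCLM.hasDerivAt
        exact h2.mul_const ((Real.cos θ : ℂ) + Real.sin θ * Complex.I)
      have h3 : HasFDerivAt χ (fderiv ℝ χ (pt (r, θ))) (pt (r, θ)) :=
        (h.differentiable (by norm_num) _).hasFDerivAt
      have h4 := h3.comp_hasDerivAt r h1
      refine h4.congr_deriv ?_
      have h5 : (1 * ((Real.cos θ : ℂ) + Real.sin θ * Complex.I)) =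
          (Real.cos θ) • (1 : ℂ) + (Real.sin θ) • Complex.I := by
        simp
      rw [h5, map_add, map_smul, map_smul]
      rfl
    have h6 := integral_Ioi_of_hasDerivAt_of_tendsto' (m := 0) hder (by
      have h1 : IntegrableOn (fun r => A (r, θ)) (Icc (0 : ℝ) R) :=
        (hAc.comp (by fun_prop : Continuous fun r : ℝ => (r, θ))).continuousOn.integrableOn_compact
          isCompact_Icc
      refine h1.of_forall_diff_eq_zero measurableSet_Ioi ?_
      rintro r ⟨hr1, hr2⟩
      rw [mem_Ioi] at hr1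
      apply hA0
      simp only
      rw [abs_of_pos hr1]
      by_contra hcon
      exact hr2 ⟨hr1.le, not_lt.1 hcon⟩) (by
      apply tendsto_const_nhds.congr'
      filter_upwards [eventually_gt_atTop (max R 0)] with r hr
      symm
      apply hs
      rw [norm_pt]
      simp only
      have h1 := le_max_left R 0
      have h2 := le_max_right R 0
      rw [abs_of_pos (by linarith)]
      linarith)
    rw [h6]
    have h7 : pt (0, θ) = 0 := by simp [pt]
    rw [h7]
    ring
  -- the angular integral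
  have hBr : ∀ r ∈ Ioi (0 : ℝ), ∫ θ in Ioo (-Real.pi) Real.pi, B (r, θ) = 0 := by
    intro r hr
    rw [mem_Ioi] at hr
    have hpi : -Real.pi ≤ Real.pi := by linarith [Real.pi_pos]
    rw [← integral_Ioc_eq_integral_Ioo, ← intervalIntegral.integral_of_le hpi]
    have hder : ∀ θ ∈ uIcc (-Real.pi) Real.pi,
        HasDerivAt (fun θ : ℝ => r⁻¹ * χ (pt (r, θ))) (B (r, θ)) θ := by
      intro θ _
      have h1 : HasDerivAt (fun θ : ℝ => pt (r, θ))
          ((r : ℂ) * (((-Real.sin θ : ℝ) : ℂ) + ((Real.cos θ : ℝ) : ℂ) * Complex.I)) θ := by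
        have hcos : HasDerivAt (fun θ : ℝ => ((Real.cos θ : ℝ) : ℂ)) ((-Real.sin θ : ℝ) : ℂ) θ :=
          (Real.hasDerivAt_cos θ).ofReal_comp
        have hsin : HasDerivAt (fun θ : ℝ => ((Real.sin θ : ℝ) : ℂ)) ((Real.cos θ : ℝ) : ℂ) θ :=
          (Real.hasDerivAt_sin θ).ofReal_comp
        exact (hcos.add (hsin.mul_const Complex.I)).const_mul (r : ℂ)
      have h3 : HasFDerivAt χ (fderiv ℝ χ (pt (r, θ))) (pt (r, θ)) :=
        (h.differentiable (by norm_num) _).hasFDerivAt
      have h4 := (h3.comp_hasDerivAt θ h1).const_mul r⁻¹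
      refine h4.congr_deriv ?_
      have h5 : ((r : ℂ) * (((-Real.sin θ : ℝ) : ℂ) + ((Real.cos θ : ℝ) : ℂ) * Complex.I)) =
          (r * (-Real.sin θ)) • (1 : ℂ) + (r * Real.cos θ) • Complex.I := by
        simp only [Complex.real_smul]
        push_cast
        ring
      rw [h5, map_add, map_smul, map_smul]
      simp only [hB, hD1, hD2, smul_eq_mul]
      field_simp
      ring
    rw [intervalIntegral.integral_eq_sub_of_hasDerivAt hder (by
      apply Continuous.intervalIntegrable
      exact hBc.comp (by fun_prop : Continuous fun θ : ℝ => (r, θ)))]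
    have h7 : pt (r, Real.pi) = pt (r, -Real.pi) := by simp [pt]
    rw [h7, sub_self]
  have hAint : ∫ p in Ioi (0 : ℝ) ×ˢ Ioo (-Real.pi) Real.pi, A p ∂(volume.prod volume) =
      -(2 * Real.pi * χ 0) := by
    have h1 := setIntegral_prod_swap (μ := volume) (ν := volume) (Ioi (0 : ℝ))
      (Ioo (-Real.pi) Real.pi) A
    rw [← h1]
    have hAi' : IntegrableOn (fun z : ℝ × ℝ => A z.swap) (Ioo (-Real.pi) Real.pi ×ˢ Ioi (0 : ℝ))
        (volume.prod volume) := by
      have := hAi.swap
      exact this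
    rw [setIntegral_prod _ hAi']
    simp only [Prod.swap_prod_mk, hAr]
    rw [setIntegral_const]
    simp only [smul_eq_mul, measureReal_def, Real.volume_Ioo]
    rw [ENNReal.toReal_ofReal (by linarith [Real.pi_pos])]
    ring
  have hBint : ∫ p in Ioi (0 : ℝ) ×ˢ Ioo (-Real.pi) Real.pi, B p ∂(volume.prod volume) = 0 := by
    rw [setIntegral_prod _ hBi, setIntegral_congr_fun measurableSet_Ioi hBr]
    simp
  rw [← Complex.integral_comp_polarCoord_symm]
  have htar : polarCoord.target = Ioi (0 : ℝ) ×ˢ Ioo (-Real.pi) Real.pi := rfl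
  rw [htar]
  have hcongr : ∀ p ∈ Ioi (0 : ℝ) ×ˢ Ioo (-Real.pi) Real.pi,
      p.1 • ((((D1 (Complex.polarCoord.symm p) : ℝ) : ℂ) +
        Complex.I * ((D2 (Complex.polarCoord.symm p) : ℝ) : ℂ)) / Complex.polarCoord.symm p) =
      ((A p : ℝ) : ℂ) + Complex.I * ((B p : ℝ) : ℂ) := by
    rintro p ⟨hp1, _⟩
    rw [mem_Ioi] at hp1
    have e1 : Complex.polarCoord.symm p = pt p := Complex.polarCoord_symm_apply p
    rw [e1]
    simp only [hA, hB]
    have hr : (p.1 : ℂ) ≠ 0 := by exact_mod_cast hp1.ne'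
    have hsc : ((Real.cos p.2 : ℂ)) ^ 2 + ((Real.sin p.2 : ℂ)) ^ 2 = 1 := by
      have := Real.cos_sq_add_sin_sq p.2
      exact_mod_cast this
    have hne : (Real.cos p.2 : ℂ) + Real.sin p.2 * Complex.I ≠ 0 := by
      intro h0
      have h1 : ((Real.cos p.2 : ℂ) + Real.sin p.2 * Complex.I) *
          ((Real.cos p.2 : ℂ) - Real.sin p.2 * Complex.I) = 1 := by
        have hI := Complex.I_sq
        linear_combination hsc - (Real.sin p.2 : ℂ) ^ 2 * hI
      rw [h0, zero_mul] at h1
      exact zero_ne_one h1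
    rw [Complex.real_smul]
    have e2 : pt p = (p.1 : ℂ) * ((Real.cos p.2 : ℂ) + Real.sin p.2 * Complex.I) := rfl
    generalize D1 (pt p) = d1
    generalize D2 (pt p) = d2
    rw [e2, mul_div_assoc', mul_div_mul_left _ _ hr, div_eq_iff hne]
    push_cast
    have hI := Complex.I_sq
    push_cast at hsc
    linear_combination (-(d1 : ℂ) - Complex.I * d2) * hsc -
      (Complex.sin p.2 * Complex.cos p.2 * d2 - Complex.sin p.2 ^ 2 * d1) * hI
  rw [setIntegral_congr_fun hmeas hcongr]
  have hvol : (volume : Measure (ℝ × ℝ)) = volume.prod volume := rfl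
  rw [hvol, integral_add, integral_const_mul, integral_complex_ofReal, integral_complex_ofReal]
  · have e1 : ∫ p in Ioi (0 : ℝ) ×ˢ Ioo (-Real.pi) Real.pi, A p ∂(volume.prod volume) =
      -(2 * Real.pi * χ 0) := hAint
    rw [e1, hBint]
    push_cast
    ring
  · exact hAi.ofReal
  · exact (hBi.ofReal).const_mul Complex.I

end Pool.RSE
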