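import Pool.Agent.H88.RSE.Planar

/-! Removing a countable set from a plane domain. -/

set_option autoImplicit false

namespace Pool.RSE

open Filter Topology Set Metric

theorem count_of_disc (S : Set ℂ) (h : ∀ x ∈ S, ∀ᶠ w in 𝓝[≠] x, w ∉ S) : S.Countable := by
  have h1 : DiscreteTopology S := (disc_of S h).to_subtype
  have h2 : Countable S := countable_of_Lindelof_of_discrete
  exact Set.countable_coe_iff.1 h2

theorem ball_diff_conn (c : ℂ) (r : ℝ) (hr : 0 < r) (N : Set ℂ) (hN : N.Countable) :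
    IsPreconnected (ball c r \ N) := by
  set φ := OpenPartialHomeomorph.univBall (E := ℂ) c r with hφ
  have hinj : Function.Injective φ := by
    intro a b hab
    refine φ.injOn ?_ ?_ hab
    · rw [hφ, OpenPartialHomeomorph.univBall_source]
      trivial
    · rw [hφ, OpenPartialHomeomorph.univBall_source]
      trivial
  have hc : (φ ⁻¹' N).Countable := hN.preimage_of_injOn hinj.injOn
  have h1 : IsConnected (φ ⁻¹' N)ᶜ := by
    apply hc.isConnected_compl_of_one_lt_rank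
    rw [Complex.rank_real_complex]
    norm_num
  have h2 : φ '' (φ ⁻¹' N)ᶜ = ball c r \ N := by
    ext z
    constructor
    · rintro ⟨w, hw, rfl⟩
      refine ⟨?_, hw⟩
      rw [← OpenPartialHomeomorph.univBall_target c hr]
      apply φ.map_source
      rw [hφ, OpenPartialHomeomorph.univBall_source]
      trivial
    · rintro ⟨hz, hzN⟩
      rw [← OpenPartialHomeomorph.univBall_target c hr] at hz
      refine ⟨φ.symm z, ?_, φ.right_inv hz⟩
      rw [mem_compl_iff, mem_preimage, φ.right_inv hz]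
      exact hzN
  rw [← h2]
  exact h1.isPreconnected.image _ (OpenPartialHomeomorph.continuous_univBall c r).continuousOn

theorem conn_lem (Ω V : Set ℂ) (hΩ : IsOpen Ω) (hV : IsOpen V) (hsub : V ⊆ Ω)
    (hc : (Ω \ V).Countable) (hconn : IsConnected Ω) : IsConnected V := by
  have dens : ∀ z ∈ Ω, ∀ O ∈ 𝓝 z, ∃ y ∈ O, y ∈ V := by
    intro z hz O hO
    have h1 : Dense (Ω \ V)ᶜ := hc.dense_compl ℂ
    obtain ⟨y, hy1, hy2⟩ := (mem_closure_iff_nhds.1 (h1 z)) (O ∩ Ω) (inter_mem hO (hΩ.mem_nhds hz))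
    refine ⟨y, hy1.1, ?_⟩
    by_contra hcon
    exact hy2 ⟨hy1.2, hcon⟩
  refine ⟨?_, ?_⟩
  · obtain ⟨z, hz⟩ := hconn.nonempty
    obtain ⟨y, -, hy⟩ := dens z hz univ univ_mem
    exact ⟨y, hy⟩
  · intro u v hu hv huv hne1 hne2
    by_contra hcon
    rw [not_nonempty_iff_eq_empty] at hcon
    set u1 : Set ℂ := V ∩ u with hu1
    set v1 : Set ℂ := V ∩ v with hv1
    have ou : IsOpen u1 := hV.inter hu
    have ov : IsOpen v1 := hV.inter hv
    have hdis : Disjoint u1 v1 := by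
      rw [Set.disjoint_left]
      rintro z ⟨h1, h2⟩ ⟨h3, h4⟩
      have : z ∈ V ∩ (u ∩ v) := ⟨h1, h2, h4⟩
      rw [hcon] at this
      exact this
    have hcov : V ⊆ u1 ∪ v1 := by
      intro z hz
      rcases huv hz with h | h
      · exact Or.inl ⟨hz, h⟩
      · exact Or.inr ⟨hz, h⟩
    set U' : Set ℂ := {z | ∀ᶠ y in 𝓝 z, y ∈ V → y ∈ u1} with hU'
    set V' : Set ℂ := {z | ∀ᶠ y in 𝓝 z, y ∈ V → y ∈ v1} with hV'
    have oU : IsOpen U' := isOpen_setOf_eventually_nhds
    have oV : IsOpen V' := isOpen_setOf_eventually_nhds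
    have hΩc : Ω ⊆ U' ∪ V' := by
      intro z hz
      obtain ⟨ε, hε, hb⟩ := Metric.isOpen_iff.1 hΩ z hz
      have h1 := ball_diff_conn z ε hε (Ω \ V) hc
      have h2 : ball z ε \ (Ω \ V) ⊆ u1 ∪ v1 := by
        rintro y ⟨hy1, hy2⟩
        apply hcov
        by_contra h
        exact hy2 ⟨hb hy1, h⟩
      rcases h1.subset_or_subset ou ov hdis h2 with h3 | h3
      · left
        filter_upwards [ball_mem_nhds z hε] with y hy1 hy2
        exact h3 ⟨hy1, fun h => h.2 hy2⟩
      · right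
        filter_upwards [ball_mem_nhds z hε] with y hy1 hy2
        exact h3 ⟨hy1, fun h => h.2 hy2⟩
    have n1 : (Ω ∩ U').Nonempty := by
      obtain ⟨z, hz1, hz2⟩ := hne1
      refine ⟨z, hsub hz1, ?_⟩
      filter_upwards [ou.mem_nhds ⟨hz1, hz2⟩] with y hy _ using hy
    have n2 : (Ω ∩ V').Nonempty := by
      obtain ⟨z, hz1, hz2⟩ := hne2
      refine ⟨z, hsub hz1, ?_⟩
      filter_upwards [ov.mem_nhds ⟨hz1, hz2⟩] with y hy _ using hy
    obtain ⟨z, hz, hz1, hz2⟩ := hconn.isPreconnected U' V' oU oV hΩc n1 n2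
    obtain ⟨y, hy1, hy2⟩ := dens z hz {y | (y ∈ V → y ∈ u1) ∧ (y ∈ V → y ∈ v1)}
      (Filter.inter_mem hz1 hz2)
    exact Set.disjoint_left.1 hdis (hy1.1 hy2) (hy1.2 hy2)

end Pool.RSE
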