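import Pool.Agent.H88.RSE.Entire

/-! Proper holomorphic embeddings into `ℂ²`: removal of points from fibres. -/

set_option autoImplicit false

namespace Pool.RSE

open Filter Topology Set Metric
open scoped Manifold

/-- `S` has a proper holomorphic embedding into `ℂ²`. -/
def HasPHE (S : Type) [TopologicalSpace S] [ChartedSpace ℂ S] : Prop :=
  ∃ F : S → ℂ × ℂ, MDifferentiable 𝓘(ℂ) 𝓘(ℂ, ℂ × ℂ) F ∧ Function.Injective F ∧
    (∀ x : S, Function.Injective (mfderiv 𝓘(ℂ) 𝓘(ℂ, ℂ × ℂ) F x)) ∧ IsProperMap F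

section chart

variable {S : Type} [TopologicalSpace S] [ChartedSpace ℂ S] [IsManifold 𝓘(ℂ) (⊤ : WithTop ℕ∞) S]

/-- a function in the chart at `x` -/
noncomputable def ch (f : S → ℂ) (x : S) : ℂ → ℂ := fun z => f ((extChartAt 𝓘(ℂ) x).symm z)

theorem ch_diffOn (f : S → ℂ) (hf : MDifferentiable 𝓘(ℂ) 𝓘(ℂ) f) (x : S) :
    DifferentiableOn ℂ (ch f x) (extChartAt 𝓘(ℂ) x).target := by
  intro z hz
  have h1 := mdifferentiableWithinAt_extChartAt_symm (I := 𝓘(ℂ)) hz
  have h2 := (hf ((extChartAt 𝓘(ℂ) x).symm z)).comp_mdifferentiableWithinAt z h1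
  have h3 := mdifferentiableWithinAt_iff_differentiableWithinAt.1 h2
  simp only [modelWithCornersSelf_coe, range_id] at h3
  exact h3.mono (subset_univ _)

omit [IsManifold 𝓘(ℂ) (⊤ : WithTop ℕ∞) S] in
theorem ch_deriv (f : S → ℂ) (hf : MDifferentiable 𝓘(ℂ) 𝓘(ℂ) f) (x : S)
    (h : mfderiv 𝓘(ℂ) 𝓘(ℂ) f x ≠ 0) : deriv (ch f x) (extChartAt 𝓘(ℂ) x x) ≠ 0 := by
  intro h0
  apply h
  rw [(hf x).mfderiv]
  have h1 : writtenInExtChartAt 𝓘(ℂ) 𝓘(ℂ) x f = ch f x := by
    funext z
    simp only [writtenInExtChartAt, extChartAt_model_space_eq_id, Function.comp_apply,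
      PartialEquiv.refl_coe, id_eq]
    rfl
  rw [h1]
  have h2 : range (𝓘(ℂ) : ModelWithCorners ℂ ℂ ℂ) = univ := by simp
  rw [h2, fderivWithin_univ]
  have h3 : fderiv ℂ (ch f x) (extChartAt 𝓘(ℂ) x x) = 0 := by
    apply ContinuousLinearMap.ext_ring
    rw [fderiv_apply_one_eq_deriv, h0]
    rfl
  exact h3

end chart

theorem div_diff (a b : ℂ) (hb : b ≠ 0) :
    DifferentiableAt ℂ (fun p : ℂ × ℂ => p.1 / p.2) (a, b) := by
  have a1 : DifferentiableAt ℂ (fun p : ℂ × ℂ => p.1) (a, b) := differentiableAt_fst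
  have a2 : DifferentiableAt ℂ (fun p : ℂ × ℂ => p.2) (a, b) := differentiableAt_snd
  have a3 : DifferentiableAt ℂ (fun p : ℂ × ℂ => (p.2)⁻¹) (a, b) := a2.inv hb
  have e : (fun p : ℂ × ℂ => p.1 / p.2) = fun p : ℂ × ℂ => p.1 * (p.2)⁻¹ := by
    funext p
    rw [div_eq_mul_inv]
  rw [e]
  exact a1.mul a3

theorem core {S : Type} [TopologicalSpace S] [ChartedSpace ℂ S]
    [IsManifold 𝓘(ℂ) (⊤ : WithTop ℕ∞) S] (f y : S → ℂ)
    (hf : MDifferentiable 𝓘(ℂ) 𝓘(ℂ) f) (hy : MDifferentiable 𝓘(ℂ) 𝓘(ℂ) y)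
    (hinj : ∀ x x', f x = f x' → y x = y x' → x = x')
    (himm : ∀ (x : S) (v : TangentSpace 𝓘(ℂ) x), mfderiv 𝓘(ℂ) 𝓘(ℂ) f x v = 0 →
      mfderiv 𝓘(ℂ) 𝓘(ℂ) y x v = 0 → v = 0)
    (W : Set ℂ) (hW : ∀ R : ℝ, (W ∩ closedBall 0 R).Finite)
    (T : Set (ℂ × ℂ)) (hT : ∀ p ∈ T, p.1 ∈ W)
    (h1 : ∀ x x', f x = f x' → f x ∈ W → x = x')
    (h2 : ∀ x, f x ∈ W → mfderiv 𝓘(ℂ) 𝓘(ℂ) f x ≠ 0)
    (h3 : ∀ w ∈ W, (∀ x, f x ≠ w) → ∃ t, (w, t) ∉ T)
    (h4 : ∀ x, (f x, y x) ∉ T)
    (hprop : ∀ K : Set (ℂ × ℂ), IsCompact K → Disjoint K T →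
      IsCompact ((fun x => (f x, y x)) ⁻¹' K)) : HasPHE S := by
  classical
  have hv : ∀ w : ℂ, ∃ t : ℂ, w ∈ W → ((w, t) ∉ T ∧ ∀ x, f x = w → y x = t) := by
    intro w
    by_cases hw : w ∈ W
    · by_cases hx : ∃ x, f x = w
      · obtain ⟨x, rfl⟩ := hx
        refine ⟨y x, fun _ => ⟨h4 x, fun x' hx' => ?_⟩⟩
        rw [h1 x x' hx'.symm hw]
      · push Not at hx
        obtain ⟨t, ht⟩ := h3 w hw hx
        exact ⟨t, fun _ => ⟨ht, fun x hx' => absurd hx' (hx x)⟩⟩
    · exact ⟨0, fun h => absurd h hw⟩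
  choose v hv using hv
  obtain ⟨s, c, hs, hsz, hsd, hc, hcv⟩ := exists_pair W hW v
  set n : S → ℂ := fun x => y x - c (f x) with hn
  set d : S → ℂ := fun x => s (f x) with hd
  set g : S → ℂ := fun x => if d x = 0 then
    deriv (ch n x) (extChartAt 𝓘(ℂ) x x) / deriv (ch d x) (extChartAt 𝓘(ℂ) x x) else n x / d x with hg
  have hnM : MDifferentiable 𝓘(ℂ) 𝓘(ℂ) n := by
    intro x
    have hj := (hf x).prodMk_space (hy x)
    have hΦ : DifferentiableAt ℂ (fun p : ℂ × ℂ => p.2 - c p.1) (f x, y x) :=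
      (by fun_prop : Differentiable ℂ (fun p : ℂ × ℂ => p.2 - c p.1)) _
    exact hΦ.mdifferentiableAt.comp x hj
  have hdM : MDifferentiable 𝓘(ℂ) 𝓘(ℂ) d := by
    intro x
    exact (hs (f x)).mdifferentiableAt.comp x (hf x)
  have hrel : ∀ x, y x = c (f x) + s (f x) * g x := by
    intro x
    by_cases h0 : d x = 0
    · have hw : f x ∈ W := (hsz _).1 h0
      have e1 : s (f x) = 0 := h0
      rw [e1, zero_mul, add_zero, hcv _ hw]
      exact (hv _ hw).2 x rfl
    · simp only [hg, h0, if_false]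
      simp only [hd] at h0
      simp only [hn, hd]
      field_simp
      ring
  have hgM : MDifferentiable 𝓘(ℂ) 𝓘(ℂ) g := by
    intro x
    by_cases h0 : d x = 0
    · have hw : f x ∈ W := (hsz _).1 h0
      set e := extChartAt 𝓘(ℂ) x with he
      have hopen : IsOpen e.target := isOpen_extChartAt_target x
      have hzt : e x ∈ e.target := mem_extChartAt_target x
      have hnh : e.target ∈ 𝓝 (e x) := hopen.mem_nhds hzt
      have hsx : e.symm (e x) = x := extChartAt_to_inv x
      have hnd := ch_diffOn n hnM x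
      have hdd := ch_diffOn d hdM x
      have hfd := ch_diffOn f hf x
      have hder : deriv (ch d x) (e x) ≠ 0 := by
        have e1 : ch d x = s ∘ ch f x := rfl
        have e2 : ch f x (e x) = f x := by
          change f (e.symm (e x)) = f x
          rw [hsx]
        have e3 : deriv (s ∘ ch f x) (e x) = deriv s (ch f x (e x)) * deriv (ch f x) (e x) :=
          deriv_comp _ (hs _) (hfd.differentiableAt hnh)
        rw [e1, e3, e2]
        exact mul_ne_zero (hsd _ hw) (ch_deriv f hf x (h2 x hw))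
      have hn0 : ch n x (e x) = 0 := by
        have e1 : ch n x (e x) = n x := by
          change n (e.symm (e x)) = n x
          rw [hsx]
        rw [e1]
        simp only [hn]
        rw [hcv _ hw, (hv _ hw).2 x rfl, sub_self]
      have hd0 : ch d x (e x) = 0 := by
        have e1 : ch d x (e x) = d x := by
          change d (e.symm (e x)) = d x
          rw [hsx]
        rw [e1, h0]
      set G : ℂ → ℂ := fun z => dslope (ch n x) (e x) z / dslope (ch d x) (e x) z with hG
      have hGd : DifferentiableAt ℂ G (e x) := by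
        have a1 : DifferentiableAt ℂ (dslope (ch n x) (e x)) (e x) :=
          ((Complex.differentiableOn_dslope hnh).2 hnd).differentiableAt hnh
        have a2 : DifferentiableAt ℂ (dslope (ch d x) (e x)) (e x) :=
          ((Complex.differentiableOn_dslope hnh).2 hdd).differentiableAt hnh
        exact a1.div a2 (by rw [dslope_same]; exact hder)
      have hev : ∀ᶠ z in 𝓝 (e x), z = e x ∨ ch d x z ≠ 0 := by
        have a1 := (hdd.differentiableAt hnh).hasDerivAt.eventually_ne (c := 0) hder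
        rw [eventually_nhdsWithin_iff] at a1
        filter_upwards [a1] with z hz
        by_cases hzx : z = e x
        · exact Or.inl hzx
        · exact Or.inr (hz hzx)
      have hce : Tendsto e (𝓝 x) (𝓝 (e x)) := continuousAt_extChartAt x
      have hsrc : e.source ∈ 𝓝 x := extChartAt_source_mem_nhds x
      have heq : g =ᶠ[𝓝 x] G ∘ e := by
        filter_upwards [hce.eventually hev, hsrc] with x' hx' hs'
        simp only [Function.comp_apply, hG]
        have hinv : e.symm (e x') = x' := e.left_inv hs'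
        rcases hx' with hx' | hx'
        · have : x' = x := by rw [← hinv, hx', hsx]
          subst this
          rw [dslope_same, dslope_same]
          simp only [hg, h0, if_true]
          rfl
        · have hne : e x' ≠ e x := by
            intro h
            rw [h] at hx'
            exact hx' hd0
          have b1 : ch d x (e x') = d x' := by
            change d (e.symm (e x')) = d x'
            rw [hinv]
          have b2 : ch n x (e x') = n x' := by
            change n (e.symm (e x')) = n x'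
            rw [hinv]
          rw [dslope_of_ne _ hne, dslope_of_ne _ hne, slope_def_field, slope_def_field, hn0, hd0,
            sub_zero, sub_zero, b1, b2]
          rw [b1] at hx'
          simp only [hg, hx', if_false]
          have hsub : e x' - e x ≠ 0 := sub_ne_zero.2 hne
          field_simp
      have hcomp : MDifferentiableAt 𝓘(ℂ) 𝓘(ℂ) (G ∘ e) x := by
        have a1 : MDifferentiableAt 𝓘(ℂ) 𝓘(ℂ) e x :=
          mdifferentiableAt_extChartAt (mem_chart_source ℂ x)
        exact hGd.mdifferentiableAt.comp x a1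
      exact hcomp.congr_of_eventuallyEq heq
    · have hcont : ContinuousAt d x := (hdM x).continuousAt
      have heq : g =ᶠ[𝓝 x] fun x' => n x' / d x' := by
        filter_upwards [hcont.eventually_ne h0] with x' hx'
        simp only [hg, hx', if_false]
      have hj := (hnM x).prodMk_space (hdM x)
      have hΦ := div_diff (n x) (d x) h0
      have a1 : MDifferentiableAt 𝓘(ℂ) 𝓘(ℂ) (fun x' => n x' / d x') x :=
        hΦ.mdifferentiableAt.comp x hj
      exact a1.congr_of_eventuallyEq heq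
  have hFM : MDifferentiable 𝓘(ℂ) 𝓘(ℂ, ℂ × ℂ) (fun x => (f x, g x)) := hf.prodMk_space hgM
  set Θ : ℂ × ℂ → ℂ × ℂ := fun p => (p.1, c p.1 + s p.1 * p.2) with hΘ
  have hΘc : Continuous Θ := by
    have := hc.continuous
    have := hs.continuous
    fun_prop
  have hjΘ : (fun x => (f x, y x)) = Θ ∘ fun x => (f x, g x) := by
    funext x
    simp only [hΘ, Function.comp_apply]
    rw [← hrel x]
  refine ⟨fun x => (f x, g x), hFM, ?_, ?_, ?_⟩
  · intro x x' h
    simp only [Prod.mk.injEq] at h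
    refine hinj x x' h.1 ?_
    rw [hrel x, hrel x', h.1, h.2]
  · intro x
    rw [injective_iff_map_eq_zero]
    intro u hu
    have hFx := hFM x
    have hu1 : mfderiv 𝓘(ℂ) 𝓘(ℂ) f x u = 0 := by
      have hfst : MDifferentiableAt 𝓘(ℂ, ℂ × ℂ) 𝓘(ℂ) (Prod.fst : ℂ × ℂ → ℂ) (f x, g x) :=
        differentiableAt_fst.mdifferentiableAt
      have e1 : f = Prod.fst ∘ fun x => (f x, g x) := rfl
      have e2 := mfderiv_comp_apply x (I := 𝓘(ℂ)) (I' := 𝓘(ℂ, ℂ × ℂ)) (I'' := 𝓘(ℂ))
        (f := fun x => (f x, g x)) (g := Prod.fst) hfst hFx u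
      rw [hu, map_zero] at e2
      exact e2
    have hu2 : mfderiv 𝓘(ℂ) 𝓘(ℂ) y x u = 0 := by
      have hΨ : DifferentiableAt ℂ (fun p : ℂ × ℂ => c p.1 + s p.1 * p.2) (f x, g x) :=
        (by fun_prop : Differentiable ℂ (fun p : ℂ × ℂ => c p.1 + s p.1 * p.2)) _
      have e1 : y = (fun p : ℂ × ℂ => c p.1 + s p.1 * p.2) ∘ fun x => (f x, g x) := by
        funext x
        exact hrel x
      have e2 := mfderiv_comp_apply x (I := 𝓘(ℂ)) (I' := 𝓘(ℂ, ℂ × ℂ)) (I'' := 𝓘(ℂ))
        (f := fun x => (f x, g x)) (g := fun p : ℂ × ℂ => c p.1 + s p.1 * p.2)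
        hΨ.mdifferentiableAt hFx u
      rw [hu, map_zero, ← e1] at e2
      exact e2
    exact himm x u hu1 hu2
  · rw [isProperMap_iff_isCompact_preimage]
    have hFc : Continuous fun x => (f x, g x) := hFM.continuous
    refine ⟨hFc, fun K hK => ?_⟩
    have hK' : IsCompact (Θ '' K) := hK.image hΘc
    have hdis : Disjoint (Θ '' K) T := by
      rw [Set.disjoint_left]
      rintro _ ⟨p, hp, rfl⟩ hpT
      have hw : p.1 ∈ W := hT (Θ p) hpT
      have e1 : s p.1 = 0 := (hsz _).2 hw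
      simp only [hΘ, e1, zero_mul, add_zero, hcv _ hw] at hpT
      exact (hv _ hw).1 hpT
    have hcomp := hprop _ hK' hdis
    refine hcomp.of_isClosed_subset (hK.isClosed.preimage hFc) ?_
    intro x hx
    rw [mem_preimage] at hx ⊢
    have : (f x, y x) = Θ (f x, g x) := congrFun hjΘ x
    rw [this]
    exact mem_image_of_mem _ hx

end Pool.RSE
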