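import Mathlib

/-! Double points of a plane map: a compact family of double points is finite. -/

set_option autoImplicit false

namespace Pool.RSE

open Filter Topology Set Metric

/-- the pairs of different points with the same values -/
def Dbl (A B X : Set ℂ) (f g : ℂ → ℂ) : Set (ℂ × ℂ) :=
  {z | z.1 ∈ A ∧ z.1 ∈ X ∧ z.2 ∈ B ∧ z.2 ∈ X ∧ f z.1 = f z.2 ∧ g z.1 = g z.2}

theorem dbl_finite (X A B : Set ℂ) (hX : IsOpen X) (hA : IsOpen A) (hB : IsOpen B)
    (f g : ℂ → ℂ) (hf : DifferentiableOn ℂ f X) (hg : DifferentiableOn ℂ g X)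
    (hd : ∀ p ∈ A, p ∈ X → deriv f p ≠ 0) (hN : IsCompact (Dbl A B X f g)) :
    (Prod.snd '' Dbl A B X f g).Finite := by
  classical
  set N := Dbl A B X f g with hNdef
  set Q : Set ℂ := Prod.snd '' N with hQ
  have hQc : IsCompact Q := hN.image continuous_snd
  have key : ∀ q0, AccPt q0 (𝓟 Q) → Q ∈ 𝓝 q0 := by
    intro q0 hacc
    have hch : ∀ q, ∃ p, q ∈ Q → (p, q) ∈ N := by
      intro q
      by_cases hq : q ∈ Q
      · obtain ⟨⟨p, q'⟩, hz, he⟩ := hq
        refine ⟨p, fun _ => ?_⟩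
        simp only at he
        rw [← he]
        exact hz
      · exact ⟨0, fun h => absurd h hq⟩
    choose π hπ using hch
    have : (𝓝[≠] q0 ⊓ 𝓟 Q).NeBot := hacc
    set 𝒰 : Ultrafilter ℂ := Ultrafilter.of (𝓝[≠] q0 ⊓ 𝓟 Q) with h𝒰
    have hle : (𝒰 : Filter ℂ) ≤ 𝓝[≠] q0 ⊓ 𝓟 Q := Ultrafilter.of_le _
    have hQ𝒰 : ∀ᶠ q in (𝒰 : Filter ℂ), q ∈ Q := (hle.trans inf_le_right) (mem_principal_self Q)
    have hmapN : N ∈ (𝒰.map (fun q => (π q, q)) : Filter (ℂ × ℂ)) := by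
      rw [Ultrafilter.coe_map, Filter.mem_map]
      filter_upwards [hQ𝒰] with q hq using hπ q hq
    obtain ⟨z, hzN, hz⟩ := hN.ultrafilter_le_nhds (𝒰.map (fun q => (π q, q)))
      (le_principal_iff.2 hmapN)
    obtain ⟨p0, q1⟩ := z
    have htend : Tendsto (fun q => (π q, q)) (𝒰 : Filter ℂ) (𝓝 (p0, q1)) := hz
    rw [nhds_prod_eq, tendsto_prod_iff'] at htend
    obtain ⟨t1, t2⟩ := htend
    have t3 : Tendsto (fun q : ℂ => q) (𝒰 : Filter ℂ) (𝓝 q0) :=
      (hle.trans inf_le_left).trans nhdsWithin_le_nhds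
    have hq1 : q1 = q0 := tendsto_nhds_unique t2 t3
    rw [hq1] at hzN
    obtain ⟨m1, m2, m3, m4, m5, m6⟩ := hzN
    simp only at m1 m2 m3 m4 m5 m6
    have afp : AnalyticAt ℂ f p0 := hf.analyticAt (hX.mem_nhds m2)
    have agp : AnalyticAt ℂ g p0 := hg.analyticAt (hX.mem_nhds m2)
    have afq : AnalyticAt ℂ f q0 := hf.analyticAt (hX.mem_nhds m4)
    have agq : AnalyticAt ℂ g q0 := hg.analyticAt (hX.mem_nhds m4)
    have hd0 := hd p0 m1 m2
    set φ := afp.hasStrictDerivAt.localInverse f _ _ hd0 with hφ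
    have aφ : AnalyticAt ℂ φ (f p0) := afp.analyticAt_localInverse hd0
    have hφ0 : φ (f p0) = p0 := HasStrictFDerivAt.localInverse_apply_image ..
    have hφl : ∀ᶠ x in 𝓝 p0, φ (f x) = x := HasStrictDerivAt.eventually_left_inverse ..
    have hφr : ∀ᶠ y in 𝓝 (f p0), f (φ y) = y := HasStrictDerivAt.eventually_right_inverse ..
    have aφ' : AnalyticAt ℂ φ (f q0) := by rw [← m5]; exact aφ
    have hφ0' : φ (f q0) = p0 := by rw [← m5]; exact hφ0
    have agp' : AnalyticAt ℂ g (φ (f q0)) := by rw [hφ0']; exact agp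
    have a1 : AnalyticAt ℂ (fun q => φ (f q)) q0 := aφ'.comp' afq
    have a2 : AnalyticAt ℂ (fun q => g (φ (f q))) q0 :=
      AnalyticAt.comp' (g := g) (f := fun q => φ (f q)) agp' a1
    have ah : AnalyticAt ℂ (fun q => g (φ (f q)) - g q) q0 := a2.sub agq
    have hev : ∀ᶠ q in (𝒰 : Filter ℂ), g (φ (f q)) - g q = 0 := by
      filter_upwards [hQ𝒰, t1.eventually hφl] with q hq1 hq2
      obtain ⟨-, -, -, -, e1, e2⟩ := hπ q hq1
      simp only at e1 e2
      rw [← e1, hq2, e2, sub_self]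
    have hfr : ∃ᶠ q in 𝓝[≠] q0, g (φ (f q)) - g q = 0 :=
      hev.frequently.filter_mono (hle.trans inf_le_left)
    have hzero := ah.frequently_zero_iff_eventually_zero.1 hfr
    have c1 : ∀ᶠ q in 𝓝 q0, φ (f q) ∈ A ∩ X := by
      have hmem : A ∩ X ∈ 𝓝 (φ (f q0)) := by
        rw [hφ0']
        exact (hA.inter hX).mem_nhds ⟨m1, m2⟩
      exact a1.continuousAt hmem
    have c2 : ∀ᶠ q in 𝓝 q0, f (φ (f q)) = f q := by
      rw [m5] at hφr
      exact afq.continuousAt.eventually hφr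
    filter_upwards [hzero, c1, c2, hB.mem_nhds m3, hX.mem_nhds m4] with q k1 k2 k3 k4 k5
    exact ⟨(φ (f q), q), ⟨k2.1, k2.2, k4, k5, k3, sub_eq_zero.1 k1⟩, rfl⟩
  by_contra hinf
  obtain ⟨x, hxQ, hx⟩ := Set.Infinite.exists_accPt_of_subset_isCompact hinf hQc Subset.rfl
  set D : Set ℂ := derivedSet Q with hD
  have hDc : IsClosed D := isClosed_derivedSet Q
  have hDo : IsOpen D := by
    rw [isOpen_iff_mem_nhds]
    intro q hq
    have h1 := key q hq
    filter_upwards [eventually_eventually_nhds.2 h1] with q' hq'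
    show AccPt q' (𝓟 Q)
    have : (𝓝[≠] q' ⊓ 𝓟 Q) = 𝓝[≠] q' := by
      rw [inf_eq_left]
      exact nhdsWithin_le_nhds.trans (le_principal_iff.2 hq')
    unfold AccPt
    rw [this]
    infer_instance
  have huniv : D = univ := IsClopen.eq_univ ⟨hDc, hDo⟩ ⟨x, hx⟩
  have hsub : D ⊆ Q := by
    intro q hq
    exact mem_of_mem_nhds (key q hq)
  rw [huniv] at hsub
  have : IsCompact (univ : Set ℂ) := hQc.of_isClosed_subset isClosed_univ hsub
  exact noncompact_univ ℂ this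

end Pool.RSE
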