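import Mathlib

/-! Entire functions with prescribed simple zeros and prescribed values at the zeros. -/

set_option autoImplicit false

namespace Pool.RSE

open Filter Topology Set Metric

/-- one factor of the product -/
noncomputable def fac (n : ℕ) (w z : ℂ) : ℂ :=
  (1 + (-z / w)) * Complex.exp (-Complex.logTaylor (n + 1) (-z / w))

theorem fac_bound (n : ℕ) (w z : ℂ) (hw : w ≠ 0) (h : 2 * ‖z‖ ≤ ‖w‖) :
    ‖fac n w z - 1‖ ≤ 2 * (1 / 2 : ℝ) ^ n := by
  set ζ : ℂ := -z / w with hζ
  have hwp : 0 < ‖w‖ := norm_pos_iff.2 hw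
  have hn : ‖ζ‖ ≤ 1 / 2 := by
    rw [hζ, norm_div, norm_neg, div_le_iff₀ hwp]
    linarith
  have h1 : ‖ζ‖ < 1 := by linarith
  have hne : 1 + ζ ≠ 0 := by
    intro h0
    have : ζ = -1 := by linear_combination h0
    rw [this] at h1
    simp at h1
  have hL := Complex.norm_log_sub_logTaylor_le n h1
  have hinv : (1 - ‖ζ‖)⁻¹ ≤ 2 := by
    rw [inv_le_comm₀ (by linarith) (by norm_num)]
    linarith
  have hpow : ‖ζ‖ ^ (n + 1) ≤ (1 / 2 : ℝ) ^ (n + 1) := pow_le_pow_left₀ (norm_nonneg _) hn _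
  have hL2 : ‖Complex.log (1 + ζ) - Complex.logTaylor (n + 1) ζ‖ ≤ (1 / 2 : ℝ) ^ n := by
    refine hL.trans ?_
    have h3 : ‖ζ‖ ^ (n + 1) * (1 - ‖ζ‖)⁻¹ ≤ (1 / 2 : ℝ) ^ n := by
      calc ‖ζ‖ ^ (n + 1) * (1 - ‖ζ‖)⁻¹ ≤ (1 / 2 : ℝ) ^ (n + 1) * 2 := by
            apply mul_le_mul hpow hinv (inv_nonneg.2 (by linarith)) (by positivity)
        _ = (1 / 2 : ℝ) ^ n := by rw [pow_succ]; ring
    have h4 : (1 : ℝ) ≤ (n : ℝ) + 1 := by
      have : (0 : ℝ) ≤ (n : ℝ) := Nat.cast_nonneg n
      linarith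
    rw [div_le_iff₀ (by linarith)]
    have h5 : (0 : ℝ) ≤ (1 / 2 : ℝ) ^ n := by positivity
    nlinarith
  have hL1 : ‖Complex.log (1 + ζ) - Complex.logTaylor (n + 1) ζ‖ ≤ 1 := by
    refine hL2.trans ?_
    exact pow_le_one₀ (by norm_num) (by norm_num)
  have hexp : fac n w z = Complex.exp (Complex.log (1 + ζ) - Complex.logTaylor (n + 1) ζ) := by
    rw [fac, ← hζ, sub_eq_add_neg, Complex.exp_add, Complex.exp_log hne]
  rw [hexp]
  exact (Complex.norm_exp_sub_one_le hL1).trans (by linarith)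

theorem logTaylor_diff (n : ℕ) : Differentiable ℂ (Complex.logTaylor n) := by
  cases n with
  | zero => rw [Complex.logTaylor_zero]; exact differentiable_const _
  | succ n => exact fun z => (Complex.hasDerivAt_logTaylor n z).differentiableAt

theorem fac_diff (n : ℕ) (w : ℂ) : Differentiable ℂ (fac n w) := by
  unfold fac
  have h := logTaylor_diff (n + 1)
  have h1 : Differentiable ℂ (fun z : ℂ => -z / w) := by fun_prop
  have h2 : Differentiable ℂ (fun z : ℂ => Complex.logTaylor (n + 1) (-z / w)) := h.comp h1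
  fun_prop

theorem fac_zero_iff (n : ℕ) (w z : ℂ) (hw : w ≠ 0) : fac n w z = 0 ↔ z = w := by
  unfold fac
  rw [mul_eq_zero]
  constructor
  · rintro (h | h)
    · field_simp at h
      linear_combination -h
    · exact absurd h (Complex.exp_ne_zero _)
  · rintro rfl
    left
    field_simp
    ring

theorem fac_deriv (n : ℕ) (w : ℂ) (hw : w ≠ 0) : deriv (fac n w) w ≠ 0 := by
  have h1 : HasDerivAt (fun z : ℂ => 1 + (-z / w)) (-1 / w) w := by
    have := ((hasDerivAt_id w).neg.div_const w).const_add 1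
    simpa using this
  have h2 : DifferentiableAt ℂ (fun z : ℂ => Complex.exp (-Complex.logTaylor (n + 1) (-z / w))) w := by
    have h := logTaylor_diff (n + 1)
    have h1 : Differentiable ℂ (fun z : ℂ => -z / w) := by fun_prop
    have h2 : Differentiable ℂ (fun z : ℂ => Complex.logTaylor (n + 1) (-z / w)) := h.comp h1
    fun_prop
  have h3 := h1.mul h2.hasDerivAt
  have h4 : deriv (fac n w) w = _ := h3.deriv
  rw [h4]
  have h5 : (1 : ℂ) + -w / w = 0 := by field_simp; ring
  rw [h5, zero_mul, add_zero]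
  exact mul_ne_zero (div_ne_zero (by norm_num) hw) (Complex.exp_ne_zero _)

theorem prod_diff {ι : Type} (u : ι → ℂ → ℂ) (U : ι → ℝ) (hU : Summable U)
    (hu : ∀ i, Differentiable ℂ (u i))
    (hb : ∀ R : ℝ, ∀ᶠ i in cofinite, ∀ z ∈ ball (0 : ℂ) R, ‖u i z‖ ≤ U i) :
    Differentiable ℂ (fun z => ∏' i, (1 + u i z)) := by
  intro z
  have h := Summable.hasProdLocallyUniformlyOn_one_add (K := ball (0 : ℂ) (‖z‖ + 1)) (f := u)
    isOpen_ball hU (hb _) (fun i => (hu i).continuous.continuousOn)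
  have h2 : TendstoLocallyUniformlyOn (fun (s : Finset ι) (z : ℂ) => ∏ i ∈ s, (1 + u i z))
      (fun z => ∏' i, (1 + u i z)) atTop (ball (0 : ℂ) (‖z‖ + 1)) := h
  have h3 := h2.differentiableOn (Eventually.of_forall fun s => by
    refine Differentiable.differentiableOn ?_
    exact Differentiable.fun_finsetProd fun i _ => (differentiable_const _).add (hu i)) isOpen_ball
  exact h3.differentiableAt (isOpen_ball.mem_nhds (by simp))

theorem summable_at {ι : Type} (u : ι → ℂ → ℂ) (U : ι → ℝ) (hU : Summable U)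
    (hb : ∀ R : ℝ, ∀ᶠ i in cofinite, ∀ z ∈ ball (0 : ℂ) R, ‖u i z‖ ≤ U i) (z : ℂ) :
    Summable fun i => ‖u i z‖ := by
  refine Summable.of_norm_bounded_eventually hU ?_
  filter_upwards [hb (‖z‖ + 1)] with i hi
  rw [norm_norm]
  exact hi z (by simp)

/-- the product over a locally finite set not containing zero -/
theorem exists_prod (W : Set ℂ) (hW : ∀ R : ℝ, (W ∩ closedBall 0 R).Finite) (h0 : (0 : ℂ) ∉ W) :
    ∃ P : ℂ → ℂ, Differentiable ℂ P ∧ (∀ z, P z = 0 ↔ z ∈ W) ∧ ∀ z ∈ W, deriv P z ≠ 0 := by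
  classical
  have hcount : W.Countable := by
    have : W = ⋃ n : ℕ, W ∩ closedBall 0 (n : ℝ) := by
      ext z
      simp only [mem_iUnion, mem_inter_iff, mem_closedBall, dist_zero_right]
      constructor
      · intro h
        obtain ⟨n, hn⟩ := exists_nat_ge ‖z‖
        exact ⟨n, h, hn⟩
      · rintro ⟨n, h, _⟩
        exact h
    rw [this]
    exact countable_iUnion fun n => (hW n).countable
  have : Countable ↥W := hcount.to_subtype
  obtain ⟨e, he⟩ := exists_injective_nat ↥W
  have hne : ∀ i : ↥W, (i : ℂ) ≠ 0 := fun i h => h0 (h ▸ i.2)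
  set u : ↥W → ℂ → ℂ := fun i z => fac (e i) i z - 1 with hu
  set U : ↥W → ℝ := fun i => 2 * (1 / 2 : ℝ) ^ (e i) with hUdef
  have hU : Summable U := by
    have h1 : Summable fun n : ℕ => 2 * (1 / 2 : ℝ) ^ n :=
      (summable_geometric_of_lt_one (by norm_num) (by norm_num)).mul_left 2
    exact h1.comp_injective he
  have hud : ∀ i, Differentiable ℂ (u i) := fun i => (fac_diff _ _).sub (differentiable_const _)
  have hb : ∀ R : ℝ, ∀ᶠ i in cofinite, ∀ z ∈ ball (0 : ℂ) R, ‖u i z‖ ≤ U i := by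
    intro R
    have hfin : {i : ↥W | ¬ (∀ z ∈ ball (0 : ℂ) R, ‖u i z‖ ≤ U i)}.Finite := by
      have h1 : ((fun i : ↥W => (i : ℂ)) ⁻¹' (W ∩ closedBall 0 (2 * R))).Finite :=
        (hW (2 * R)).preimage Subtype.val_injective.injOn
      refine h1.subset fun i hi => ?_
      simp only [mem_ofPred_eq] at hi
      by_contra hc
      apply hi
      intro z hz
      refine fac_bound _ _ _ (hne i) ?_
      have h2 : ¬ ‖(i : ℂ)‖ ≤ 2 * R := fun h => hc ⟨i.2, by simpa using h⟩
      rw [mem_ball, dist_zero_right] at hz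
      linarith
    exact hfin
  refine ⟨fun z => ∏' i, (1 + u i z), prod_diff u U hU hud hb, ?_, ?_⟩
  · intro z
    constructor
    · intro h
      by_contra hz
      refine tprod_one_add_ne_zero_of_summable (f := fun i => u i z) ?_ (summable_at u U hU hb z) h
      intro i hi
      have h1 : fac (e i) i z = 0 := by simpa [hu] using hi
      rw [fac_zero_iff _ _ _ (hne i)] at h1
      exact hz (h1 ▸ i.2)
    · intro hz
      have h1 : (1 : ℂ) + u ⟨z, hz⟩ z = 0 := by
        have := (fac_zero_iff (e ⟨z, hz⟩) z z (hne ⟨z, hz⟩)).2 rfl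
        simp only [hu]
        rw [this]
        ring
      exact tprod_of_exists_eq_zero ⟨⟨z, hz⟩, h1⟩
  · intro z hz
    set j : ↥W := ⟨z, hz⟩ with hj
    set u' : ↥W → ℂ → ℂ := fun i z => if i = j then 0 else u i z with hu'
    have hud' : ∀ i, Differentiable ℂ (u' i) := by
      intro i
      simp only [hu']
      by_cases h : i = j
      · simp only [h, if_true]; exact differentiable_const _
      · simp only [h, if_false]; exact hud i
    have hU0 : ∀ i, 0 ≤ U i := fun i => by simp only [hUdef]; positivity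
    have hb' : ∀ R : ℝ, ∀ᶠ i in cofinite, ∀ z ∈ ball (0 : ℂ) R, ‖u' i z‖ ≤ U i := by
      intro R
      filter_upwards [hb R] with i hi z hz
      simp only [hu']
      by_cases h : i = j
      · simp only [h, if_true, norm_zero]; exact hU0 _
      · simp only [h, if_false]; exact hi z hz
    have hsplit : ∀ x, ∏' i, (1 + u i x) = fac (e j) z x * ∏' i, (1 + u' i x) := by
      intro x
      have hm : Multipliable fun i => 1 + u i x :=
        multipliable_one_add_of_summable (summable_at u U hU hb x)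
      have hm' : Multipliable fun i => 1 + u' i x :=
        multipliable_one_add_of_summable (summable_at u' U hU hb' x)
      have hupd : (fun i => 1 + u' i x) = Function.update (fun i => 1 + u i x) j 1 := by
        funext i
        simp only [hu', Function.update_apply]
        by_cases h : i = j
        · simp [h]
        · simp [h]
      have h1 := Multipliable.tprod_eq_mul_tprod_ite' (f := fun i => 1 + u i x) j (by
        rw [← hupd]; exact hm')
      rw [h1]
      congr 1
      · simp only [hu, hj]; ring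
      · refine tprod_congr fun i => ?_
        simp only [hu']
        by_cases h : i = j
        · simp [h]
        · simp [h]
    have hQ : Differentiable ℂ (fun z => ∏' i, (1 + u' i z)) := prod_diff u' U hU hud' hb'
    have hQne : ∏' i, (1 + u' i z) ≠ 0 := by
      refine tprod_one_add_ne_zero_of_summable (f := fun i => u' i z) ?_ (summable_at u' U hU hb' z)
      intro i hi
      simp only [hu'] at hi
      by_cases h : i = j
      · simp [h] at hi
      · simp only [h, if_false] at hi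
        have h1 : fac (e i) i z = 0 := by simpa [hu] using hi
        rw [fac_zero_iff _ _ _ (hne i)] at h1
        exact h (Subtype.ext h1.symm)
    have hfun : (fun z => ∏' i, (1 + u i z)) = fun x => fac (e j) z x * ∏' i, (1 + u' i x) :=
      funext hsplit
    rw [hfun]
    have h1 := ((fac_diff (e j) z).differentiableAt (x := z)).hasDerivAt.mul
      (hQ.differentiableAt (x := z)).hasDerivAt
    have h2 : deriv (fun x => fac (e j) z x * ∏' i, (1 + u' i x)) z = _ := h1.deriv
    rw [h2, (fac_zero_iff (e j) z z (hne j)).2 rfl, zero_mul, add_zero]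
    exact mul_ne_zero (fac_deriv _ _ (hne j)) hQne

theorem exists_zeros (W : Set ℂ) (hW : ∀ R : ℝ, (W ∩ closedBall 0 R).Finite) :
    ∃ P : ℂ → ℂ, Differentiable ℂ P ∧ (∀ z, P z = 0 ↔ z ∈ W) ∧ ∀ z ∈ W, deriv P z ≠ 0 := by
  by_cases h0 : (0 : ℂ) ∈ W
  · obtain ⟨P, hP, hz, hd⟩ := exists_prod (W \ {0})
      (fun R => (hW R).subset fun z hz => ⟨hz.1.1, hz.2⟩) (by simp)
    have hP0 : P 0 ≠ 0 := fun h => ((hz 0).1 h).2 rfl
    refine ⟨fun z => z * P z, differentiable_id.mul hP, ?_, ?_⟩
    · intro z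
      rw [mul_eq_zero, hz]
      constructor
      · rintro (h | h)
        · rw [h]; exact h0
        · exact h.1
      · intro h
        by_cases hz0 : z = 0
        · exact Or.inl hz0
        · exact Or.inr ⟨h, hz0⟩
    · intro z hzW
      have h1 := (hasDerivAt_id z).mul (hP.differentiableAt (x := z)).hasDerivAt
      have h2 : deriv (fun z => z * P z) z = _ := h1.deriv
      rw [h2]
      by_cases hz0 : z = 0
      · subst hz0
        simpa using hP0
      · have h3 : P z = 0 := (hz z).2 ⟨hzW, hz0⟩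
        rw [h3]
        simp only [mul_zero, zero_add, id]
        exact mul_ne_zero hz0 (hd z ⟨hzW, hz0⟩)
  · exact exists_prod W hW h0

/-- simple zeros exactly on `W`, and prescribed values on `W` -/
theorem exists_pair (W : Set ℂ) (hW : ∀ R : ℝ, (W ∩ closedBall 0 R).Finite) (v : ℂ → ℂ) :
    ∃ S c : ℂ → ℂ, Differentiable ℂ S ∧ (∀ z, S z = 0 ↔ z ∈ W) ∧ (∀ z ∈ W, deriv S z ≠ 0) ∧
      Differentiable ℂ c ∧ ∀ z ∈ W, c z = v z := by
  classical
  obtain ⟨S, hS, hz, hd⟩ := exists_zeros W hW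
  have hcount : W.Countable := by
    have : W = ⋃ n : ℕ, W ∩ closedBall 0 (n : ℝ) := by
      ext z
      simp only [mem_iUnion, mem_inter_iff, mem_closedBall, dist_zero_right]
      constructor
      · intro h
        obtain ⟨n, hn⟩ := exists_nat_ge ‖z‖
        exact ⟨n, h, hn⟩
      · rintro ⟨n, h, _⟩
        exact h
    rw [this]
    exact countable_iUnion fun n => (hW n).countable
  have : Countable ↥W := hcount.to_subtype
  obtain ⟨e, he⟩ := exists_injective_nat ↥W
  -- the exponents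
  have hm : ∀ i : ↥W, ∃ m : ℕ, ((i : ℂ) = 0 → m = 0) ∧ ((i : ℂ) ≠ 0 →
      ‖v i‖ / ‖deriv S i‖ * (2 / ‖(i : ℂ)‖) * (1 / 2 : ℝ) ^ m ≤ (1 / 2 : ℝ) ^ (e i)) := by
    intro i
    by_cases h0 : (i : ℂ) = 0
    · exact ⟨0, fun _ => rfl, fun h => absurd h0 h⟩
    · have ht : Tendsto (fun m : ℕ => ‖v i‖ / ‖deriv S i‖ * (2 / ‖(i : ℂ)‖) * (1 / 2 : ℝ) ^ m)
          atTop (𝓝 (‖v i‖ / ‖deriv S i‖ * (2 / ‖(i : ℂ)‖) * 0)) :=
        (tendsto_pow_atTop_nhds_zero_of_lt_one (by norm_num) (by norm_num)).const_mul _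
      rw [mul_zero] at ht
      have h1 : ∀ᶠ m : ℕ in atTop, ‖v i‖ / ‖deriv S i‖ * (2 / ‖(i : ℂ)‖) * (1 / 2 : ℝ) ^ m <
          (1 / 2 : ℝ) ^ (e i) := ht.eventually_lt_const (by positivity)
      obtain ⟨m, hm⟩ := h1.exists
      exact ⟨m, fun h => absurd h h0, fun _ => hm.le⟩
  choose m hm0 hm1 using hm
  set T : ↥W → ℂ → ℂ := fun i z =>
    v i / deriv S i * dslope S i z * (z / (i : ℂ)) ^ m i with hT
  have hTd : ∀ i, Differentiable ℂ (T i) := by
    intro i
    have h1 : Differentiable ℂ (dslope S i) := by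
      rw [← differentiableOn_univ]
      exact (Complex.differentiableOn_dslope univ_mem).2 hS.differentiableOn
    have h2 : Differentiable ℂ (fun z : ℂ => (z / (i : ℂ)) ^ m i) := by fun_prop
    exact ((differentiable_const _).mul h1).mul h2
  have hbound : ∀ R : ℝ, ∃ M : ℝ, 0 ≤ M ∧ ∀ᶠ i in cofinite, ∀ z ∈ ball (0 : ℂ) R,
      ‖T i z‖ ≤ M * (1 / 2 : ℝ) ^ (e i) := by
    intro R
    obtain ⟨M, hM⟩ := (isCompact_closedBall (0 : ℂ) R).exists_bound_of_continuousOn
      hS.continuous.continuousOn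
    refine ⟨max M 0, le_max_right _ _, ?_⟩
    have hfin : {i : ↥W | ¬ (∀ z ∈ ball (0 : ℂ) R, ‖T i z‖ ≤ max M 0 * (1 / 2 : ℝ) ^ (e i))}.Finite := by
      have h1 : ((fun i : ↥W => (i : ℂ)) ⁻¹' (W ∩ closedBall 0 (2 * |R|))).Finite :=
        (hW (2 * |R|)).preimage Subtype.val_injective.injOn
      refine h1.subset fun i hi => ?_
      simp only [mem_ofPred_eq] at hi
      by_contra hc
      apply hi
      intro z hzb
      have h2 : ¬ ‖(i : ℂ)‖ ≤ 2 * |R| := fun h => hc ⟨i.2, by simpa using h⟩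
      rw [mem_ball, dist_zero_right] at hzb
      have hRR : R ≤ |R| := le_abs_self R
      have hR0 : 0 ≤ |R| := abs_nonneg R
      have hipos : 0 < ‖(i : ℂ)‖ := by linarith
      have hi0 : (i : ℂ) ≠ 0 := norm_pos_iff.1 hipos
      have hzi : z ≠ (i : ℂ) := by
        intro h
        rw [h] at hzb
        linarith
      have hSz : ‖S z‖ ≤ max M 0 :=
        (hM z (by rw [mem_closedBall, dist_zero_right]; exact hzb.le)).trans (le_max_left _ _)
      have hds : ‖dslope S i z‖ ≤ max M 0 * (2 / ‖(i : ℂ)‖) := by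
        rw [dslope_of_ne _ hzi, slope_def_field, (hz i).2 i.2, sub_zero, norm_div, div_le_iff₀
          (norm_pos_iff.2 (sub_ne_zero.2 hzi))]
        have h3 : ‖(i : ℂ)‖ / 2 ≤ ‖z - i‖ := by
          have h4 := norm_sub_norm_le (i : ℂ) z
          rw [norm_sub_rev] at h4
          linarith
        have h5 : (1 : ℝ) ≤ 2 / ‖(i : ℂ)‖ * ‖z - i‖ := by
          rw [div_mul_eq_mul_div, le_div_iff₀ hipos]
          linarith
        have h6 : (0 : ℝ) ≤ max M 0 := le_max_right _ _
        calc ‖S z‖ ≤ max M 0 * 1 := by linarith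
          _ ≤ max M 0 * (2 / ‖(i : ℂ)‖ * ‖z - i‖) := mul_le_mul_of_nonneg_left h5 h6
          _ = max M 0 * (2 / ‖(i : ℂ)‖) * ‖z - i‖ := by ring
      have hpw : ‖(z / (i : ℂ)) ^ m i‖ ≤ (1 / 2 : ℝ) ^ m i := by
        rw [norm_pow]
        refine pow_le_pow_left₀ (norm_nonneg _) ?_ _
        rw [norm_div, div_le_iff₀ hipos]
        linarith
      simp only [hT]
      rw [norm_mul, norm_mul, norm_div]
      have h6 : (0 : ℝ) ≤ max M 0 := le_max_right _ _
      have h7 : 0 ≤ ‖v i‖ / ‖deriv S i‖ := by positivity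
      calc ‖v i‖ / ‖deriv S i‖ * ‖dslope S i z‖ * ‖(z / (i : ℂ)) ^ m i‖
          ≤ ‖v i‖ / ‖deriv S i‖ * (max M 0 * (2 / ‖(i : ℂ)‖)) * (1 / 2 : ℝ) ^ m i := by
            refine mul_le_mul (mul_le_mul_of_nonneg_left hds h7) hpw (norm_nonneg _) ?_
            positivity
        _ = max M 0 * (‖v i‖ / ‖deriv S i‖ * (2 / ‖(i : ℂ)‖) * (1 / 2 : ℝ) ^ m i) := by ring
        _ ≤ max M 0 * (1 / 2 : ℝ) ^ (e i) := mul_le_mul_of_nonneg_left (hm1 i hi0) h6
    exact hfin
  refine ⟨S, fun z => ∑' i, T i z, hS, hz, hd, ?_, ?_⟩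
  · intro z
    obtain ⟨M, hM0, hM⟩ := hbound (‖z‖ + 1)
    have hsum : Summable fun i : ↥W => M * (1 / 2 : ℝ) ^ (e i) := by
      have h1 : Summable fun n : ℕ => M * (1 / 2 : ℝ) ^ n :=
        (summable_geometric_of_lt_one (by norm_num) (by norm_num)).mul_left M
      exact h1.comp_injective he
    have h2 := (tendstoUniformlyOn_tsum_of_cofinite_eventually hsum hM).tendstoLocallyUniformlyOn
    have h3 := h2.differentiableOn (Eventually.of_forall fun s => by
      refine Differentiable.differentiableOn ?_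
      exact Differentiable.fun_sum fun i _ => hTd i) isOpen_ball
    exact h3.differentiableAt (isOpen_ball.mem_nhds (by simp))
  · intro z hzW
    have h1 : ∑' i, T i z = T ⟨z, hzW⟩ z := by
      refine tsum_eq_single (⟨z, hzW⟩ : ↥W) fun i hi => ?_
      have hzi : z ≠ (i : ℂ) := fun h => hi (Subtype.ext h.symm)
      simp only [hT]
      rw [dslope_of_ne _ hzi, slope_def_field, (hz i).2 i.2, (hz z).2 hzW]
      simp
    simp only
    rw [h1]
    simp only [hT, dslope_same]
    have hdz := hd z hzW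
    by_cases h0 : z = 0
    · rw [hm0 ⟨z, hzW⟩ h0, pow_zero]
      field_simp
    · rw [div_self h0, one_pow]
      field_simp

end Pool.RSE
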