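import Pool.Agent.H88.RSE.Main

/-! Planar domains. -/

set_option autoImplicit false

namespace Pool.RSE

open Filter Topology Set Metric
open scoped Manifold ContDiff

theorem disc_of {Y : Type} [TopologicalSpace Y] (S : Set Y)
    (h : ∀ x ∈ S, ∀ᶠ w in 𝓝[≠] x, w ∉ S) : IsDiscrete S := by
  rw [isDiscrete_iff_nhdsNE]
  intro x hx
  rw [inf_principal_eq_bot]
  exact h x hx

theorem transfer {S S' : Type} [TopologicalSpace S] [ChartedSpace ℂ S]
    [TopologicalSpace S'] [ChartedSpace ℂ S']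
    (φ : S → S') (hφ : MDifferentiable 𝓘(ℂ) 𝓘(ℂ) φ) (hinj : Function.Injective φ)
    (himm : ∀ x, Function.Injective (mfderiv 𝓘(ℂ) 𝓘(ℂ) φ x)) (hp : IsProperMap φ)
    (h : HasPHE S') : HasPHE S := by
  obtain ⟨F, h1, h2, h3, h4⟩ := h
  refine ⟨F ∘ φ, h1.comp hφ, h2.comp hinj, ?_, h4.comp hp⟩
  intro x
  rw [mfderiv_comp x (h1 (φ x)) (hφ x)]
  exact (h3 (φ x)).comp (himm x)

/-- an immersion criterion -/
theorem imm_of {S : Type} [TopologicalSpace S] [ChartedSpace ℂ S]
    (F : S → ℂ × ℂ) (hF : MDifferentiable 𝓘(ℂ) 𝓘(ℂ, ℂ × ℂ) F)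
    (L : ℂ × ℂ → ℂ) (hL : Differentiable ℂ L) (x : S)
    (hx : Function.Injective (mfderiv 𝓘(ℂ) 𝓘(ℂ) (L ∘ F) x)) :
    Function.Injective (mfderiv 𝓘(ℂ) 𝓘(ℂ, ℂ × ℂ) F x) := by
  rw [mfderiv_comp x (hL (F x)).mdifferentiableAt (hF x)] at hx
  exact Function.Injective.of_comp hx

/-- the complement of a closed discrete set of the plane -/
theorem planar_disc (U : TopologicalSpace.Opens ℂ) (hU : IsDiscrete ((U : Set ℂ)ᶜ)) :
    HasPHE U := by
  have hf : Differentiable ℂ (fun z : ℂ => z ^ 2) := by fun_prop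
  have hpair : MDifferentiable 𝓘(ℂ) 𝓘(ℂ, ℂ × ℂ) (fun z : ℂ => (z ^ 2, z)) := by
    have : Differentiable ℂ (fun z : ℂ => (z ^ 2, z)) := by fun_prop
    exact this.mdifferentiable
  refine twoSheeted (X := ℂ) (fun z => z ^ 2) (fun z => z) (fun w => w) hf.mdifferentiable
    differentiable_id.mdifferentiable differentiable_id (fun z => rfl) ?_ ?_ ?_ U hU
  · rw [isProperMap_iff_tendsto_cocompact]
    refine ⟨hf.continuous, ?_⟩
    rw [← Metric.cobounded_eq_cocompact, ← tendsto_norm_atTop_iff_cobounded]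
    simp_rw [norm_pow]
    exact (tendsto_pow_atTop two_ne_zero).comp tendsto_norm_cobounded_atTop
  · intro a b hab
    exact (Prod.ext_iff.1 hab).2
  · intro x
    refine imm_of (fun z : ℂ => (z ^ 2, z)) hpair Prod.snd differentiable_snd x ?_
    have e : (Prod.snd ∘ fun z : ℂ => (z ^ 2, z)) = id := rfl
    rw [e, mfderiv_id]
    exact Function.injective_id

/-- the plane without the point `p` -/
def Vp (p : ℂ) : TopologicalSpace.Opens ℂ := ⟨{p}ᶜ, isOpen_compl_singleton⟩

theorem mem_Vp (p z : ℂ) : z ∈ Vp p ↔ z ≠ p := Iff.rfl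

theorem vp_fdiff (p : ℂ) (c : ℂ) :
    MDifferentiable 𝓘(ℂ) 𝓘(ℂ) (fun z : Vp p => (z.1 - p) + c * (z.1 - p)⁻¹) := by
  intro z
  have hz : z.1 - p ≠ 0 := sub_ne_zero.2 z.2
  have h1 : DifferentiableAt ℂ (fun w : ℂ => (w - p) + c * (w - p)⁻¹) z.1 := by
    have : DifferentiableAt ℂ (fun w : ℂ => (w - p)⁻¹) z.1 :=
      (by fun_prop : DifferentiableAt ℂ (fun w : ℂ => w - p) z.1).inv hz
    fun_prop
  have h2 : MDifferentiable 𝓘(ℂ) 𝓘(ℂ) (Subtype.val : Vp p → ℂ) :=
    (contMDiff_subtype_val (n := 1)).mdifferentiable (by norm_num)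
  exact h1.mdifferentiableAt.comp z (h2 z)

theorem vp_proper (p : ℂ) :
    IsProperMap (fun z : Vp p => (z.1 - p) + 1 * (z.1 - p)⁻¹) := by
  rw [isProperMap_iff_isCompact_preimage]
  have hc : Continuous (fun z : Vp p => (z.1 - p) + 1 * (z.1 - p)⁻¹) := (vp_fdiff p 1).continuous
  refine ⟨hc, fun K hK => ?_⟩
  obtain ⟨R, hR⟩ := hK.isBounded.subset_closedBall 0
  set R' : ℝ := max R 0 + 1 with hR'
  have hR1 : 1 ≤ R' := by
    have := le_max_right R 0
    linarith
  have hRR : R < R' := by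
    have := le_max_left R 0
    linarith
  -- the annulus
  have hA : IsCompact ((Subtype.val : Vp p → ℂ) ⁻¹' (closedBall p R' \ ball p R'⁻¹)) := by
    rw [Subtype.isCompact_iff]
    have e : ((↑) '' ((Subtype.val : Vp p → ℂ) ⁻¹' (closedBall p R' \ ball p R'⁻¹)) : Set ℂ) =
        closedBall p R' \ ball p R'⁻¹ := by
      ext z
      constructor
      · rintro ⟨w, hw, rfl⟩
        exact hw
      · intro hz
        have hzp : z ≠ p := by
          rintro rfl
          exact hz.2 (mem_ball_self (by positivity))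
        exact ⟨⟨z, hzp⟩, hz, rfl⟩
    rw [e]
    exact (isCompact_closedBall p R').diff isOpen_ball
  refine hA.of_isClosed_subset (hK.isClosed.preimage hc) ?_
  intro z hz
  have hz0 : z.1 - p ≠ 0 := sub_ne_zero.2 z.2
  have hzn : 0 < ‖z.1 - p‖ := norm_pos_iff.2 hz0
  have hb : ‖(z.1 - p) + 1 * (z.1 - p)⁻¹‖ ≤ R := by
    have := hR hz
    rwa [mem_closedBall, dist_zero_right] at this
  rw [one_mul] at hb
  rw [mem_preimage]
  constructor
  · rw [mem_closedBall, dist_eq_norm]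
    by_contra hcon
    push Not at hcon
    have h1 : ‖(z.1 - p)⁻¹‖ ≤ 1 := by
      rw [norm_inv]
      exact inv_le_one_of_one_le₀ (by linarith)
    have h2 : ‖z.1 - p‖ ≤ ‖(z.1 - p) + (z.1 - p)⁻¹‖ + ‖(z.1 - p)⁻¹‖ := by
      have := norm_sub_le ((z.1 - p) + (z.1 - p)⁻¹) (z.1 - p)⁻¹
      rwa [add_sub_cancel_right] at this
    have := le_max_left R 0
    linarith
  · rw [mem_ball, dist_eq_norm]
    intro hcon
    have h1 : ‖z.1 - p‖ ≤ 1 := by
      have : R'⁻¹ ≤ 1 := inv_le_one_of_one_le₀ hR1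
      linarith
    have h3 : R' < ‖(z.1 - p)⁻¹‖ := by
      rw [norm_inv]
      rwa [lt_inv_comm₀ (by linarith) hzn]
    have h2 : ‖(z.1 - p)⁻¹‖ ≤ ‖(z.1 - p) + (z.1 - p)⁻¹‖ + ‖z.1 - p‖ := by
      have := norm_sub_le ((z.1 - p) + (z.1 - p)⁻¹) (z.1 - p)
      rwa [add_sub_cancel_left] at this
    have := le_max_left R 0
    linarith

/-- the complement of a closed discrete set of the plane without a point -/
theorem punct_disc (p : ℂ) (U : TopologicalSpace.Opens (Vp p))
    (hU : IsDiscrete ((U : Set (Vp p))ᶜ)) : HasPHE U := by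
  have hf := vp_fdiff p 1
  have hy := vp_fdiff p (-1)
  have hval : ∀ z : Vp p, mfderiv 𝓘(ℂ) 𝓘(ℂ) (fun z : Vp p => z.1) z =
      ContinuousLinearMap.id ℂ ℂ := by
    intro z
    have := res_mfderiv (Vp p) (fun z : ℂ => z) differentiable_id.mdifferentiable z
    have h2 : mfderiv 𝓘(ℂ) 𝓘(ℂ) (fun z : ℂ => z) z.1 = ContinuousLinearMap.id ℂ ℂ := mfderiv_id
    exact this.trans h2
  refine twoSheeted (X := Vp p) _ _ (fun w => w ^ 2 - 4) hf hy (by fun_prop) ?_
    (vp_proper p) ?_ ?_ U hU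
  · intro z
    have hz0 : z.1 - p ≠ 0 := sub_ne_zero.2 z.2
    field_simp
    ring
  · intro a b hab
    have h1 := (Prod.ext_iff.1 hab).1
    have h2 := (Prod.ext_iff.1 hab).2
    simp only at h1 h2
    apply Subtype.ext
    linear_combination (h1 + h2) / 2
  · intro z
    have hF := hf.prodMk_space hy
    refine imm_of _ hF (fun q : ℂ × ℂ => (q.1 + q.2) / 2 + p) (by fun_prop) z ?_
    have e : ((fun q : ℂ × ℂ => (q.1 + q.2) / 2 + p) ∘ fun z : Vp p =>
        ((z.1 - p) + 1 * (z.1 - p)⁻¹, (z.1 - p) + (-1) * (z.1 - p)⁻¹)) = fun z : Vp p => z.1 := by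
      funext z
      simp only [Function.comp_apply]
      ring
    rw [e, hval]
    exact Function.injective_id

/-- **planar domains**: the complement has at most one accumulation point in the plane -/
theorem planar (U : TopologicalSpace.Opens ℂ) (p : ℂ)
    (h : ∀ z, z ∉ U → z ≠ p → ∀ᶠ w in 𝓝[≠] z, w ∈ U) : HasPHE U := by
  by_cases hp : p ∈ U
  · apply planar_disc U
    apply disc_of
    intro x hx
    have hxp : x ≠ p := by
      rintro rfl
      exact hx hp
    filter_upwards [h x hx hxp] with w hw hw'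
    exact hw' hw
  · set U' : TopologicalSpace.Opens (Vp p) :=
      ⟨(Subtype.val : Vp p → ℂ) ⁻¹' U, U.isOpen.preimage continuous_subtype_val⟩ with hU'
    have hdis : IsDiscrete ((U' : Set (Vp p))ᶜ) := by
      apply disc_of
      intro x hx
      have h1 := h x.1 hx x.2
      rw [eventually_nhdsWithin_iff] at h1 ⊢
      have h2 := (continuous_subtype_val (p := fun z => z ∈ Vp p)).continuousAt (x := x)
      filter_upwards [h2.eventually h1] with w hw hwx hwU
      exact hwU (hw (fun hh => hwx (Subtype.ext hh)))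
    have hne : ∀ z : U, z.1 ≠ p := by
      intro z hz
      exact hp (hz ▸ z.2)
    set φ : U → U' := fun z => ⟨⟨z.1, hne z⟩, z.2⟩ with hφ
    have hφv : (Subtype.val : Vp p → ℂ) ∘ (Subtype.val : U' → Vp p) ∘ φ = Subtype.val := rfl
    have hφd : ContMDiff 𝓘(ℂ) 𝓘(ℂ) ∞ φ := by
      rw [← ContMDiff.subtypeVal_comp_iff, ← ContMDiff.subtypeVal_comp_iff]
      rw [hφv]
      exact contMDiff_subtype_val
    have hφm : MDifferentiable 𝓘(ℂ) 𝓘(ℂ) φ := hφd.mdifferentiable (by simp)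
    have hinj : Function.Injective φ := by
      intro a b hab
      have h1 : (φ a).1.1 = (φ b).1.1 := by rw [hab]
      exact Subtype.ext h1
    set ψ : U' → U := fun z => ⟨z.1.1, z.2⟩ with hψ
    have hφc : Continuous φ := hφm.continuous
    have hψc : Continuous ψ :=
      (continuous_subtype_val.comp continuous_subtype_val).subtype_mk _
    have hprop : IsProperMap φ :=
      Homeomorph.isProperMap (⟨⟨φ, ψ, fun _ => rfl, fun _ => rfl⟩, hφc, hψc⟩ : U ≃ₜ U')
    have hvd : MDifferentiable 𝓘(ℂ) 𝓘(ℂ) (fun z : U' => z.1.1) := by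
      have h1 : MDifferentiable 𝓘(ℂ) 𝓘(ℂ) (Subtype.val : U' → Vp p) :=
        (contMDiff_subtype_val (n := 1)).mdifferentiable (by norm_num)
      have h2 : MDifferentiable 𝓘(ℂ) 𝓘(ℂ) (Subtype.val : Vp p → ℂ) :=
        (contMDiff_subtype_val (n := 1)).mdifferentiable (by norm_num)
      exact h2.comp h1
    refine transfer φ hφm hinj ?_ hprop (punct_disc p U' hdis)
    intro z
    have h1 := mfderiv_comp z (hvd (φ z)) (hφm z)
    have h2 : (fun z : U' => z.1.1) ∘ φ = fun z : U => z.1 := rfl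
    rw [h2] at h1
    have h3 := res_mfderiv U (fun z : ℂ => z) differentiable_id.mdifferentiable z
    have h4 : mfderiv 𝓘(ℂ) 𝓘(ℂ) (fun z : ℂ => z) z.1 = ContinuousLinearMap.id ℂ ℂ := mfderiv_id
    have h5 : Function.Injective (mfderiv 𝓘(ℂ) 𝓘(ℂ) (fun z : U => z.1) z) := by
      rw [h3.trans h4]
      exact Function.injective_id
    rw [h1] at h5
    exact Function.Injective.of_comp h5

end Pool.RSE
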