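import Pool.Agent.H88.RSE.Shell
import Pool.Agent.H88.RSE.Planar

/-! The pair `(f, g)`: properness and double points. -/

set_option autoImplicit false

namespace Pool.RSE

open Filter Topology Set Metric
open scoped Manifold

/-- the domain without the poles -/
def XX (Ω P P' : Set ℂ) : Set ℂ := {z | z ∈ Ω ∧ z ∉ P ∧ z ∉ P'}

theorem lf_closed (W : Set ℂ) (hW : ∀ R : ℝ, (W ∩ closedBall 0 R).Finite) : IsClosed W := by
  rw [← isOpen_compl_iff, isOpen_iff_mem_nhds]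
  intro z hz
  have h1 : (W ∩ closedBall 0 (‖z‖ + 1))ᶜ ∈ 𝓝 z :=
    (hW _).isClosed.isOpen_compl.mem_nhds (fun h => hz h.1)
  have h2 : closedBall (0 : ℂ) (‖z‖ + 1) ∈ 𝓝 z := by
    refine mem_of_superset (isOpen_ball.mem_nhds ?_) ball_subset_closedBall
    rw [mem_ball, dist_zero_right]
    linarith
  filter_upwards [h1, h2] with y h3 h4 h5
  exact h3 ⟨h5, h4⟩

section dat

variable {Ω : Set ℂ} {E O : ℕ → Set ℂ} {r s : ℕ → ℝ} {f g : ℂ → ℂ} {P P' : Set ℂ} {α β : ℕ → ℝ}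

theorem Dat.openX (h : Dat Ω E O r s f g P P' α β) : IsOpen (XX Ω P P') := by
  rw [isOpen_iff_mem_nhds]
  rintro z ⟨h1, h2, h3⟩
  filter_upwards [h.hf.nhdsX h.nf z h1 h2, h.hg.nhdsX h.ng z h1 h3] with y hy hy'
  exact ⟨hy.1, hy.2, hy'.2⟩

theorem Dat.isoA (h : Dat Ω E O r s f g P P' α β) (z : ℂ) (hz : z ∈ Ω) :
    ∀ᶠ y in 𝓝[≠] z, y ∈ XX Ω P P' := by
  filter_upwards [h.hf.iso h.nf z hz, h.hg.iso h.ng z hz,
    mem_nhdsWithin_of_mem_nhds (h.nf.isOpen.mem_nhds hz)] with y h1 h2 h3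
  exact ⟨h3, h1, h2⟩

theorem Dat.fdiff (h : Dat Ω E O r s f g P P' α β) (z : ℂ) (hz : z ∈ XX Ω P P') :
    DifferentiableAt ℂ f z := h.hf.diff z hz.1 hz.2.1

theorem Dat.gdiff (h : Dat Ω E O r s f g P P' α β) (z : ℂ) (hz : z ∈ XX Ω P P') :
    DifferentiableAt ℂ g z := h.hg.diff z hz.1 hz.2.2

theorem Dat.memX (h : Dat Ω E O r s f g P P' α β) (S : Set ℂ) (hS : S ⊆ XX Ω P P') (C : ℝ)
    (hb : ∀ y ∈ S, ‖f y‖ ≤ C ∧ ‖g y‖ ≤ C) (z : ℂ) (hz : z ∈ closure S) (hΩ : z ∈ Ω) :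
    z ∈ XX Ω P P' := by
  by_contra hcon
  have hzS : z ∉ S := fun hc => hcon (hS hc)
  have hfr : ∃ᶠ y in 𝓝[≠] z, y ∈ S := by
    rw [frequently_nhdsWithin_iff]
    refine (mem_closure_iff_frequently.1 hz).mono fun y hy => ⟨hy, ?_⟩
    rintro rfl
    exact hzS hy
  have h1 : z ∈ P ∨ z ∈ P' := by
    by_contra h2
    push Not at h2
    exact hcon ⟨hΩ, h2.1, h2.2⟩
  rcases h1 with h1 | h1
  · exact h.hf.contra z h1 C (hfr.mono fun y hy => (hb y hy).1)
  · exact h.hg.contra z h1 C (hfr.mono fun y hy => (hb y hy).2)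

theorem Dat.deriv_or (h : Dat Ω E O r s f g P P' α β) (z : ℂ) (hz : z ∈ Ω) :
    deriv f z ≠ 0 ∨ deriv g z ≠ 0 := by
  rcases h.nhds z hz with ⟨m, hm⟩ | ⟨m, hm⟩
  · exact Or.inl (h.hf.deriv_ne h.nf m z hm)
  · exact Or.inr (h.hg.deriv_ne h.ng m z hm)

theorem Dat.openLf (h : Dat Ω E O r s f g P P' α β) (m : ℕ) : IsOpen (Lf E O m) :=
  (h.opn _).sdiff (h.comp _).isClosed

theorem Dat.openLg (h : Dat Ω E O r s f g P P' α β) (m : ℕ) : IsOpen (Lg E O m) :=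
  (h.opn _).sdiff (h.comp _).isClosed

theorem Dat.LgS (h : Dat Ω E O r s f g P P' α β) (m : ℕ) (z : ℂ) (hz : z ∈ Lg E O m) :
    z ∈ Kf E (m + 1) ∧ z ∉ Vf O (m + 1) :=
  h.cLg m z (h.oe _ hz.1) (fun h5 => hz.2 (h.oe _ h5))

theorem Dat.LfS (h : Dat Ω E O r s f g P P' α β) (m : ℕ) (z : ℂ) (hz : z ∈ Lf E O m) :
    z ∈ Kg E m ∧ z ∉ Vg O m :=
  h.cLf m z (h.oe _ hz.1) (fun h5 => hz.2 (h.oe _ h5))

theorem Half.norm_le {K V : ℕ → Set ℂ} (hn : Nest Ω K V r) (h : Half Ω K V r f P α) (m : ℕ)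
    (z : ℂ) (hz : z ∈ K m) (hzV : z ∉ V m) : ‖f z‖ ≤ 1 / 4 + r m + |α m| := by
  have h1 := h.val m z hz hzV
  have h2 := hn.kr m z hz
  have e : f z = (f z - z - α m) + z + α m := by ring
  rw [e]
  refine (norm_add₃_le).trans ?_
  rw [Complex.norm_real, Real.norm_eq_abs]
  linarith

theorem Dat.compN (h : Dat Ω E O r s f g P P' α β) (i j : ℕ) :
    IsCompact (Dbl (Lg E O i) (Lf E O j) (XX Ω P P') f g) := by
  set N := Dbl (Lg E O i) (Lf E O j) (XX Ω P P') f g with hN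
  apply Metric.isCompact_of_isClosed_isBounded
  · apply isClosed_of_closure_subset
    rintro ⟨p, q⟩ hz
    have hp : p ∈ closure (Lg E O i) := map_mem_closure continuous_fst hz (fun z hz => hz.1)
    have hq : q ∈ closure (Lf E O j) := map_mem_closure continuous_snd hz (fun z hz => hz.2.2.1)
    obtain ⟨c1, c2⟩ := h.closLg i p hp
    obtain ⟨d1, d2⟩ := h.closLf j q hq
    obtain ⟨c3, c4⟩ := h.cLg i p c1 c2
    obtain ⟨d3, d4⟩ := h.cLf j q d1 d2
    set C : ℝ := max (1 / 4 + r (i + 1) + |α (i + 1)|) (1 / 4 + s j + |β j|) with hC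
    have hb : ∀ z ∈ N, ‖f z.1‖ ≤ C ∧ ‖g z.2‖ ≤ C := by
      intro z hz
      obtain ⟨a1, a2⟩ := h.LgS i z.1 hz.1
      obtain ⟨a3, a4⟩ := h.LfS j z.2 hz.2.2.1
      exact ⟨(h.hf.norm_le h.nf (i + 1) z.1 a1 a2).trans (le_max_left _ _),
        (h.hg.norm_le h.ng j z.2 a3 a4).trans (le_max_right _ _)⟩
    have hpX : p ∈ XX Ω P P' := by
      refine h.memX (Prod.fst '' N) ?_ C ?_ p ?_ ((h.un p).2 ⟨_, c1⟩)
      · rintro y ⟨z, hz, rfl⟩
        exact hz.2.1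
      · rintro y ⟨z, hz, rfl⟩
        refine ⟨(hb z hz).1, ?_⟩
        rw [hz.2.2.2.2.2]
        exact (hb z hz).2
      · exact map_mem_closure continuous_fst hz (fun z hz => ⟨z, hz, rfl⟩)
    have hqX : q ∈ XX Ω P P' := by
      refine h.memX (Prod.snd '' N) ?_ C ?_ q ?_ ((h.un q).2 ⟨_, d1⟩)
      · rintro y ⟨z, hz, rfl⟩
        exact hz.2.2.2.1
      · rintro y ⟨z, hz, rfl⟩
        refine ⟨?_, (hb z hz).2⟩
        rw [← hz.2.2.2.2.1]
        exact (hb z hz).1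
      · exact map_mem_closure continuous_snd hz (fun z hz => ⟨z, hz, rfl⟩)
    have cont : ∀ F : ℂ → ℂ, DifferentiableAt ℂ F p → DifferentiableAt ℂ F q →
        (∀ z ∈ N, F z.1 = F z.2) → F p = F q := by
      intro F h1 h2 h3
      have k1 : ContinuousAt (fun z : ℂ × ℂ => F z.1 - F z.2) (p, q) :=
        (ContinuousAt.comp (x := (p, q)) (g := F) h1.continuousAt continuousAt_fst).sub
          (ContinuousAt.comp (x := (p, q)) (g := F) h2.continuousAt continuousAt_snd)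
      have k2 := k1.continuousWithinAt.mem_closure (s := N) (t := {0}) hz (fun z hz => by
        rw [mem_singleton_iff]
        exact sub_eq_zero.2 (h3 z hz))
      rw [closure_singleton, mem_singleton_iff] at k2
      exact sub_eq_zero.1 k2
    have e1 : f p = f q := cont f (h.fdiff p hpX) (h.fdiff q hqX) (fun z hz => hz.2.2.2.2.1)
    have e2 : g p = g q := cont g (h.gdiff p hpX) (h.gdiff q hqX) (fun z hz => hz.2.2.2.2.2)
    have hne : p ≠ q := by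
      rintro rfl
      exact h.disj i j p c1 c2 d1 d2
    refine ⟨?_, hpX, ?_, hqX, e1, e2⟩
    · by_contra hcon
      obtain ⟨k, k1, k2⟩ := h.bLg i p c1 c2 hcon
      exact hne (h.hg.inj h.ng k j p q k1 k2 d3 d4 e2)
    · by_contra hcon
      obtain ⟨k, k1, k2⟩ := h.bLf j q d1 d2 hcon
      exact hne (h.hf.inj h.nf (i + 1) k p q c3 c4 k1 k2 e1)
  · refine ((h.comp (4 * i + 3)).isBounded.prod (h.comp (4 * j + 1)).isBounded).subset ?_
    rintro ⟨p, q⟩ hz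
    exact ⟨h.oe _ hz.1.1, h.oe _ hz.2.2.1.1⟩

theorem Dat.finN (h : Dat Ω E O r s f g P P' α β) (i j : ℕ) :
    (Prod.snd '' Dbl (Lg E O i) (Lf E O j) (XX Ω P P') f g).Finite := by
  refine dbl_finite (XX Ω P P') (Lg E O i) (Lf E O j) h.openX (h.openLg i) (h.openLf j) f g
    (fun z hz => (h.fdiff z hz).differentiableWithinAt)
    (fun z hz => (h.gdiff z hz).differentiableWithinAt) ?_ (h.compN i j)
  intro p hp _
  apply h.hf.deriv_ne h.nf (i + 1)
  filter_upwards [(h.openLg i).mem_nhds hp] with y hy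
  exact h.LgS i y hy

/-- the values of `f + g` at the double points -/
def WW (Ω : Set ℂ) (E O : ℕ → Set ℂ) (f g : ℂ → ℂ) (P P' : Set ℂ) : Set ℂ :=
  {w | ∃ i j, ∃ z ∈ Dbl (Lg E O i) (Lf E O j) (XX Ω P P') f g, w = f z.2 + g z.2}

theorem Dat.lfW (h : Dat Ω E O r s f g P P' α β) (R : ℝ) :
    (WW Ω E O f g P P' ∩ closedBall 0 R).Finite := by
  classical
  obtain ⟨M, hM⟩ := exists_nat_gt (R + r 0 + s 0 + 1 / 2)
  have hfin : (⋃ ij ∈ ((Finset.range M) ×ˢ (Finset.range M) : Finset (ℕ × ℕ)),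
      (fun q => f q + g q) '' (Prod.snd '' Dbl (Lg E O ij.1) (Lf E O ij.2) (XX Ω P P') f g)).Finite :=
    Set.Finite.biUnion (Finset.finite_toSet _) (fun ij _ => (h.finN ij.1 ij.2).image _)
  refine hfin.subset ?_
  rintro w ⟨⟨i, j, z, hz, rfl⟩, hw⟩
  have h1 := h.big i j z.1 z.2 hz.1 hz.2.2.1 hz.2.2.2.2.2
  rw [hz.2.2.2.2.1, hz.2.2.2.2.2] at h1
  rw [mem_closedBall, dist_zero_right] at hw
  have h2 := (Complex.re_le_norm (f z.2 + g z.2)).trans hw
  have h3 : (i : ℝ) + j < M := by linarith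
  have h4 : i + j < M := by exact_mod_cast h3
  refine mem_iUnion₂.2 ⟨(i, j), ?_, ⟨z.2, ⟨z, hz, rfl⟩, rfl⟩⟩
  rw [Finset.mem_product, Finset.mem_range, Finset.mem_range]
  exact ⟨by simp only; omega, by simp only; omega⟩

theorem Dat.dblW (h : Dat Ω E O r s f g P P' α β) (p q : ℂ) (hp : p ∈ XX Ω P P')
    (hq : q ∈ XX Ω P P') (hne : p ≠ q) (e1 : f p = f q) (e2 : g p = g q) :
    f q + g q ∈ WW Ω E O f g P P' := by
  rcases h.dbl p q hp.1 hq.1 hne e1 e2 with ⟨i, j, h1, h2⟩ | ⟨i, j, h1, h2⟩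
  · exact ⟨i, j, (p, q), ⟨h1, hp, h2, hq, e1, e2⟩, rfl⟩
  · exact ⟨i, j, (q, p), ⟨h1, hq, h2, hp, e1.symm, e2.symm⟩, by simp only; rw [e1, e2]⟩

theorem Dat.shell (h : Dat Ω E O r s f g P P' α β) (z : ℂ) (hz : z ∈ Ω) :
    (∃ m, z ∈ Kf E m ∧ z ∉ Vf O m) ∨ ∃ m, z ∈ Kg E m ∧ z ∉ Vg O m := by
  rcases h.nhds z hz with ⟨m, hm⟩ | ⟨m, hm⟩
  · have h1 := mem_of_mem_nhds hm
    exact Or.inl ⟨m, h1.1, h1.2⟩
  · have h1 := mem_of_mem_nhds hm
    exact Or.inr ⟨m, h1.1, h1.2⟩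

theorem Dat.proper (h : Dat Ω E O r s f g P P' α β) (K : Set (ℂ × ℂ)) (hK : IsCompact K) :
    IsCompact {z | z ∈ XX Ω P P' ∧ (f z + g z, g z) ∈ K} := by
  set S : Set ℂ := {z | z ∈ XX Ω P P' ∧ (f z + g z, g z) ∈ K} with hS
  obtain ⟨R, hR⟩ := hK.isBounded.subset_closedBall 0
  have hb : ∀ z ∈ S, ‖f z‖ ≤ 2 * |R| ∧ ‖g z‖ ≤ 2 * |R| := by
    intro z hz
    have h1 := hR hz.2
    rw [mem_closedBall, dist_zero_right, Prod.norm_def, max_le_iff] at h1
    simp only at h1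
    have h2 := le_abs_self R
    have h3 : ‖f z‖ ≤ ‖f z + g z‖ + ‖g z‖ := by
      have := norm_sub_le (f z + g z) (g z)
      rwa [add_sub_cancel_right] at this
    have h4 := abs_nonneg R
    exact ⟨by linarith [h1.1, h1.2], by linarith [h1.2]⟩
  obtain ⟨M, hM⟩ := exists_nat_gt (2 * |R| + r 0 + s 0 + 1)
  have r00 := h.nf.r0 0
  have s00 := h.ng.r0 0
  have hsub : S ⊆ E (4 * M + 2) := by
    intro z hz
    obtain ⟨b1, b2⟩ := hb z hz
    rcases h.shell z hz.1.1 with ⟨m, m1, m2⟩ | ⟨m, m1, m2⟩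
    · have h1 := h.hf.re_ge h.nf m z m1 m2
      have h2 := h.hf.low h.nf m
      have h3 := Complex.re_le_norm (f z)
      have h4 : (m : ℝ) < M := by linarith
      have h5 : m < M := by exact_mod_cast h4
      exact h.Emono (by omega) m1
    · have h1 := h.hg.re_ge h.ng m z m1 m2
      have h2 := h.hg.low h.ng m
      have h3 := Complex.re_le_norm (g z)
      have h4 : (m : ℝ) < M := by linarith
      have h5 : m < M := by exact_mod_cast h4
      exact h.Emono (by omega) m1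
  refine (h.comp (4 * M + 2)).of_isClosed_subset ?_ hsub
  apply isClosed_of_closure_subset
  intro z hz
  have hzE : z ∈ E (4 * M + 2) := (h.comp _).isClosed.closure_subset_iff.2 hsub hz
  have hzX : z ∈ XX Ω P P' := h.memX S (fun y hy => hy.1) (2 * |R|) hb z hz
    ((h.un z).2 ⟨_, hzE⟩)
  refine ⟨hzX, ?_⟩
  have hcf := (h.fdiff z hzX).continuousAt
  have hcg := (h.gdiff z hzX).continuousAt
  have hc : ContinuousAt (fun z => (f z + g z, g z)) z := (hcf.add hcg).prodMk hcg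
  have := hc.continuousWithinAt.mem_closure (s := S) (t := K) hz (fun y hy => hy.2)
  rwa [hK.isClosed.closure_eq] at this

/-- `(w, iτ)` is not a value of `(f + g, g)` for large `τ` -/
theorem Dat.miss (h : Dat Ω E O r s f g P P' α β) (w : ℂ) : ∃ t : ℂ, ∀ x ∈ Ω,
    f x + g x = w → g x ≠ t := by
  obtain ⟨M, hM⟩ := exists_nat_gt (|w.re| + r 0 + s 0 + 1)
  set B : ℝ := ∑ m ∈ Finset.range M, (r m + s m) with hB
  have hrm : ∀ m < M, r m ≤ B ∧ s m ≤ B := by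
    intro m hm
    have h1 : r m + s m ≤ B := Finset.single_le_sum (f := fun m => r m + s m)
      (fun i _ => add_nonneg (h.nf.r0 i) (h.ng.r0 i)) (Finset.mem_range.2 hm)
    exact ⟨by linarith [h.ng.r0 m], by linarith [h.nf.r0 m]⟩
  have hr00 := h.nf.r0 0
  have hs00 := h.ng.r0 0
  refine ⟨((|w.im| + |B| + 1 : ℝ) : ℂ) * Complex.I, ?_⟩
  intro x hx hw hg
  set τ : ℝ := |w.im| + |B| + 1 with hτ
  have hB1 := le_abs_self B
  have hgre : (g x).re = 0 := by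
    rw [hg]
    simp
  have hgim : (g x).im = τ := by
    rw [hg]
    simp
  rcases h.shell x hx with ⟨m, m1, m2⟩ | ⟨m, m1, m2⟩
  · have h1 := h.hf.re_ge h.nf m x m1 m2
    have h2 := h.hf.low h.nf m
    have h3 : (f x).re = w.re := by
      rw [← hw, Complex.add_re, hgre, add_zero]
    have h4 : (m : ℝ) < M := by linarith [le_abs_self w.re]
    have h5 : m < M := by exact_mod_cast h4
    have h6 := h.hf.im_le h.nf m x m1 m2
    have h7 : (f x).im = w.im - τ := by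
      rw [← hw, Complex.add_im, hgim]
      ring
    rw [h7] at h6
    have h8 := (abs_le.1 h6).1
    have h9 := (hrm m h5).1
    have h10 := le_abs_self w.im
    linarith
  · have h1 := h.hg.re_ge h.ng m x m1 m2
    have h2 := h.hg.low h.ng m
    rw [hgre] at h1
    have h4 : (m : ℝ) < M := by linarith [abs_nonneg w.re]
    have h5 : m < M := by exact_mod_cast h4
    have h6 := h.hg.im_le h.ng m x m1 m2
    rw [hgim] at h6
    have h8 := (abs_le.1 h6).2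
    have h9 := (hrm m h5).2
    have h10 := abs_nonneg w.im
    linarith

end dat

end Pool.RSE
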