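import Pool.Agent.H88.RSE.RLem

/-! A holomorphic function with poles which is close to translations on shells. -/

set_option autoImplicit false

namespace Pool.RSE

open Filter Topology Set Metric

/-- nested compact sets `K m` and open sets `V m` with `V 0 = ∅`, `V m ⊆ K m ⊆ V (m + 1)` -/
structure Nest (Ω : Set ℂ) (K V : ℕ → Set ℂ) (r : ℕ → ℝ) : Prop where
  comp : ∀ m, IsCompact (K m)
  opn : ∀ m, IsOpen (V m)
  zero : V 0 = ∅
  vk : ∀ m, V m ⊆ K m
  kv : ∀ m, K m ⊆ V (m + 1)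
  un : ∀ z, z ∈ Ω ↔ ∃ m, z ∈ K m
  r0 : ∀ m, 0 ≤ r m
  kr : ∀ m, ∀ z ∈ K m, ‖z‖ ≤ r m

/-- the function `f` is close to `z + α m` on the shell `K m \ V m`; its poles `P` lie in the layers
`V (m + 1) \ K m` -/
structure Half (Ω : Set ℂ) (K V : ℕ → Set ℂ) (r : ℕ → ℝ) (f : ℂ → ℂ) (P : Set ℂ)
    (α : ℕ → ℝ) : Prop where
  diff : ∀ z ∈ Ω, z ∉ P → DifferentiableAt ℂ f z
  pole : ∀ p ∈ P, Tendsto (fun z => ‖f z‖) (𝓝[≠] p) atTop
  lay : ∀ p ∈ P, ∃ m, p ∈ V (m + 1) ∧ p ∉ K m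
  fin : ∀ m, (P ∩ K m).Finite
  val : ∀ m, ∀ z ∈ K m, z ∉ V m → ‖f z - z - α m‖ ≤ 1 / 4
  lip : ∀ m, ∀ z ∈ K m, z ∉ V m → ∀ w ∈ K m, w ∉ V m →
    ‖(f z - z) - (f w - w)‖ ≤ 1 / 4 * ‖z - w‖
  sep : ∀ m, α m + r m + r (m + 1) + 1 ≤ α (m + 1)
  a0 : α 0 = 0

theorem Rf_diff (Z : Finset ℂ) (c : ℂ → ℂ) (z : ℂ) (hz : z ∉ Z) :
    DifferentiableAt ℂ (Rf Z c) z := by
  unfold Rf
  refine DifferentiableAt.fun_sum fun ζ hζ => ?_
  have : ζ - z ≠ 0 := sub_ne_zero.2 (by rintro rfl; exact hz hζ)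
  exact (differentiableAt_const _).div (by fun_prop) this

theorem pole_tendsto (a p : ℂ) (ha : a ≠ 0) (G : ℂ → ℂ) (hG : ContinuousAt G p) (f : ℂ → ℂ)
    (hf : ∀ᶠ z in 𝓝[≠] p, f z = G z - a / (p - z)) :
    Tendsto (fun z => ‖f z‖) (𝓝[≠] p) atTop := by
  have h1 : Tendsto (fun z => ‖(p - z)⁻¹‖) (𝓝[≠] p) atTop := by
    have h2 : Tendsto (fun z => p - z) (𝓝[≠] p) (𝓝[≠] 0) := by
      rw [tendsto_nhdsWithin_iff]
      constructor
      · have : Tendsto (fun z => p - z) (𝓝 p) (𝓝 (p - p)) := by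
          apply Continuous.tendsto
          fun_prop
        rw [sub_self] at this
        exact this.mono_left nhdsWithin_le_nhds
      · filter_upwards [self_mem_nhdsWithin] with z hz
        exact sub_ne_zero.2 (Ne.symm hz)
    exact (tendsto_norm_inv_nhdsNE_zero_atTop (α := ℂ)).comp h2
  have h3 : Tendsto (fun z => ‖a‖ * ‖(p - z)⁻¹‖ - (‖G p‖ + 1)) (𝓝[≠] p) atTop := by
    apply tendsto_atTop_add_const_right
    exact h1.const_mul_atTop (norm_pos_iff.2 ha)
  refine tendsto_atTop_mono' _ ?_ h3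
  have h4 : ∀ᶠ z in 𝓝[≠] p, ‖G z‖ < ‖G p‖ + 1 := by
    have : ∀ᶠ z in 𝓝 p, ‖G z‖ < ‖G p‖ + 1 :=
      hG.norm.eventually (gt_mem_nhds (by linarith))
    exact this.filter_mono nhdsWithin_le_nhds
  filter_upwards [hf, h4] with z h5 h6
  rw [h5, ← norm_mul, ← div_eq_mul_inv, norm_sub_rev]
  have := norm_sub_norm_le (a / (p - z)) (G z)
  linarith

theorem half_exists {Ω : Set ℂ} {K V : ℕ → Set ℂ} {r : ℕ → ℝ} (h : Nest Ω K V r) (C : ℝ)
    (hC : 0 ≤ C) :
    ∃ (f : ℂ → ℂ) (P : Set ℂ) (α : ℕ → ℝ), Half Ω K V r f P α ∧ C ≤ α 1 - r 1 := by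
  classical
  set A : ℕ → ℝ := fun j => r j + r (j + 1) + 1 + C with hA
  have hA1 : ∀ j, 0 < A j := fun j => by
    have := h.r0 j
    have := h.r0 (j + 1)
    simp only [hA]
    linarith
  set e : ℕ → ℝ := fun j => (1 / 2) ^ (j + 3) with he
  have he0 : ∀ j, 0 < e j := fun j => by positivity
  have hes : HasSum e (1 / 4) := by
    have e1 : e = fun i => 1 / 8 * (1 / 2) ^ i := by
      funext j
      simp only [he]
      rw [pow_add]
      ring
    rw [e1, show (1 / 4 : ℝ) = 1 / 8 * 2 by norm_num]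
    exact hasSum_geometric_two.mul_left _
  have hR : ∀ j, ∃ (Z : Finset ℂ) (c : ℂ → ℂ), (∀ ζ ∈ Z, ζ ∈ V (j + 1) ∧ ζ ∉ K j ∧ c ζ ≠ 0) ∧
      (∀ z ∈ K j, ‖Rf Z c z - 1‖ ≤ e j / A j) ∧
      (∀ z, z ∉ V (j + 1) → ‖Rf Z c z‖ ≤ e j / A j) ∧
      (∀ z ∈ K j, ∀ w ∈ K j, ‖Rf Z c z - Rf Z c w‖ ≤ e j / A j * ‖z - w‖) ∧
      (∀ z, z ∉ V (j + 1) → ∀ w, w ∉ V (j + 1) →
        ‖Rf Z c z - Rf Z c w‖ ≤ e j / A j * ‖z - w‖) := fun j =>
    rlem (K j) (V (j + 1)) (h.comp j) (h.opn (j + 1)) (h.kv j)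
      ((h.comp (j + 1)).isBounded.subset (h.vk (j + 1))) (e j / A j) (div_pos (he0 j) (hA1 j))
  choose Z c hZ h1 h2 h3 h4 using hR
  set u : ℕ → ℂ → ℂ := fun j z => (A j : ℂ) * (1 - Rf (Z j) (c j) z) with hu
  have hKm : Monotone K := monotone_nat_of_le_succ (fun m => (h.kv m).trans (h.vk (m + 1)))
  have hVm : Monotone V := monotone_nat_of_le_succ (fun m => (h.vk m).trans (h.kv m))
  have hAe : ∀ j, A j * (e j / A j) = e j := fun j => mul_div_cancel₀ _ (hA1 j).ne'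
  have nA : ∀ j, ‖(A j : ℂ)‖ = A j := fun j => by
    rw [Complex.norm_real, Real.norm_of_nonneg (hA1 j).le]
  have b1 : ∀ j, ∀ z ∈ K j, ‖u j z‖ ≤ e j := by
    intro j z hz
    simp only [hu]
    rw [norm_mul, nA, norm_sub_rev, ← hAe j]
    exact mul_le_mul_of_nonneg_left (by simpa [hAe] using h1 j z hz) (hA1 j).le
  have b2 : ∀ j, ∀ z, z ∉ V (j + 1) → ‖u j z - A j‖ ≤ e j := by
    intro j z hz
    have : u j z - A j = -((A j : ℂ) * Rf (Z j) (c j) z) := by
      simp only [hu]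
      ring
    rw [this, norm_neg, norm_mul, nA, ← hAe j]
    exact mul_le_mul_of_nonneg_left (by simpa [hAe] using h2 j z hz) (hA1 j).le
  have b34 : ∀ j z w, ‖Rf (Z j) (c j) z - Rf (Z j) (c j) w‖ ≤ e j / A j * ‖z - w‖ →
      ‖u j z - u j w‖ ≤ e j * ‖z - w‖ := by
    intro j z w hzw
    have : u j z - u j w = -((A j : ℂ) * (Rf (Z j) (c j) z - Rf (Z j) (c j) w)) := by
      simp only [hu]
      ring
    rw [this, norm_neg, norm_mul, nA]
    calc A j * ‖Rf (Z j) (c j) z - Rf (Z j) (c j) w‖ ≤ A j * (e j / A j * ‖z - w‖) :=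
          mul_le_mul_of_nonneg_left hzw (hA1 j).le
      _ = e j * ‖z - w‖ := by rw [← mul_assoc, hAe]
  have hsn : ∀ n, ∀ z ∈ K n, Summable (fun j => u (j + n) z) := by
    intro n z hz
    refine Summable.of_norm_bounded ((summable_nat_add_iff n).2 hes.summable) ?_
    intro j
    exact b1 _ z (hKm (Nat.le_add_left n j) hz)
  have hs : ∀ n, ∀ z ∈ K n, Summable (fun j => u j z) := fun n z hz =>
    (summable_nat_add_iff n).1 (hsn n z hz)
  set f : ℂ → ℂ := fun z => z + ∑' j, u j z with hf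
  have hsplit : ∀ n, ∀ z ∈ K n, f z = z + ∑ j ∈ Finset.range n, u j z + ∑' j, u (j + n) z := by
    intro n z hz
    simp only [hf]
    rw [← (hs n z hz).sum_add_tsum_nat_add n, add_assoc]
  have hud : ∀ j z, z ∉ Z j → DifferentiableAt ℂ (u j) z := by
    intro j z hz
    simp only [hu]
    exact ((differentiableAt_const _).sub (Rf_diff _ _ z hz)).const_mul _
  have htail : ∀ n, DifferentiableOn ℂ (fun z => ∑' j, u (j + n) z) (V n) := by
    intro n
    refine Complex.differentiableOn_tsum_of_summable_norm (u := fun j => e (j + n))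
      ((summable_nat_add_iff n).2 hes.summable) ?_ (h.opn n) ?_
    · intro j z hz
      apply (hud _ _ _).differentiableWithinAt
      intro hc
      exact (hZ _ _ hc).2.1 (hKm (Nat.le_add_left n j) (h.vk n hz))
    · intro j z hz
      exact b1 _ z (hKm (Nat.le_add_left n j) (h.vk n hz))
  set P : Set ℂ := ⋃ j, (Z j : Set ℂ) with hP
  set α : ℕ → ℝ := fun m => ∑ j ∈ Finset.range m, A j with hα
  have hαs : ∀ m, HasSum (fun j => if j < m then A j else 0) (α m) := by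
    intro m
    have e1 : α m = ∑ j ∈ Finset.range m, (if j < m then A j else 0) := by
      simp only [hα]
      refine Finset.sum_congr rfl fun j hj => ?_
      rw [if_pos (Finset.mem_range.1 hj)]
    rw [e1]
    apply hasSum_sum_of_ne_finset_zero
    intro j hj
    rw [if_neg]
    simpa using hj
  have hlt : ∀ m j z, j < m → z ∉ V m → z ∉ V (j + 1) := by
    intro m j z hj hz hc
    exact hz (hVm (Nat.succ_le_of_lt hj) hc)
  refine ⟨f, P, α, ⟨?_, ?_, ?_, ?_, ?_, ?_, ?_, ?_⟩, ?_⟩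
  · intro z hz hzP
    obtain ⟨m, hm⟩ := (h.un z).1 hz
    have hv := h.kv m hm
    have ev : f =ᶠ[𝓝 z] fun z => z + ∑ j ∈ Finset.range (m + 1), u j z +
        ∑' j, u (j + (m + 1)) z := by
      filter_upwards [(h.opn (m + 1)).mem_nhds hv] with w hw
      exact hsplit (m + 1) w (h.vk _ hw)
    refine DifferentiableAt.congr_of_eventuallyEq ?_ ev
    refine (differentiableAt_id.add ?_).add ?_
    · refine DifferentiableAt.fun_sum fun j _ => hud j z ?_
      intro hc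
      exact hzP (mem_iUnion.2 ⟨j, hc⟩)
    · exact (htail (m + 1)).differentiableAt ((h.opn (m + 1)).mem_nhds hv)
  · intro p hp
    obtain ⟨j0, hj0⟩ := mem_iUnion.1 hp
    have hj0' : p ∈ Z j0 := hj0
    obtain ⟨q1, q2, q3⟩ := hZ j0 p hj0'
    set G : ℂ → ℂ := fun z => z + ∑ j ∈ Finset.range j0, u j z +
      (A j0 : ℂ) * (1 - Rf ((Z j0).erase p) (c j0) z) + ∑' j, u (j + (j0 + 1)) z with hG
    refine pole_tendsto (A j0 * c j0 p) p
      (mul_ne_zero (Complex.ofReal_ne_zero.2 (hA1 j0).ne') q3) G ?_ f ?_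
    · have d : DifferentiableAt ℂ G p := by
        simp only [hG]
        refine ((differentiableAt_id.add ?_).add ?_).add ?_
        · refine DifferentiableAt.fun_sum fun j hj => hud j p ?_
          intro hc
          have hj' : j < j0 := Finset.mem_range.1 hj
          have h5 := (hZ j p hc).1
          exact q2 (hKm (Nat.succ_le_of_lt hj') (h.vk _ h5))
        · exact ((differentiableAt_const _).sub (Rf_diff _ _ p (by simp))).const_mul _
        · exact (htail (j0 + 1)).differentiableAt ((h.opn (j0 + 1)).mem_nhds q1)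
      exact d.continuousAt
    · filter_upwards [mem_nhdsWithin_of_mem_nhds ((h.opn (j0 + 1)).mem_nhds q1)] with w hw
      rw [hsplit (j0 + 1) w (h.vk _ hw), Finset.sum_range_succ]
      have h6 : Rf (Z j0) (c j0) w = c j0 p / (p - w) + Rf ((Z j0).erase p) (c j0) w := by
        unfold Rf
        rw [Finset.add_sum_erase _ (fun ζ => c j0 ζ / (ζ - w)) hj0']
      have h7 : u j0 w = (A j0 : ℂ) * (1 - Rf ((Z j0).erase p) (c j0) w) -
          A j0 * c j0 p / (p - w) := by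
        simp only [hu]
        rw [h6]
        ring
      rw [h7]
      simp only [hG]
      ring
  · intro p hp
    obtain ⟨j0, hj0⟩ := mem_iUnion.1 hp
    exact ⟨j0, (hZ j0 p hj0).1, (hZ j0 p hj0).2.1⟩
  · intro m
    refine Set.Finite.subset (Set.finite_iUnion (fun j : Fin m => (Z j).finite_toSet)) ?_
    rintro z ⟨hz, hzK⟩
    obtain ⟨j0, hj0⟩ := mem_iUnion.1 hz
    have hj : j0 < m := by
      by_contra hcon
      push Not at hcon
      exact (hZ j0 z hj0).2.1 (hKm hcon hzK)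
    exact mem_iUnion.2 ⟨⟨j0, hj⟩, hj0⟩
  · intro m z hz hzV
    have h5 : f z - z - α m = ∑' j, (u j z - ((if j < m then A j else 0 : ℝ) : ℂ)) := by
      have h8 : HasSum (fun j => ((if j < m then A j else 0 : ℝ) : ℂ)) ((α m : ℝ) : ℂ) :=
        Complex.hasSum_ofReal.2 (hαs m)
      rw [((hs m z hz).hasSum.sub h8).tsum_eq]
      simp only [hf]
      ring
    rw [h5]
    refine tsum_of_norm_bounded hes fun j => ?_
    by_cases hj : j < m
    · rw [if_pos hj]
      exact b2 j z (hlt m j z hj hzV)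
    · rw [if_neg hj, Complex.ofReal_zero, sub_zero]
      exact b1 j z (hKm (not_lt.1 hj) hz)
  · intro m z hz hzV w hw hwV
    have h5 : (f z - z) - (f w - w) = ∑' j, (u j z - u j w) := by
      rw [(hs m z hz).tsum_sub (hs m w hw)]
      simp only [hf]
      ring
    rw [h5]
    refine tsum_of_norm_bounded (hes.mul_right ‖z - w‖) fun j => ?_
    by_cases hj : j < m
    · exact b34 j z w (h4 j z (hlt m j z hj hzV) w (hlt m j w hj hwV))
    · exact b34 j z w (h3 j z (hKm (not_lt.1 hj) hz) w (hKm (not_lt.1 hj) hw))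
  · intro m
    simp only [hα]
    rw [Finset.sum_range_succ]
    simp only [hA]
    linarith
  · simp [hα]
  · have h5 := h.r0 0
    simp only [hα, Finset.sum_range_one, hA]
    linarith

end Pool.RSE
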