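import Pool.Agent.H88.RSE.Half

/-! Consequences of the structure `Half`. -/

set_option autoImplicit false

namespace Pool.RSE

open Filter Topology Set Metric

section nest

variable {Ω : Set ℂ} {K V : ℕ → Set ℂ} {r : ℕ → ℝ}

theorem Nest.Kmono (h : Nest Ω K V r) : Monotone K :=
  monotone_nat_of_le_succ (fun m => (h.kv m).trans (h.vk (m + 1)))

theorem Nest.Vmono (h : Nest Ω K V r) : Monotone V :=
  monotone_nat_of_le_succ (fun m => (h.vk m).trans (h.kv m))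

theorem Nest.cases (h : Nest Ω K V r) (z : ℂ) (hz : z ∈ Ω) :
    (∃ m, z ∈ K m ∧ z ∉ V m) ∨ ∃ m, z ∈ V (m + 1) ∧ z ∉ K m := by
  classical
  have hex := (h.un z).1 hz
  set m := Nat.find hex with hm
  have h1 : z ∈ K m := Nat.find_spec hex
  by_cases h2 : z ∈ V m
  · right
    have h0 : m ≠ 0 := by
      intro h0
      rw [h0, h.zero] at h2
      exact h2
    obtain ⟨n, hn⟩ := Nat.exists_eq_succ_of_ne_zero h0
    refine ⟨n, ?_, ?_⟩
    · rw [hn] at h2
      exact h2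
    · exact Nat.find_min hex (by omega)
  · exact Or.inl ⟨m, h1, h2⟩

theorem Nest.nhds (h : Nest Ω K V r) (z : ℂ) (hz : z ∈ Ω) : ∃ m, K m ∈ 𝓝 z := by
  obtain ⟨m, hm⟩ := (h.un z).1 hz
  exact ⟨m + 1, mem_of_superset ((h.opn (m + 1)).mem_nhds (h.kv m hm)) (h.vk (m + 1))⟩

theorem Nest.isOpen (h : Nest Ω K V r) : IsOpen Ω := by
  rw [isOpen_iff_mem_nhds]
  intro z hz
  obtain ⟨m, hm⟩ := h.nhds z hz
  exact mem_of_superset hm (fun w hw => (h.un w).2 ⟨m, hw⟩)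

end nest

section half

variable {Ω : Set ℂ} {K V : ℕ → Set ℂ} {r : ℕ → ℝ} {f : ℂ → ℂ} {P : Set ℂ} {α : ℕ → ℝ}

theorem Half.low (hn : Nest Ω K V r) (h : Half Ω K V r f P α) (m : ℕ) :
    (m : ℝ) - r 0 ≤ α m - r m := by
  induction m with
  | zero => simp [h.a0]
  | succ m ih =>
    have h1 := h.sep m
    have h2 := hn.r0 m
    push_cast
    linarith

theorem Half.sepk (hn : Nest Ω K V r) (h : Half Ω K V r f P α) (m n : ℕ) :
    α m + r m + 1 ≤ α (m + n + 1) - r (m + n + 1) := by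
  induction n with
  | zero =>
    have h1 := h.sep m
    rw [add_zero]
    linarith
  | succ n ih =>
    have h1 := h.sep (m + n + 1)
    have h2 := hn.r0 (m + n + 1)
    have e : m + (n + 1) + 1 = m + n + 1 + 1 := by ring
    rw [e]
    linarith

theorem Half.re_ge (hn : Nest Ω K V r) (h : Half Ω K V r f P α) (m : ℕ) (z : ℂ) (hz : z ∈ K m)
    (hzV : z ∉ V m) : α m - r m - 1 / 4 ≤ (f z).re := by
  have h1 := h.val m z hz hzV
  have h2 := (abs_le.1 ((Complex.abs_re_le_norm _).trans h1)).1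
  have h3 := (abs_le.1 ((Complex.abs_re_le_norm _).trans (hn.kr m z hz))).1
  simp only [Complex.sub_re, Complex.ofReal_re] at h2
  linarith

theorem Half.re_le (hn : Nest Ω K V r) (h : Half Ω K V r f P α) (m : ℕ) (z : ℂ) (hz : z ∈ K m)
    (hzV : z ∉ V m) : (f z).re ≤ α m + r m + 1 / 4 := by
  have h1 := h.val m z hz hzV
  have h2 := (abs_le.1 ((Complex.abs_re_le_norm _).trans h1)).2
  have h3 := (abs_le.1 ((Complex.abs_re_le_norm _).trans (hn.kr m z hz))).2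
  simp only [Complex.sub_re, Complex.ofReal_re] at h2
  linarith

theorem Half.im_le (hn : Nest Ω K V r) (h : Half Ω K V r f P α) (m : ℕ) (z : ℂ) (hz : z ∈ K m)
    (hzV : z ∉ V m) : |(f z).im| ≤ r m + 1 / 4 := by
  have h1 := h.val m z hz hzV
  have h2 := abs_le.1 ((Complex.abs_im_le_norm _).trans h1)
  have h3 := abs_le.1 ((Complex.abs_im_le_norm _).trans (hn.kr m z hz))
  simp only [Complex.sub_im, Complex.ofReal_im, sub_zero] at h2
  rw [abs_le]
  constructor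
  · linarith [h2.1, h3.1]
  · linarith [h2.2, h3.2]

theorem Half.inj (hn : Nest Ω K V r) (h : Half Ω K V r f P α) (m k : ℕ) (z w : ℂ) (hz : z ∈ K m)
    (hzV : z ∉ V m) (hw : w ∈ K k) (hwV : w ∉ V k) (hfe : f z = f w) : z = w := by
  have key : ∀ m n z w, z ∈ K m → z ∉ V m → w ∈ K (m + n + 1) → w ∉ V (m + n + 1) → f z ≠ f w := by
    intro m n z w h1 h2 h3 h4 h5
    have a1 := h.re_le hn m z h1 h2
    have a2 := h.re_ge hn (m + n + 1) w h3 h4
    have a3 := h.sepk hn m n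
    rw [h5] at a1
    linarith
  rcases lt_trichotomy m k with hmk | hmk | hmk
  · obtain ⟨n, rfl⟩ := Nat.exists_eq_add_of_lt hmk
    exact absurd hfe (key m n z w hz hzV hw hwV)
  · subst hmk
    have h1 := h.lip m z hz hzV w hw hwV
    rw [hfe] at h1
    have e : f w - z - (f w - w) = -(z - w) := by ring
    rw [e, norm_neg] at h1
    have h2 : ‖z - w‖ = 0 := le_antisymm (by linarith [norm_nonneg (z - w)]) (norm_nonneg _)
    exact sub_eq_zero.1 (norm_eq_zero.1 h2)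
  · obtain ⟨n, rfl⟩ := Nat.exists_eq_add_of_lt hmk
    exact absurd hfe.symm (key k n w z hw hwV hz hzV)

theorem Half.notP (hn : Nest Ω K V r) (h : Half Ω K V r f P α) (m : ℕ) (z : ℂ) (hz : z ∈ K m)
    (hzV : z ∉ V m) : z ∉ P := by
  intro hP
  obtain ⟨j, h1, h2⟩ := h.lay z hP
  have hj : j < m := by
    by_contra hc
    exact h2 (hn.Kmono (not_lt.1 hc) hz)
  exact hzV (hn.Vmono (Nat.succ_le_of_lt hj) h1)

theorem Half.sub (hn : Nest Ω K V r) (h : Half Ω K V r f P α) (z : ℂ) (hz : z ∈ P) : z ∈ Ω := by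
  obtain ⟨j, h1, -⟩ := h.lay z hz
  exact (hn.un z).2 ⟨j + 1, hn.vk _ h1⟩

theorem Half.iso (hn : Nest Ω K V r) (h : Half Ω K V r f P α) (z : ℂ) (hz : z ∈ Ω) :
    ∀ᶠ y in 𝓝[≠] z, y ∉ P := by
  obtain ⟨m, hm⟩ := hn.nhds z hz
  have h1 : ((P ∩ K m) \ {z})ᶜ ∈ 𝓝 z := by
    apply IsOpen.mem_nhds
    · exact ((h.fin m).subset Set.diff_subset).isClosed.isOpen_compl
    · simp
  filter_upwards [mem_nhdsWithin_of_mem_nhds hm, mem_nhdsWithin_of_mem_nhds h1,
    self_mem_nhdsWithin] with y h2 h3 h4 h5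
  exact h3 ⟨⟨h5, h2⟩, h4⟩

theorem Half.nhdsX (hn : Nest Ω K V r) (h : Half Ω K V r f P α) (z : ℂ) (hz : z ∈ Ω)
    (hzP : z ∉ P) : ∀ᶠ y in 𝓝 z, y ∈ Ω ∧ y ∉ P := by
  have h1 := h.iso hn z hz
  rw [eventually_nhdsWithin_iff] at h1
  filter_upwards [h1, hn.isOpen.mem_nhds hz] with y h2 h3
  refine ⟨h3, ?_⟩
  by_cases hy : y = z
  · rw [hy]
    exact hzP
  · exact h2 hy

theorem Half.deriv_ne (hn : Nest Ω K V r) (h : Half Ω K V r f P α) (m : ℕ) (z : ℂ)
    (hz : K m \ V m ∈ 𝓝 z) : deriv f z ≠ 0 := by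
  have hz0 := mem_of_mem_nhds hz
  have hΩ : z ∈ Ω := (hn.un z).2 ⟨m, hz0.1⟩
  have hd := h.diff z hΩ (h.notP hn m z hz0.1 hz0.2)
  have h1 : ‖deriv (fun y => f y - y) z‖ ≤ 1 / 4 := by
    apply norm_deriv_le_of_lip' (by norm_num)
    filter_upwards [hz] with y hy
    exact h.lip m y hy.1 hy.2 z hz0.1 hz0.2
  have h2 : deriv (fun y => f y - y) z = deriv f z - 1 :=
    (hd.hasDerivAt.sub (hasDerivAt_id z)).deriv
  intro h3
  rw [h2, h3, zero_sub, norm_neg, norm_one] at h1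
  norm_num at h1

theorem Half.contra (h : Half Ω K V r f P α) (p : ℂ) (hp : p ∈ P) (C : ℝ)
    (hfr : ∃ᶠ y in 𝓝[≠] p, ‖f y‖ ≤ C) : False := by
  have h1 := (h.pole p hp).eventually_gt_atTop C
  exact hfr (h1.mono fun y hy => not_le.2 hy)

end half

end Pool.RSE
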