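import Pool.Agent.H88.RSE.Res

/-! The operation theorem, two-sheeted surfaces, planar domains. -/

set_option autoImplicit false

namespace Pool.RSE

open Filter Topology Set Metric
open scoped Manifold

theorem operation {X : Type} [TopologicalSpace X] [ChartedSpace ℂ X]
    [IsManifold 𝓘(ℂ) (⊤ : WithTop ℕ∞) X] (f y : X → ℂ)
    (hf : MDifferentiable 𝓘(ℂ) 𝓘(ℂ) f) (hy : MDifferentiable 𝓘(ℂ) 𝓘(ℂ) y)
    (hinj : Function.Injective (fun x => (f x, y x)))
    (himm : ∀ x, Function.Injective (mfderiv 𝓘(ℂ) 𝓘(ℂ, ℂ × ℂ) (fun x => (f x, y x)) x))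
    (hp : IsProperMap (fun x => (f x, y x)))
    (U : TopologicalSpace.Opens X) (hU : IsDiscrete ((U : Set X)ᶜ))
    (W : Set ℂ) (hW : ∀ R : ℝ, (W ∩ closedBall 0 R).Finite)
    (hUW : ∀ x, x ∉ U → f x ∈ W)
    (h1 : ∀ x ∈ U, ∀ x' ∈ U, f x = f x' → f x ∈ W → x = x')
    (h2 : ∀ x ∈ U, f x ∈ W → mfderiv 𝓘(ℂ) 𝓘(ℂ) f x ≠ 0) : HasPHE U := by
  classical
  have hfin : ∀ K : Set (ℂ × ℂ), IsCompact K →
      (((U : Set X)ᶜ) ∩ (fun x => (f x, y x)) ⁻¹' K).Finite := by
    intro K hK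
    refine IsCompact.finite ?_ (hU.mono inter_subset_left)
    exact (hp.isCompact_preimage hK).inter_left U.isOpen.isClosed_compl
  refine core (S := U) (fun x => f x) (fun x => y x) (res_mdiff U f hf) (res_mdiff U y hy)
    ?_ ?_ W hW ((fun x => (f x, y x)) '' (U : Set X)ᶜ) ?_ ?_ ?_ ?_ ?_ ?_
  · intro x x' e1 e2
    exact Subtype.ext (hinj (Prod.ext e1 e2))
  · intro x v e1 e2
    have e1' : mfderiv 𝓘(ℂ) 𝓘(ℂ) f x.1 v = 0 := by
      have := res_mfderiv U f hf x
      rw [← this]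
      exact e1
    have e2' : mfderiv 𝓘(ℂ) 𝓘(ℂ) y x.1 v = 0 := by
      have := res_mfderiv U y hy x
      rw [← this]
      exact e2
    have e3 := pair_deriv f y hf hy x.1 v e1' e2'
    exact himm x.1 (e3.trans (map_zero _).symm)
  · rintro p ⟨x, hx, rfl⟩
    exact hUW x hx
  · intro x x' e1 e2
    exact Subtype.ext (h1 x.1 x.2 x'.1 x'.2 e1 e2)
  · intro x hx h0
    apply h2 x.1 x.2 hx
    have := res_mfderiv U f hf x
    exact this.symm.trans h0
  · intro w hw _
    by_contra hcon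
    push Not at hcon
    have hK : IsCompact (({w} : Set ℂ) ×ˢ closedBall (0 : ℂ) 1) :=
      isCompact_singleton.prod (isCompact_closedBall 0 1)
    have hf1 := (hfin _ hK).image (fun x => (f x, y x))
    have hinf : (({w} : Set ℂ) ×ˢ closedBall (0 : ℂ) 1).Infinite := by
      rw [Set.singleton_prod]
      refine Set.Infinite.image (fun a _ b _ h => (Prod.ext_iff.1 h).2) ?_
      exact (infinite_of_mem_nhds (0 : ℂ) (closedBall_mem_nhds 0 one_pos))
    apply hinf
    refine hf1.subset ?_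
    rintro ⟨a, t⟩ ⟨ha, ht⟩
    rw [mem_singleton_iff] at ha
    simp only at ha ht
    subst ha
    obtain ⟨x, hx, hxt⟩ := hcon t
    refine ⟨x, ⟨hx, ?_⟩, hxt⟩
    have hxt' : (f x, y x) = (a, t) := hxt
    rw [mem_preimage, hxt']
    exact ⟨rfl, ht⟩
  · rintro x ⟨x', hx', he⟩
    have := hinj he
    rw [this] at hx'
    exact hx' x.2
  · intro K hK hKT
    rw [Subtype.isCompact_iff]
    have e : ((↑) '' ((fun x : U => (f x, y x)) ⁻¹' K) : Set X) = (fun x => (f x, y x)) ⁻¹' K := by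
      ext x
      constructor
      · rintro ⟨z, hz, rfl⟩
        exact hz
      · intro hx
        have hxU : x ∈ U := by
          by_contra hn
          exact Set.disjoint_left.1 hKT hx ⟨x, hn, rfl⟩
        exact ⟨⟨x, hxU⟩, hx, rfl⟩
    rw [e]
    exact hp.isCompact_preimage hK

theorem twoSheeted {X : Type} [TopologicalSpace X] [ChartedSpace ℂ X]
    [IsManifold 𝓘(ℂ) (⊤ : WithTop ℕ∞) X] (f y : X → ℂ) (P : ℂ → ℂ)
    (hf : MDifferentiable 𝓘(ℂ) 𝓘(ℂ) f) (hy : MDifferentiable 𝓘(ℂ) 𝓘(ℂ) y)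
    (hP : Differentiable ℂ P) (hyP : ∀ x, y x ^ 2 = P (f x)) (hfp : IsProperMap f)
    (hinj : Function.Injective (fun x => (f x, y x)))
    (himm : ∀ x, Function.Injective (mfderiv 𝓘(ℂ) 𝓘(ℂ, ℂ × ℂ) (fun x => (f x, y x)) x))
    (U : TopologicalSpace.Opens X) (hU : IsDiscrete ((U : Set X)ᶜ)) : HasPHE U := by
  classical
  have hpair : MDifferentiable 𝓘(ℂ) 𝓘(ℂ, ℂ × ℂ) (fun x => (f x, y x)) := hf.prodMk_space hy
  have hp : IsProperMap (fun x => (f x, y x)) := by
    rw [isProperMap_iff_isCompact_preimage]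
    refine ⟨hpair.continuous, fun K hK => ?_⟩
    have h1 : IsCompact (f ⁻¹' (Prod.fst '' K)) := hfp.isCompact_preimage (hK.image continuous_fst)
    refine h1.of_isClosed_subset (hK.isClosed.preimage hpair.continuous) ?_
    intro x hx
    exact ⟨_, hx, rfl⟩
  refine operation f y hf hy hinj himm hp U hU (f '' (U : Set X)ᶜ) ?_ ?_ ?_ ?_
  · intro R
    have h1 : (((U : Set X)ᶜ) ∩ f ⁻¹' closedBall 0 R).Finite := by
      refine IsCompact.finite ?_ (hU.mono inter_subset_left)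
      exact (hfp.isCompact_preimage (isCompact_closedBall 0 R)).inter_left U.isOpen.isClosed_compl
    refine (h1.image f).subset ?_
    rintro w ⟨⟨x, hx, rfl⟩, hw⟩
    exact ⟨x, ⟨hx, hw⟩, rfl⟩
  · intro x hx
    exact ⟨x, hx, rfl⟩
  · rintro x hx x' hx' e1 ⟨a, ha, hae⟩
    by_contra hne
    have hax : a ≠ x := by
      rintro rfl
      exact ha hx
    have hax' : a ≠ x' := by
      rintro rfl
      exact ha hx'
    have h3 : y x ^ 2 = y x' ^ 2 := by rw [hyP, hyP, e1]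
    have h4 : y a ^ 2 = y x ^ 2 := by rw [hyP, hyP, hae]
    have n1 : y x ≠ y x' := fun h => hne (hinj (Prod.ext e1 h))
    have n2 : y a ≠ y x := fun h => hax (hinj (Prod.ext hae h))
    have n3 : y a ≠ y x' := fun h => hax' (hinj (Prod.ext (hae.trans e1) h))
    have m1 : y x = - y x' := (sq_eq_sq_iff_eq_or_eq_neg.1 h3).resolve_left n1
    have m2 : y a = - y x := (sq_eq_sq_iff_eq_or_eq_neg.1 h4).resolve_left n2
    apply n3
    rw [m2, m1, neg_neg]
  · rintro x hx ⟨a, ha, hae⟩ h0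
    have hax : a ≠ x := by
      rintro rfl
      exact ha hx
    have h4 : y a ^ 2 = y x ^ 2 := by rw [hyP, hyP, hae]
    have n2 : y a ≠ y x := fun h => hax (hinj (Prod.ext hae h))
    have m2 : y a = - y x := (sq_eq_sq_iff_eq_or_eq_neg.1 h4).resolve_left n2
    have hy0 : y x ≠ 0 := by
      intro h
      apply n2
      rw [m2, h, neg_zero]
    -- the derivative of `y` also vanishes
    set v : TangentSpace 𝓘(ℂ) x := (1 : ℂ) with hv
    have hf0 : mfderiv 𝓘(ℂ) 𝓘(ℂ) f x v = 0 := by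
      rw [h0]
      rfl
    have hd : mfderiv 𝓘(ℂ) 𝓘(ℂ) y x v = 0 := by
      have a1 : DifferentiableAt ℂ (fun z : ℂ => z ^ 2) (y x) := by fun_prop
      have e2 := mfderiv_comp_apply x (I := 𝓘(ℂ)) (I' := 𝓘(ℂ)) (I'' := 𝓘(ℂ))
        (f := y) (g := fun z : ℂ => z ^ 2) a1.mdifferentiableAt (hy x) v
      have e3 := mfderiv_comp_apply x (I := 𝓘(ℂ)) (I' := 𝓘(ℂ)) (I'' := 𝓘(ℂ))
        (f := f) (g := P) (hP _).mdifferentiableAt (hf x) v
      have e4 : (fun z : ℂ => z ^ 2) ∘ y = P ∘ f := by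
        funext x
        exact hyP x
      rw [e4] at e2
      rw [hf0, map_zero] at e3
      have e5 := e2.symm.trans e3
      have e6 : mfderiv 𝓘(ℂ) 𝓘(ℂ) (fun z : ℂ => z ^ 2) (y x) =
          ContinuousLinearMap.toSpanSingleton ℂ (2 * y x) := by
        rw [mfderiv_eq_fderiv]
        ext
        simp
      rw [e6] at e5
      have e8 : 2 * y x ≠ 0 := mul_ne_zero two_ne_zero hy0
      have e9 : ∀ u : ℂ, (ContinuousLinearMap.toSpanSingleton ℂ (2 * y x)) u = 0 → u = 0 := by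
        intro u hu
        rw [ContinuousLinearMap.toSpanSingleton_apply, smul_eq_mul] at hu
        exact (mul_eq_zero.1 hu).resolve_right e8
      exact e9 _ e5
    have h5 := pair_deriv f y hf hy x v hf0 hd
    have h6 := himm x (h5.trans (map_zero _).symm)
    exact (one_ne_zero : (1 : ℂ) ≠ 0) h6

end Pool.RSE
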