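import Pool.Agent.H88.RSE.Pomp

/-! Rational functions close to one on a compact set and close to zero off a neighbourhood. -/

set_option autoImplicit false

namespace Pool.RSE

open Filter Topology Set Metric MeasureTheory
open scoped Manifold ContDiff

theorem quad (φ : ℂ → ℂ) (hφ : Integrable φ) (L : Set ℂ) (hL : IsCompact L)
    (hφL : ∀ ζ, ζ ∉ L → φ ζ = 0) (τ : ℝ) (hτ : 0 < τ) :
    ∃ (Z : Finset ℂ) (c : ℂ → ℂ), (∀ ζ ∈ Z, ζ ∈ L) ∧ ∀ (k : ℂ → ℂ) (ε : ℝ), 0 ≤ ε →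
      Integrable (fun ζ => φ ζ * k ζ) →
      (∀ ζ ∈ L, ∀ ζ' ∈ L, dist ζ ζ' ≤ τ → ‖k ζ - k ζ'‖ ≤ ε) →
      ‖(∫ ζ, φ ζ * k ζ) - ∑ ζ ∈ Z, c ζ * k ζ‖ ≤ ε * ∫ ζ, ‖φ ζ‖ := by
  classical
  rcases L.eq_empty_or_nonempty with hLe | hLn
  · refine ⟨∅, fun _ => 0, by simp, ?_⟩
    intro k ε hε _ _
    have h0 : ∀ ζ, φ ζ = 0 := fun ζ => hφL ζ (by rw [hLe]; exact notMem_empty _)
    simp [h0]
  · obtain ⟨t, htL, htf, hcov⟩ := hL.finite_cover_balls hτ
    have htn : t.Nonempty := by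
      obtain ⟨x, hx⟩ := hLn
      have := hcov hx
      simp only [mem_iUnion] at this
      obtain ⟨y, hy, _⟩ := this
      exact ⟨y, hy⟩
    obtain ⟨e, he⟩ := htf.countable.exists_eq_range htn
    have hk : ∀ y : ℂ, ∃ k : ℕ, y ∈ t → e k = y := by
      intro y
      by_cases hy : y ∈ t
      · rw [he] at hy
        obtain ⟨k, hk⟩ := hy
        exact ⟨k, fun _ => hk⟩
      · exact ⟨0, fun h => absurd h hy⟩
    choose kf hkf using hk
    set N : ℕ := htf.toFinset.sup kf with hN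
    set s := SimpleFunc.nearestPt e N with hs
    have hst : ∀ x, s x ∈ t := by
      intro x
      rw [he]
      exact ⟨SimpleFunc.nearestPtInd e N x, rfl⟩
    have hdist : ∀ x ∈ L, dist x (s x) ≤ τ := by
      intro x hx
      have := hcov hx
      simp only [mem_iUnion] at this
      obtain ⟨y, hy, hxy⟩ := this
      have h1 : kf y ≤ N := Finset.le_sup (f := kf) (htf.mem_toFinset.2 hy)
      have h2 := SimpleFunc.edist_nearestPt_le e x h1
      rw [hkf y hy] at h2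
      rw [mem_ball] at hxy
      have h3 : dist (s x) x ≤ dist y x := by
        rw [edist_dist, edist_dist] at h2
        exact (ENNReal.ofReal_le_ofReal_iff dist_nonneg).1 h2
      rw [dist_comm]
      rw [dist_comm] at hxy
      linarith
    refine ⟨s.range, fun y => ∫ x in s ⁻¹' {y}, φ x, ?_, ?_⟩
    · intro ζ hζ
      rw [SimpleFunc.mem_range] at hζ
      obtain ⟨x, rfl⟩ := hζ
      exact htL (hst x)
    · intro k ε hε hint hk
      have hmeas : ∀ y, MeasurableSet (s ⁻¹' {y}) := fun y => s.measurableSet_fiber y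
      have e1 : (fun x => φ x * k (s x)) = fun x => ∑ y ∈ s.range,
          (s ⁻¹' {y}).indicator (fun x => φ x * k y) x := by
        funext x
        rw [Finset.sum_eq_single (s x)]
        · rw [indicator_of_mem]
          rfl
        · intro y _ hy
          rw [indicator_of_notMem]
          intro h
          exact hy h.symm
        · intro h
          exact absurd (SimpleFunc.mem_range_self s x) h
      have hind : ∀ y, Integrable ((s ⁻¹' {y}).indicator (fun x => φ x * k y)) := fun y =>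
        (hφ.mul_const (k y)).indicator (hmeas y)
      have e2 : ∫ x, φ x * k (s x) = ∑ y ∈ s.range, (∫ x in s ⁻¹' {y}, φ x) * k y := by
        rw [e1, integral_finset_sum _ (fun y _ => hind y)]
        refine Finset.sum_congr rfl fun y _ => ?_
        rw [integral_indicator (hmeas y), integral_mul_const]
      have hint2 : Integrable (fun x => φ x * k (s x)) := by
        rw [e1]
        exact integrable_finset_sum _ fun y _ => hind y
      rw [← e2, ← integral_sub hint hint2, ← integral_const_mul]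
      refine norm_integral_le_of_norm_le (hφ.norm.const_mul ε) ?_
      refine Eventually.of_forall fun x => ?_
      by_cases hx : x ∈ L
      · rw [← mul_sub, norm_mul, mul_comm]
        exact mul_le_mul_of_nonneg_right (hk x hx _ (htL (hst x)) (hdist x hx)) (norm_nonneg _)
      · rw [hφL x hx]
        simp

/-- a sum of simple fractions -/
noncomputable def Rf (Z : Finset ℂ) (c : ℂ → ℂ) (z : ℂ) : ℂ := ∑ ζ ∈ Z, c ζ / (ζ - z)

theorem rlem (K U : Set ℂ) (hK : IsCompact K) (hU : IsOpen U) (hKU : K ⊆ U)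
    (hUb : Bornology.IsBounded U) (η : ℝ) (hη : 0 < η) :
    ∃ (Z : Finset ℂ) (c : ℂ → ℂ), (∀ ζ ∈ Z, ζ ∈ U ∧ ζ ∉ K ∧ c ζ ≠ 0) ∧
      (∀ z ∈ K, ‖Rf Z c z - 1‖ ≤ η) ∧ (∀ z, z ∉ U → ‖Rf Z c z‖ ≤ η) ∧
      (∀ z ∈ K, ∀ w ∈ K, ‖Rf Z c z - Rf Z c w‖ ≤ η * ‖z - w‖) ∧
      (∀ z, z ∉ U → ∀ w, w ∉ U → ‖Rf Z c z - Rf Z c w‖ ≤ η * ‖z - w‖) := by
  classical
  obtain ⟨χ0, h0, h1, -⟩ := exists_contMDiffMap_zero_one_nhds_of_isClosed (I := 𝓘(ℝ, ℂ))
    (n := 1) hU.isClosed_compl hK.isClosed (disjoint_compl_left_iff_subset.2 hKU)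
  set χ : ℂ → ℝ := fun z => χ0 z with hχ
  have hχd : ContDiff ℝ 1 χ := by
    have := χ0.contMDiff
    exact this.contDiff
  have hχ0 : ∀ z, z ∉ U → χ z = 0 := fun z hz => h0.self_of_nhdsSet z hz
  have hχ1 : ∀ z ∈ K, χ z = 1 := fun z hz => h1.self_of_nhdsSet z hz
  have hcs : HasCompactSupport χ := by
    refine HasCompactSupport.of_support_subset_isCompact hUb.isCompact_closure ?_
    intro z hz
    by_contra hn
    exact hz (hχ0 z (fun h => hn (subset_closure h)))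
  have hcf : Continuous (fderiv ℝ χ) := hχd.continuous_fderiv (by norm_num)
  set φ : ℂ → ℂ := fun ζ => (-(2 * Real.pi) : ℂ)⁻¹ *
    (((fderiv ℝ χ ζ 1 : ℝ) : ℂ) + Complex.I * ((fderiv ℝ χ ζ Complex.I : ℝ) : ℂ)) with hφ
  have hφc : Continuous φ := by
    have e1 : Continuous fun ζ => fderiv ℝ χ ζ 1 := hcf.clm_apply continuous_const
    have e2 : Continuous fun ζ => fderiv ℝ χ ζ Complex.I := hcf.clm_apply continuous_const
    exact continuous_const.mul ((Complex.continuous_ofReal.comp e1).add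
      (continuous_const.mul (Complex.continuous_ofReal.comp e2)))
  set L : Set ℂ := tsupport (fderiv ℝ χ) with hL
  have hLc : IsCompact L := (hcs.fderiv ℝ).isCompact
  have hφL : ∀ ζ, ζ ∉ L → φ ζ = 0 := by
    intro ζ hζ
    have : fderiv ℝ χ ζ = 0 := image_eq_zero_of_notMem_tsupport hζ
    simp only [hφ, this]
    simp
  have hloc : ∀ (z : ℂ) (a : ℝ), (∀ᶠ x in 𝓝 z, χ x = a) → z ∉ L := by
    intro z a hz
    rw [hL, notMem_tsupport_iff_eventuallyEq]
    filter_upwards [hz.eventually_nhds] with x hx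
    have : χ =ᶠ[𝓝 x] fun _ => a := hx
    rw [this.fderiv_eq]
    simp
  have hLK : ∀ ζ ∈ L, ζ ∉ K := by
    intro ζ hζ hζK
    exact hloc ζ 1 (h1.filter_mono (nhds_le_nhdsSet hζK)) hζ
  have hLU : ∀ ζ ∈ L, ζ ∈ U := by
    intro ζ hζ
    by_contra hζU
    exact hloc ζ 0 (h0.filter_mono (nhds_le_nhdsSet hζU)) hζ
  have hφi : Integrable φ := by
    apply hφc.integrable_of_hasCompactSupport
    refine HasCompactSupport.of_support_subset_isCompact hLc ?_
    intro z hz
    by_contra hn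
    exact hz (hφL z hn)
  -- Pompeiu
  have hpomp : ∀ z, ∫ ζ, φ ζ * (1 / (ζ - z)) = ((χ z : ℝ) : ℂ) := by
    intro z
    have h2 : ContDiff ℝ 1 (fun x => χ (x + z)) := hχd.comp (by fun_prop)
    have h3 : HasCompactSupport (fun x => χ (x + z)) := by
      exact hcs.comp_homeomorph (Homeomorph.addRight z)
    have h4 := pompeiu0 _ h2 h3
    have h5 : ∀ x, fderiv ℝ (fun x => χ (x + z)) x = fderiv ℝ χ (x + z) := by
      intro x
      rw [fderiv_comp_add_right]
    simp only [h5, zero_add] at h4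
    have h6 := integral_add_right_eq_self (μ := (volume : Measure ℂ))
      (fun ζ => (((fderiv ℝ χ ζ 1 : ℝ) : ℂ) +
        Complex.I * ((fderiv ℝ χ ζ Complex.I : ℝ) : ℂ)) / (ζ - z)) z
    simp only [add_sub_cancel_right] at h6
    rw [h4] at h6
    have h7 : (fun ζ => φ ζ * (1 / (ζ - z))) = fun ζ => (-(2 * Real.pi) : ℂ)⁻¹ *
        ((((fderiv ℝ χ ζ 1 : ℝ) : ℂ) +
        Complex.I * ((fderiv ℝ χ ζ Complex.I : ℝ) : ℂ)) / (ζ - z)) := by
      funext ζ
      simp only [hφ]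
      ring
    rw [h7, integral_const_mul, ← h6]
    have hpi : (Real.pi : ℂ) ≠ 0 := by exact_mod_cast Real.pi_ne_zero
    push_cast
    field_simp
  -- the distance
  obtain ⟨δ, hδ, hδd⟩ : ∃ δ : ℝ, 0 < δ ∧ ∀ ζ ∈ L, ∀ z, (z ∈ K ∨ z ∉ U) → δ ≤ ‖ζ - z‖ := by
    have hcl : IsClosed (K ∪ Uᶜ) := hK.isClosed.union hU.isClosed_compl
    have hdis : Disjoint L (K ∪ Uᶜ) := by
      rw [Set.disjoint_left]
      rintro ζ hζ (h | h)
      · exact hLK ζ hζ h
      · exact h (hLU ζ hζ)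
    obtain ⟨δ, hδ, hd⟩ := hdis.exists_thickenings hLc hcl
    refine ⟨δ, hδ, ?_⟩
    intro ζ hζ z hz
    by_contra hcon
    push Not at hcon
    have h2 : z ∈ thickening δ L := by
      rw [mem_thickening_iff]
      exact ⟨ζ, hζ, by rw [dist_comm, dist_eq_norm]; exact hcon⟩
    have h3 : z ∈ thickening δ (K ∪ Uᶜ) := self_subset_thickening hδ _ (by
      rcases hz with h | h
      · exact Or.inl h
      · exact Or.inr h)
    exact Set.disjoint_left.1 hd h2 h3
  set M : ℝ := ∫ ζ, ‖φ ζ‖ with hM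
  have hM0 : 0 ≤ M := integral_nonneg fun _ => norm_nonneg _
  obtain ⟨τ, hτ, hτ1, hτ2⟩ : ∃ τ : ℝ, 0 < τ ∧ τ / δ ^ 2 * M ≤ η ∧ 2 * τ / δ ^ 3 * M ≤ η := by
    refine ⟨min (η * δ ^ 2 / (M + 1)) (η * δ ^ 3 / (2 * (M + 1))), by positivity, ?_, ?_⟩
    · have h2 := min_le_left (η * δ ^ 2 / (M + 1)) (η * δ ^ 3 / (2 * (M + 1)))
      have h3 : min (η * δ ^ 2 / (M + 1)) (η * δ ^ 3 / (2 * (M + 1))) / δ ^ 2 * M ≤
          (η * δ ^ 2 / (M + 1)) / δ ^ 2 * M := by gcongr
      refine h3.trans ?_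
      have h4 : (η * δ ^ 2 / (M + 1)) / δ ^ 2 * M = η * (M / (M + 1)) := by
        field_simp
      rw [h4]
      have h5 : M / (M + 1) ≤ 1 := by
        rw [div_le_one (by linarith)]
        linarith
      nlinarith
    · have h2 := min_le_right (η * δ ^ 2 / (M + 1)) (η * δ ^ 3 / (2 * (M + 1)))
      have h3 : 2 * min (η * δ ^ 2 / (M + 1)) (η * δ ^ 3 / (2 * (M + 1))) / δ ^ 3 * M ≤
          2 * (η * δ ^ 3 / (2 * (M + 1))) / δ ^ 3 * M := by gcongr
      refine h3.trans ?_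
      have h4 : 2 * (η * δ ^ 3 / (2 * (M + 1))) / δ ^ 3 * M = η * (M / (M + 1)) := by
        field_simp
      rw [h4]
      have h5 : M / (M + 1) ≤ 1 := by
        rw [div_le_one (by linarith)]
        linarith
      nlinarith
  obtain ⟨Z, c, hZL, hZ⟩ := quad φ hφi L hLc hφL τ hτ
  have hki : ∀ z, (z ∈ K ∨ z ∉ U) → Integrable (fun ζ => φ ζ * (1 / (ζ - z))) := by
    intro z hz
    have hcont : Continuous (fun ζ => φ ζ * (1 / (ζ - z))) := by
      rw [continuous_iff_continuousAt]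
      intro ζ
      by_cases hζ : ζ = z
      · have hzL : z ∉ L := by
          intro h
          have := hδd z h z hz
          simp at this
          linarith
        have : (fun ζ => φ ζ * (1 / (ζ - z))) =ᶠ[𝓝 ζ] fun _ => 0 := by
          rw [hζ]
          filter_upwards [(isClosed_tsupport _).isOpen_compl.mem_nhds hzL] with x hx
          rw [hφL x hx, zero_mul]
        exact continuousAt_const.congr this.symm
      · have hne : ζ - z ≠ 0 := sub_ne_zero.2 hζ
        exact hφc.continuousAt.mul (continuousAt_const.div (by fun_prop) hne)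
    apply hcont.integrable_of_hasCompactSupport
    refine HasCompactSupport.of_support_subset_isCompact hLc ?_
    intro x hx
    by_contra hn
    apply hx
    show φ x * (1 / (x - z)) = 0
    rw [hφL x hn, zero_mul]
  have hval : ∀ z, (z ∈ K ∨ z ∉ U) → ‖((χ z : ℝ) : ℂ) - Rf Z c z‖ ≤ η := by
    intro z hz
    have h2 := hZ (fun ζ => 1 / (ζ - z)) (τ / δ ^ 2) (by positivity) (hki z hz) (by
      intro ζ hζ ζ' hζ' hd
      have a1 := hδd ζ hζ z hz
      have a2 := hδd ζ' hζ' z hz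
      have n1 : ζ - z ≠ 0 := norm_pos_iff.1 (by linarith)
      have n2 : ζ' - z ≠ 0 := norm_pos_iff.1 (by linarith)
      have e1 : 1 / (ζ - z) - 1 / (ζ' - z) = (ζ' - ζ) / ((ζ - z) * (ζ' - z)) := by
        field_simp
        ring
      rw [e1, norm_div, norm_mul]
      have e2 : ‖ζ' - ζ‖ ≤ τ := by
        rw [← dist_eq_norm, dist_comm]
        exact hd
      have e3 : δ ^ 2 ≤ ‖ζ - z‖ * ‖ζ' - z‖ := by
        rw [sq]
        exact mul_le_mul a1 a2 hδ.le (by linarith)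
      gcongr)
    rw [hpomp z] at h2
    refine le_trans (le_of_eq ?_) (h2.trans hτ1)
    congr 2
    unfold Rf
    refine Finset.sum_congr rfl fun ζ _ => ?_
    ring
  have hlip : ∀ z w, (z ∈ K ∨ z ∉ U) → (w ∈ K ∨ w ∉ U) → χ z = χ w →
      ‖Rf Z c z - Rf Z c w‖ ≤ η * ‖z - w‖ := by
    intro z w hz hw hzw
    have h2 := hZ (fun ζ => 1 / (ζ - z) - 1 / (ζ - w)) (2 * τ / δ ^ 3 * ‖z - w‖) (by positivity)
      (by
        have := (hki z hz).sub (hki w hw)
        refine this.congr (Eventually.of_forall fun ζ => ?_)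
        simp only [Pi.sub_apply]
        ring) (by
      intro ζ hζ ζ' hζ' hd
      have a1 := hδd ζ hζ z hz
      have a2 := hδd ζ' hζ' z hz
      have b1 := hδd ζ hζ w hw
      have b2 := hδd ζ' hζ' w hw
      have n1 : ζ - z ≠ 0 := norm_pos_iff.1 (by linarith)
      have n2 : ζ' - z ≠ 0 := norm_pos_iff.1 (by linarith)
      have m1 : ζ - w ≠ 0 := norm_pos_iff.1 (by linarith)
      have m2 : ζ' - w ≠ 0 := norm_pos_iff.1 (by linarith)
      have e1 : 1 / (ζ - z) - 1 / (ζ - w) - (1 / (ζ' - z) - 1 / (ζ' - w)) =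
          (z - w) * ((ζ' - ζ) / ((ζ - z) * (ζ' - z) * (ζ' - w)) +
            (ζ' - ζ) / ((ζ - z) * (ζ - w) * (ζ' - w))) := by
        field_simp
        ring
      rw [e1, norm_mul]
      have e2 : ‖ζ' - ζ‖ ≤ τ := by
        rw [← dist_eq_norm, dist_comm]
        exact hd
      have c1 : ‖(ζ' - ζ) / ((ζ - z) * (ζ' - z) * (ζ' - w))‖ ≤ τ / δ ^ 3 := by
        rw [norm_div, norm_mul, norm_mul]
        have e3 : δ ^ 3 ≤ ‖ζ - z‖ * ‖ζ' - z‖ * ‖ζ' - w‖ := by
          have : δ ^ 3 = δ * δ * δ := by ring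
          rw [this]
          gcongr
        gcongr
      have c2 : ‖(ζ' - ζ) / ((ζ - z) * (ζ - w) * (ζ' - w))‖ ≤ τ / δ ^ 3 := by
        rw [norm_div, norm_mul, norm_mul]
        have e3 : δ ^ 3 ≤ ‖ζ - z‖ * ‖ζ - w‖ * ‖ζ' - w‖ := by
          have : δ ^ 3 = δ * δ * δ := by ring
          rw [this]
          gcongr
        gcongr
      have c3 := norm_add_le ((ζ' - ζ) / ((ζ - z) * (ζ' - z) * (ζ' - w)))
        ((ζ' - ζ) / ((ζ - z) * (ζ - w) * (ζ' - w)))
      have c4 : ‖(ζ' - ζ) / ((ζ - z) * (ζ' - z) * (ζ' - w)) +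
        (ζ' - ζ) / ((ζ - z) * (ζ - w) * (ζ' - w))‖ ≤ 2 * τ / δ ^ 3 := by
        have : 2 * τ / δ ^ 3 = τ / δ ^ 3 + τ / δ ^ 3 := by ring
        linarith
      calc ‖z - w‖ * _ ≤ ‖z - w‖ * (2 * τ / δ ^ 3) :=
            mul_le_mul_of_nonneg_left c4 (norm_nonneg _)
        _ = 2 * τ / δ ^ 3 * ‖z - w‖ := by ring)
    have h3 : ∫ ζ, φ ζ * (1 / (ζ - z) - 1 / (ζ - w)) = 0 := by
      have e1 : (fun ζ => φ ζ * (1 / (ζ - z) - 1 / (ζ - w))) =
          fun ζ => φ ζ * (1 / (ζ - z)) - φ ζ * (1 / (ζ - w)) := by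
        funext ζ
        ring
      rw [e1, integral_sub (hki z hz) (hki w hw), hpomp, hpomp, hzw, sub_self]
    rw [h3, zero_sub, norm_neg] at h2
    have h4 : ∑ ζ ∈ Z, c ζ * (1 / (ζ - z) - 1 / (ζ - w)) = Rf Z c z - Rf Z c w := by
      unfold Rf
      rw [← Finset.sum_sub_distrib]
      refine Finset.sum_congr rfl fun ζ _ => ?_
      ring
    rw [h4] at h2
    refine h2.trans ?_
    calc 2 * τ / δ ^ 3 * ‖z - w‖ * M = (2 * τ / δ ^ 3 * M) * ‖z - w‖ := by ring
      _ ≤ η * ‖z - w‖ := mul_le_mul_of_nonneg_right hτ2 (norm_nonneg _)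
  -- drop the zero coefficients
  have hfil : ∀ z, Rf (Z.filter fun ζ => c ζ ≠ 0) c z = Rf Z c z := by
    intro z
    unfold Rf
    rw [Finset.sum_filter]
    refine Finset.sum_congr rfl fun ζ _ => ?_
    by_cases h : c ζ = 0
    · simp [h]
    · simp [h]
  refine ⟨Z.filter fun ζ => c ζ ≠ 0, c, ?_, ?_, ?_, ?_, ?_⟩
  · intro ζ hζ
    rw [Finset.mem_filter] at hζ
    exact ⟨hLU ζ (hZL ζ hζ.1), hLK ζ (hZL ζ hζ.1), hζ.2⟩
  · intro z hz
    rw [hfil, norm_sub_rev]
    have := hval z (Or.inl hz)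
    rw [hχ1 z hz] at this
    simpa using this
  · intro z hz
    rw [hfil]
    have := hval z (Or.inr hz)
    rw [hχ0 z hz] at this
    simpa using this
  · intro z hz w hw
    rw [hfil, hfil]
    exact hlip z w (Or.inl hz) (Or.inl hw) (by rw [hχ1 z hz, hχ1 w hw])
  · intro z hz w hw
    rw [hfil, hfil]
    exact hlip z w (Or.inr hz) (Or.inr hw) (by rw [hχ0 z hz, hχ0 w hw])

end Pool.RSE
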