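import Pool.Agent.H88.RSE.Core

/-! Restriction to open subsets; two-sheeted surfaces. -/

set_option autoImplicit false

namespace Pool.RSE

open Filter Topology Set Metric
open scoped Manifold

section restrict

variable {S : Type} [TopologicalSpace S] [ChartedSpace ℂ S] [IsManifold 𝓘(ℂ) (⊤ : WithTop ℕ∞) S]

theorem res_mdiff (U : TopologicalSpace.Opens S) (f : S → ℂ)
    (hf : MDifferentiable 𝓘(ℂ) 𝓘(ℂ) f) :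
    MDifferentiable 𝓘(ℂ) 𝓘(ℂ) (fun z : U => f z) := by
  have h1 : MDifferentiable 𝓘(ℂ) 𝓘(ℂ) (Subtype.val : U → S) :=
    (contMDiff_subtype_val (n := 1)).mdifferentiable (by norm_num)
  exact hf.comp h1

theorem res_mfderiv (U : TopologicalSpace.Opens S) (f : S → ℂ)
    (hf : MDifferentiable 𝓘(ℂ) 𝓘(ℂ) f) (x : U) :
    (mfderiv 𝓘(ℂ) 𝓘(ℂ) (fun z : U => f z) x : ℂ →L[ℂ] ℂ) =
      (mfderiv 𝓘(ℂ) 𝓘(ℂ) f x.1 : ℂ →L[ℂ] ℂ) := by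
  have h1 := res_mdiff U f hf
  rw [(h1 x).mfderiv, (hf x.1).mfderiv]
  have h2 : range (𝓘(ℂ) : ModelWithCorners ℂ ℂ ℂ) = univ := by simp
  rw [h2, fderivWithin_univ, fderivWithin_univ]
  have h3 : extChartAt 𝓘(ℂ) x x = extChartAt 𝓘(ℂ) x.1 x.1 := rfl
  rw [h3]
  apply Filter.EventuallyEq.fderiv_eq
  have h4 := TopologicalSpace.Opens.chartAt_subtype_val_symm_eventuallyEq (H := ℂ) U (x := x)
  have h5 := h4.fun_comp f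
  have h6 : (extChartAt 𝓘(ℂ) x.1 x.1 : ℂ) = chartAt ℂ x.1 x.1 := rfl
  rw [h6]
  refine Filter.EventuallyEq.trans ?_ (Filter.EventuallyEq.trans h5.symm ?_)
  · exact Filter.EventuallyEq.of_eq rfl
  · exact Filter.EventuallyEq.of_eq rfl

end restrict

section pair

variable {S : Type} [TopologicalSpace S] [ChartedSpace ℂ S] [IsManifold 𝓘(ℂ) (⊤ : WithTop ℕ∞) S]

theorem pair_deriv (f y : S → ℂ) (hf : MDifferentiable 𝓘(ℂ) 𝓘(ℂ) f)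
    (hy : MDifferentiable 𝓘(ℂ) 𝓘(ℂ) y) (x : S) (v : TangentSpace 𝓘(ℂ) x)
    (h1 : mfderiv 𝓘(ℂ) 𝓘(ℂ) f x v = 0) (h2 : mfderiv 𝓘(ℂ) 𝓘(ℂ) y x v = 0) :
    mfderiv 𝓘(ℂ) 𝓘(ℂ, ℂ × ℂ) (fun x => (f x, y x)) x v = 0 := by
  have hF : MDifferentiable 𝓘(ℂ) 𝓘(ℂ, ℂ × ℂ) (fun x => (f x, y x)) := hf.prodMk_space hy
  have hfst : MDifferentiableAt 𝓘(ℂ, ℂ × ℂ) 𝓘(ℂ) (Prod.fst : ℂ × ℂ → ℂ) (f x, y x) :=
    differentiableAt_fst.mdifferentiableAt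
  have hsnd : MDifferentiableAt 𝓘(ℂ, ℂ × ℂ) 𝓘(ℂ) (Prod.snd : ℂ × ℂ → ℂ) (f x, y x) :=
    differentiableAt_snd.mdifferentiableAt
  have e2 := mfderiv_comp_apply x (I := 𝓘(ℂ)) (I' := 𝓘(ℂ, ℂ × ℂ)) (I'' := 𝓘(ℂ))
    (f := fun x => (f x, y x)) (g := Prod.fst) hfst (hF x) v
  have e3 := mfderiv_comp_apply x (I := 𝓘(ℂ)) (I' := 𝓘(ℂ, ℂ × ℂ)) (I'' := 𝓘(ℂ))
    (f := fun x => (f x, y x)) (g := Prod.snd) hsnd (hF x) v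
  have a1 : mfderiv 𝓘(ℂ, ℂ × ℂ) 𝓘(ℂ) (Prod.fst : ℂ × ℂ → ℂ) (f x, y x) =
      ContinuousLinearMap.fst ℂ ℂ ℂ := by
    rw [mfderiv_eq_fderiv]
    exact fderiv_fst
  have a2 : mfderiv 𝓘(ℂ, ℂ × ℂ) 𝓘(ℂ) (Prod.snd : ℂ × ℂ → ℂ) (f x, y x) =
      ContinuousLinearMap.snd ℂ ℂ ℂ := by
    rw [mfderiv_eq_fderiv]
    exact fderiv_snd
  rw [a1] at e2
  rw [a2] at e3
  have b1 : (mfderiv 𝓘(ℂ) 𝓘(ℂ, ℂ × ℂ) (fun x => (f x, y x)) x v : ℂ × ℂ).1 = 0 :=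
    e2.symm.trans h1
  have b2 : (mfderiv 𝓘(ℂ) 𝓘(ℂ, ℂ × ℂ) (fun x => (f x, y x)) x v : ℂ × ℂ).2 = 0 :=
    e3.symm.trans h2
  exact Prod.ext b1 b2

end pair

end Pool.RSE
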