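import Pool.Agent.H88.RSE.HalfL
import Pool.Agent.H88.RSE.Dbl

/-! Two functions whose shells cover an open subset of the plane. -/

set_option autoImplicit false

namespace Pool.RSE

open Filter Topology Set Metric

/-- compact sets of the first function -/
def Kf (E : ℕ → Set ℂ) (m : ℕ) : Set ℂ := E (4 * m)

/-- open sets of the first function -/
def Vf (O : ℕ → Set ℂ) : ℕ → Set ℂ
  | 0 => ∅
  | (m + 1) => O (4 * m + 1)

/-- compact sets of the second function -/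
def Kg (E : ℕ → Set ℂ) (m : ℕ) : Set ℂ := E (4 * m + 2)

/-- open sets of the second function -/
def Vg (O : ℕ → Set ℂ) : ℕ → Set ℂ
  | 0 => ∅
  | (m + 1) => O (4 * m + 3)

/-- the data -/
structure Dat (Ω : Set ℂ) (E O : ℕ → Set ℂ) (r s : ℕ → ℝ) (f g : ℂ → ℂ) (P P' : Set ℂ)
    (α β : ℕ → ℝ) : Prop where
  comp : ∀ n, IsCompact (E n)
  opn : ∀ n, IsOpen (O n)
  oe : ∀ n, O n ⊆ E n
  eo : ∀ n, E n ⊆ O (n + 1)
  un : ∀ z, z ∈ Ω ↔ ∃ n, z ∈ E n
  nf : Nest Ω (Kf E) (Vf O) r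
  ng : Nest Ω (Kg E) (Vg O) s
  hf : Half Ω (Kf E) (Vf O) r f P α
  hg : Half Ω (Kg E) (Vg O) s g P' β

theorem exhaust (Ω : TopologicalSpace.Opens ℂ) : ∃ E O : ℕ → Set ℂ, (∀ n, IsCompact (E n)) ∧
    (∀ n, IsOpen (O n)) ∧ (∀ n, O n ⊆ E n) ∧ (∀ n, E n ⊆ O (n + 1)) ∧
    ∀ z, z ∈ (Ω : Set ℂ) ↔ ∃ n, z ∈ E n := by
  have hl : LocallyCompactSpace Ω := Ω.isOpen.locallyCompactSpace
  let C : CompactExhaustion Ω := CompactExhaustion.choice Ω
  refine ⟨fun n => Subtype.val '' C n, fun n => Subtype.val '' interior (C n), ?_, ?_, ?_, ?_, ?_⟩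
  · intro n
    exact (C.isCompact n).image continuous_subtype_val
  · intro n
    exact Ω.isOpen.isOpenEmbedding_subtypeVal.isOpenMap _ isOpen_interior
  · intro n
    exact image_mono interior_subset
  · intro n
    exact image_mono (C.subset_interior_succ n)
  · intro z
    constructor
    · intro hz
      have h1 : (⟨z, hz⟩ : Ω) ∈ ⋃ n, C n := by
        rw [C.iUnion_eq]
        trivial
      obtain ⟨n, hn⟩ := mem_iUnion.1 h1
      exact ⟨n, ⟨z, hz⟩, hn, rfl⟩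
    · rintro ⟨n, w, -, rfl⟩
      exact w.2

theorem exists_dat (Ω : TopologicalSpace.Opens ℂ) (K : Set ℂ) (hK : IsCompact K)
    (hKΩ : K ⊆ (Ω : Set ℂ)) :
    ∃ (E O : ℕ → Set ℂ) (r s : ℕ → ℝ) (f g : ℂ → ℂ) (P P' : Set ℂ) (α β : ℕ → ℝ),
      Dat (Ω : Set ℂ) E O r s f g P P' α β ∧ K ⊆ E 0 ∧ 2 * r 0 + s 0 + 2 ≤ α 1 - r 1 := by
  obtain ⟨E', O', g1, g2, g3, g4, g5⟩ := exhaust Ω
  have hE' : Monotone E' := monotone_nat_of_le_succ (fun m => (g4 m).trans (g3 (m + 1)))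
  have hO' : Monotone O' := monotone_nat_of_le_succ (fun m => (g3 m).trans (g4 m))
  obtain ⟨n0, hn0⟩ : ∃ n, K ⊆ O' n := by
    refine hK.elim_directed_cover O' g2 ?_ hO'.directed_le
    intro z hz
    obtain ⟨n, hn⟩ := (g5 z).1 (hKΩ hz)
    exact mem_iUnion.2 ⟨n + 1, g4 n hn⟩
  set E : ℕ → Set ℂ := fun n => E' (n + n0) with hEdef
  set O : ℕ → Set ℂ := fun n => O' (n + n0) with hOdef
  have h1 : ∀ n, IsCompact (E n) := fun n => g1 _
  have h2 : ∀ n, IsOpen (O n) := fun n => g2 _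
  have h3 : ∀ n, O n ⊆ E n := fun n => g3 _
  have h4 : ∀ n, E n ⊆ O (n + 1) := by
    intro n
    have e : n + 1 + n0 = n + n0 + 1 := by ring
    simp only [hEdef, hOdef]
    rw [e]
    exact g4 _
  have h5 : ∀ z, z ∈ (Ω : Set ℂ) ↔ ∃ n, z ∈ E n := by
    intro z
    rw [g5]
    constructor
    · rintro ⟨n, hn⟩
      exact ⟨n, hE' (by omega) hn⟩
    · rintro ⟨n, hn⟩
      exact ⟨_, hn⟩
  have hb : ∀ n, ∃ R : ℝ, 0 ≤ R ∧ ∀ z ∈ E n, ‖z‖ ≤ R := by
    intro n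
    obtain ⟨R, hR⟩ := (h1 n).isBounded.subset_closedBall 0
    refine ⟨max R 0, le_max_right _ _, fun z hz => ?_⟩
    have := hR hz
    rw [mem_closedBall, dist_zero_right] at this
    exact this.trans (le_max_left _ _)
  choose R hR0 hR using hb
  have hE : Monotone E := monotone_nat_of_le_succ (fun m => (h4 m).trans (h3 (m + 1)))
  have hO : Monotone O := monotone_nat_of_le_succ (fun m => (h3 m).trans (h4 m))
  have nf : Nest (Ω : Set ℂ) (Kf E) (Vf O) (fun m => R (4 * m)) := by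
    refine ⟨fun m => h1 _, ?_, rfl, ?_, ?_, ?_, fun m => hR0 _, fun m z hz => hR _ z hz⟩
    · intro m
      cases m with
      | zero => exact isOpen_empty
      | succ m => exact h2 _
    · intro m
      cases m with
      | zero => exact empty_subset _
      | succ m => exact (h3 _).trans (hE (by omega))
    · intro m
      exact h4 _
    · intro z
      rw [h5]
      constructor
      · rintro ⟨n, hn⟩
        exact ⟨n, hE (by omega) hn⟩
      · rintro ⟨n, hn⟩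
        exact ⟨_, hn⟩
  have ng : Nest (Ω : Set ℂ) (Kg E) (Vg O) (fun m => R (4 * m + 2)) := by
    refine ⟨fun m => h1 _, ?_, rfl, ?_, ?_, ?_, fun m => hR0 _, fun m z hz => hR _ z hz⟩
    · intro m
      cases m with
      | zero => exact isOpen_empty
      | succ m => exact h2 _
    · intro m
      cases m with
      | zero => exact empty_subset _
      | succ m => exact (h3 _).trans (hE (by omega))
    · intro m
      exact h4 _
    · intro z
      rw [h5]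
      constructor
      · rintro ⟨n, hn⟩
        exact ⟨n, hE (by omega) hn⟩
      · rintro ⟨n, hn⟩
        exact ⟨_, hn⟩
  obtain ⟨f, P, α, hf, hα⟩ := half_exists nf (2 * R (4 * 0) + R (4 * 0 + 2) + 2)
    (by have := hR0 (4 * 0); have := hR0 (4 * 0 + 2); linarith)
  obtain ⟨g, P', β, hg, -⟩ := half_exists ng 0 le_rfl
  refine ⟨E, O, _, _, f, g, P, P', α, β, ⟨h1, h2, h3, h4, h5, nf, ng, hf, hg⟩, ?_, hα⟩
  refine hn0.trans ((g3 n0).trans ?_)
  simp only [hEdef]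
  rw [zero_add]

section dat

variable {Ω : Set ℂ} {E O : ℕ → Set ℂ} {r s : ℕ → ℝ} {f g : ℂ → ℂ} {P P' : Set ℂ} {α β : ℕ → ℝ}

theorem Dat.Emono (h : Dat Ω E O r s f g P P' α β) : Monotone E :=
  monotone_nat_of_le_succ (fun m => (h.eo m).trans (h.oe (m + 1)))

theorem Dat.Omono (h : Dat Ω E O r s f g P P' α β) : Monotone O :=
  monotone_nat_of_le_succ (fun m => (h.oe m).trans (h.eo m))

theorem Dat.EO (h : Dat Ω E O r s f g P P' α β) {m n : ℕ} (hmn : m < n) : E m ⊆ O n :=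
  (h.eo m).trans (h.Omono (Nat.succ_le_of_lt hmn))

theorem Dat.notVf (h : Dat Ω E O r s f g P P' α β) (m n : ℕ) (z : ℂ) (hz : z ∉ O n)
    (hn : 4 * m ≤ n + 3) : z ∉ Vf O m := by
  cases m with
  | zero => exact fun h => h
  | succ m => exact fun hc => hz (h.Omono (by omega) hc)

theorem Dat.notVg (h : Dat Ω E O r s f g P P' α β) (m n : ℕ) (z : ℂ) (hz : z ∉ O n)
    (hn : 4 * m ≤ n + 1) : z ∉ Vg O m := by
  cases m with
  | zero => exact fun h => h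
  | succ m => exact fun hc => hz (h.Omono (by omega) hc)

/-- every point has a neighbourhood in a shell -/
theorem Dat.nhds (h : Dat Ω E O r s f g P P' α β) (z : ℂ) (hz : z ∈ Ω) :
    (∃ m, Kf E m \ Vf O m ∈ 𝓝 z) ∨ ∃ m, Kg E m \ Vg O m ∈ 𝓝 z := by
  classical
  have hex : ∃ n, z ∈ O n := by
    obtain ⟨n, hn⟩ := (h.un z).1 hz
    exact ⟨n + 1, h.eo n hn⟩
  set n := Nat.find hex with hn
  have h1 : z ∈ O n := Nat.find_spec hex
  have h2 : ∀ m, m + 2 ≤ n → z ∉ E m := by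
    intro m hm hc
    exact Nat.find_min hex (m := m + 1) (by omega) (h.eo m hc)
  have h3 : ∀ m, m + 2 ≤ n → (E m)ᶜ ∈ 𝓝 z := fun m hm =>
    (h.comp m).isClosed.isOpen_compl.mem_nhds (h2 m hm)
  have h4 : O n ∈ 𝓝 z := (h.opn n).mem_nhds h1
  have caseF : ∀ m, n = 4 * m ∨ n + 1 = 4 * m → Kf E m \ Vf O m ∈ 𝓝 z := by
    intro m hm
    have e1 : Kf E m ∈ 𝓝 z := mem_of_superset h4 ((h.oe n).trans (h.Emono (by omega)))
    have e2 : (Vf O m)ᶜ ∈ 𝓝 z := by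
      cases m with
      | zero => exact univ_mem' (fun _ h => h)
      | succ m =>
        refine mem_of_superset (h3 (4 * m + 1) (by omega)) ?_
        intro y hy hc
        exact hy (h.oe _ hc)
    exact inter_mem e1 e2
  have caseG : ∀ m, n = 4 * m + 2 ∨ n = 4 * m + 1 → Kg E m \ Vg O m ∈ 𝓝 z := by
    intro m hm
    have e1 : Kg E m ∈ 𝓝 z := mem_of_superset h4 ((h.oe n).trans (h.Emono (by omega)))
    have e2 : (Vg O m)ᶜ ∈ 𝓝 z := by
      cases m with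
      | zero => exact univ_mem' (fun _ h => h)
      | succ m =>
        refine mem_of_superset (h3 (4 * m + 3) (by omega)) ?_
        intro y hy hc
        exact hy (h.oe _ hc)
    exact inter_mem e1 e2
  have hmod : n % 4 = 0 ∨ n % 4 = 1 ∨ n % 4 = 2 ∨ n % 4 = 3 := by omega
  rcases hmod with h5 | h5 | h5 | h5
  · exact Or.inl ⟨n / 4, caseF _ (by omega)⟩
  · exact Or.inr ⟨n / 4, caseG _ (by omega)⟩
  · exact Or.inr ⟨n / 4, caseG _ (by omega)⟩
  · exact Or.inl ⟨n / 4 + 1, caseF _ (by omega)⟩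

/-- the layers of the first function -/
def Lf (E O : ℕ → Set ℂ) (m : ℕ) : Set ℂ := O (4 * m + 1) \ E (4 * m)

/-- the layers of the second function -/
def Lg (E O : ℕ → Set ℂ) (m : ℕ) : Set ℂ := O (4 * m + 3) \ E (4 * m + 2)

theorem Dat.casesF (h : Dat Ω E O r s f g P P' α β) (z : ℂ) (hz : z ∈ Ω) :
    (∃ m, z ∈ Kf E m ∧ z ∉ Vf O m) ∨ ∃ m, z ∈ Lf E O m := h.nf.cases z hz

theorem Dat.casesG (h : Dat Ω E O r s f g P P' α β) (z : ℂ) (hz : z ∈ Ω) :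
    (∃ m, z ∈ Kg E m ∧ z ∉ Vg O m) ∨ ∃ m, z ∈ Lg E O m := h.ng.cases z hz

/-- the closed layer of `f` lies in a shell of `g` -/
theorem Dat.cLf (h : Dat Ω E O r s f g P P' α β) (m : ℕ) (z : ℂ) (h1 : z ∈ E (4 * m + 1))
    (h2 : z ∉ O (4 * m)) : z ∈ Kg E m ∧ z ∉ Vg O m :=
  ⟨h.Emono (by omega) h1, h.notVg m (4 * m) z h2 (by omega)⟩

/-- the closed layer of `g` lies in a shell of `f` -/
theorem Dat.cLg (h : Dat Ω E O r s f g P P' α β) (m : ℕ) (z : ℂ) (h1 : z ∈ E (4 * m + 3))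
    (h2 : z ∉ O (4 * m + 2)) : z ∈ Kf E (m + 1) ∧ z ∉ Vf O (m + 1) :=
  ⟨h.Emono (by omega) h1, h.notVf (m + 1) (4 * m + 2) z h2 (by omega)⟩

/-- a point of the closed layer of `f` outside the layer lies in a shell of `f` -/
theorem Dat.bLf (h : Dat Ω E O r s f g P P' α β) (m : ℕ) (z : ℂ) (h1 : z ∈ E (4 * m + 1))
    (h2 : z ∉ O (4 * m)) (h3 : z ∉ Lf E O m) : ∃ k, z ∈ Kf E k ∧ z ∉ Vf O k := by
  by_cases h4 : z ∈ E (4 * m)
  · exact ⟨m, h4, h.notVf m (4 * m) z h2 (by omega)⟩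
  · refine ⟨m + 1, h.Emono (by omega) h1, h.notVf (m + 1) (4 * m + 1) z ?_ (by omega)⟩
    intro h5
    exact h3 ⟨h5, h4⟩

/-- a point of the closed layer of `g` outside the layer lies in a shell of `g` -/
theorem Dat.bLg (h : Dat Ω E O r s f g P P' α β) (m : ℕ) (z : ℂ) (h1 : z ∈ E (4 * m + 3))
    (h2 : z ∉ O (4 * m + 2)) (h3 : z ∉ Lg E O m) : ∃ k, z ∈ Kg E k ∧ z ∉ Vg O k := by
  by_cases h4 : z ∈ E (4 * m + 2)
  · exact ⟨m, h4, h.notVg m (4 * m + 2) z h2 (by omega)⟩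
  · refine ⟨m + 1, h.Emono (by omega) h1, h.notVg (m + 1) (4 * m + 3) z ?_ (by omega)⟩
    intro h5
    exact h3 ⟨h5, h4⟩

/-- closed layers of `f` and `g` are disjoint -/
theorem Dat.disj (h : Dat Ω E O r s f g P P' α β) (i j : ℕ) (z : ℂ) (h1 : z ∈ E (4 * i + 3))
    (h2 : z ∉ O (4 * i + 2)) (h3 : z ∈ E (4 * j + 1)) (h4 : z ∉ O (4 * j)) : False := by
  rcases le_or_gt j i with hij | hij
  · exact h2 (h.EO (by omega) h3)
  · exact h4 (h.EO (by omega) h1)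

theorem Dat.closLf (h : Dat Ω E O r s f g P P' α β) (m : ℕ) (z : ℂ)
    (hz : z ∈ closure (Lf E O m)) : z ∈ E (4 * m + 1) ∧ z ∉ O (4 * m) := by
  have hc : IsClosed (E (4 * m + 1) \ O (4 * m)) :=
    ((h.comp _).diff (h.opn _)).isClosed
  refine hc.closure_subset_iff.2 ?_ hz
  intro y hy
  exact ⟨h.oe _ hy.1, fun h5 => hy.2 (h.oe _ h5)⟩

theorem Dat.closLg (h : Dat Ω E O r s f g P P' α β) (m : ℕ) (z : ℂ)
    (hz : z ∈ closure (Lg E O m)) : z ∈ E (4 * m + 3) ∧ z ∉ O (4 * m + 2) := by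
  have hc : IsClosed (E (4 * m + 3) \ O (4 * m + 2)) :=
    ((h.comp _).diff (h.opn _)).isClosed
  refine hc.closure_subset_iff.2 ?_ hz
  intro y hy
  exact ⟨h.oe _ hy.1, fun h5 => hy.2 (h.oe _ h5)⟩

/-- double points lie in layers -/
theorem Dat.dbl (h : Dat Ω E O r s f g P P' α β) (p q : ℂ) (hp : p ∈ Ω) (hq : q ∈ Ω)
    (hne : p ≠ q) (e1 : f p = f q) (e2 : g p = g q) :
    (∃ i j, p ∈ Lg E O i ∧ q ∈ Lf E O j) ∨ ∃ i j, q ∈ Lg E O i ∧ p ∈ Lf E O j := by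
  have aux : ∀ p q : ℂ, p ∈ Ω → q ∈ Ω → p ≠ q → f p = f q → g p = g q →
      (∃ m, p ∈ Kf E m ∧ p ∉ Vf O m) → ∃ i j, p ∈ Lg E O i ∧ q ∈ Lf E O j := by
    rintro p q hp hq hne e1 e2 ⟨m, m1, m2⟩
    rcases h.casesF q hq with ⟨k, k1, k2⟩ | ⟨j, hj⟩
    · exact absurd (h.hf.inj h.nf m k p q m1 m2 k1 k2 e1) hne
    · obtain ⟨c1, c2⟩ := h.cLf j q (h.oe _ hj.1) (fun h5 => hj.2 (h.oe _ h5))
      rcases h.casesG p hp with ⟨k, k1, k2⟩ | ⟨i, hi⟩
      · exact absurd (h.hg.inj h.ng k j p q k1 k2 c1 c2 e2) hne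
      · exact ⟨i, j, hi, hj⟩
  rcases h.casesF p hp with hm | ⟨j, hj⟩
  · exact Or.inl (aux p q hp hq hne e1 e2 hm)
  · right
    obtain ⟨c1, c2⟩ := h.cLf j p (h.oe _ hj.1) (fun h5 => hj.2 (h.oe _ h5))
    rcases h.casesG q hq with ⟨k, k1, k2⟩ | ⟨i, hi⟩
    · exact absurd (h.hg.inj h.ng k j q p k1 k2 c1 c2 e2.symm) hne.symm
    · exact ⟨i, j, hi, hj⟩

/-- a bound from below for `f + g` at double points -/
theorem Dat.big (h : Dat Ω E O r s f g P P' α β) (i j : ℕ) (p q : ℂ) (hp : p ∈ Lg E O i)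
    (hq : q ∈ Lf E O j) (e2 : g p = g q) :
    (i : ℝ) + j - r 0 - s 0 - 1 / 2 ≤ (f p + g p).re := by
  obtain ⟨a1, a2⟩ := h.cLg i p (h.oe _ hp.1) (fun h5 => hp.2 (h.oe _ h5))
  obtain ⟨b1, b2⟩ := h.cLf j q (h.oe _ hq.1) (fun h5 => hq.2 (h.oe _ h5))
  have h1 := h.hf.re_ge h.nf (i + 1) p a1 a2
  have h2 := h.hg.re_ge h.ng j q b1 b2
  have h3 := h.hf.low h.nf (i + 1)
  have h4 := h.hg.low h.ng j
  push_cast at h3
  rw [Complex.add_re, e2]
  linarith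

end dat

end Pool.RSE
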