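import Pool.Agent.H88.RSE.Glob
import Pool.Agent.H88.RSE.Conn

/-! Every open subset of the plane, minus a countable closed set, embeds properly. -/

set_option autoImplicit false

namespace Pool.RSE

open Filter Topology Set Metric
open scoped Manifold

theorem mdiff_of (V : TopologicalSpace.Opens ℂ) (f : ℂ → ℂ) (hf : ∀ z ∈ V, DifferentiableAt ℂ f z) :
    MDifferentiable 𝓘(ℂ) 𝓘(ℂ) (fun z : V => f z) := by
  intro z
  have h2 : MDifferentiable 𝓘(ℂ) 𝓘(ℂ) (Subtype.val : V → ℂ) :=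
    (contMDiff_subtype_val (n := 1)).mdifferentiable (by norm_num)
  exact (hf z.1 z.2).mdifferentiableAt.comp z (h2 z)

theorem mfderiv_of (V : TopologicalSpace.Opens ℂ) (f : ℂ → ℂ) (z : V)
    (hf : DifferentiableAt ℂ f z.1) (v : ℂ) :
    (mfderiv 𝓘(ℂ) 𝓘(ℂ) (fun z : V => f z) z : ℂ →L[ℂ] ℂ) v = v * deriv f z.1 := by
  have h2 : MDifferentiable 𝓘(ℂ) 𝓘(ℂ) (Subtype.val : V → ℂ) :=
    (contMDiff_subtype_val (n := 1)).mdifferentiable (by norm_num)
  have h1 := mfderiv_comp_apply z (I := 𝓘(ℂ)) (I' := 𝓘(ℂ)) (I'' := 𝓘(ℂ))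
    (f := (Subtype.val : V → ℂ)) (g := f) hf.mdifferentiableAt (h2 z) v
  have h3 := res_mfderiv V (fun z : ℂ => z) differentiable_id.mdifferentiable z
  have h4 : mfderiv 𝓘(ℂ) 𝓘(ℂ) (fun z : ℂ => z) z.1 = ContinuousLinearMap.id ℂ ℂ := mfderiv_id
  have h5 : mfderiv 𝓘(ℂ) 𝓘(ℂ) (Subtype.val : V → ℂ) z = ContinuousLinearMap.id ℂ ℂ := h3.trans h4
  refine h1.trans ?_
  rw [h5, mfderiv_eq_fderiv]
  have h6 : (fderiv ℂ f z.1) v = v * deriv f z.1 := by
    rw [fderiv_eq_smul_deriv, smul_eq_mul]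
  exact h6

theorem imm_lem (V : TopologicalSpace.Opens ℂ) (f g : ℂ → ℂ) (x : V)
    (hf : DifferentiableAt ℂ f x.1) (hg : DifferentiableAt ℂ g x.1)
    (hne : deriv f x.1 ≠ 0 ∨ deriv g x.1 ≠ 0) (v : ℂ)
    (e1 : (mfderiv 𝓘(ℂ) 𝓘(ℂ) (fun z : V => f z + g z) x : ℂ →L[ℂ] ℂ) v = 0)
    (e2 : (mfderiv 𝓘(ℂ) 𝓘(ℂ) (fun z : V => g z) x : ℂ →L[ℂ] ℂ) v = 0) : v = 0 := by
  have e1' := (mfderiv_of V (fun z => f z + g z) x (hf.add hg) v).symm.trans e1
  have e2' := (mfderiv_of V g x hg v).symm.trans e2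
  have e3 : deriv (fun z => f z + g z) x.1 = deriv f x.1 + deriv g x.1 := deriv_add hf hg
  rw [e3] at e1'
  have e5 : v * (deriv f x.1 + deriv g x.1) = (0 : ℂ) := e1'
  have e6 : v * deriv g x.1 = (0 : ℂ) := e2'
  have e4 : v * deriv f x.1 = (0 : ℂ) := by linear_combination e5 - e6
  rcases hne with h1 | h1
  · exact (mul_eq_zero.1 e4).resolve_right h1
  · exact (mul_eq_zero.1 e6).resolve_right h1

section dat

variable {Ω : Set ℂ} {E O : ℕ → Set ℂ} {r s : ℕ → ℝ} {f g : ℂ → ℂ} {P P' : Set ℂ} {α β : ℕ → ℝ}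

/-- the domain -/
def VV (Ω : Set ℂ) (E O : ℕ → Set ℂ) (f g : ℂ → ℂ) (P P' : Set ℂ) : Set ℂ :=
  {z | z ∈ XX Ω P P' ∧ f z + g z ∉ WW Ω E O f g P P'}

theorem Dat.openV (h : Dat Ω E O r s f g P P' α β) : IsOpen (VV Ω E O f g P P') := by
  have h1 : ContinuousOn (fun z => f z + g z) (XX Ω P P') := fun z hz =>
    ((h.fdiff z hz).continuousAt.add (h.gdiff z hz).continuousAt).continuousWithinAt
  exact h1.isOpen_inter_preimage h.openX (lf_closed _ h.lfW).isOpen_compl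

theorem Dat.phe (h : Dat Ω E O r s f g P P' α β) :
    HasPHE (⟨VV Ω E O f g P P', h.openV⟩ : TopologicalSpace.Opens ℂ) := by
  set V : TopologicalSpace.Opens ℂ := ⟨VV Ω E O f g P P', h.openV⟩ with hV
  have hfd : ∀ z ∈ V, DifferentiableAt ℂ f z := fun z hz => h.fdiff z hz.1
  have hgd : ∀ z ∈ V, DifferentiableAt ℂ g z := fun z hz => h.gdiff z hz.1
  have hld : ∀ z ∈ V, DifferentiableAt ℂ (fun z => f z + g z) z := fun z hz =>
    (hfd z hz).add (hgd z hz)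
  refine core (S := V) (fun z => f z + g z) (fun z => g z)
    (mdiff_of V (fun z => f z + g z) hld) (mdiff_of V g hgd) ?_ ?_ (WW Ω E O f g P P') h.lfW
    {p | ∃ x ∈ XX Ω P P', f x + g x ∈ WW Ω E O f g P P' ∧ p = (f x + g x, g x)} ?_ ?_ ?_ ?_ ?_ ?_
  · intro x x' e1 e2
    have e3 : f x = f x' := by
      rw [e2] at e1
      exact add_right_cancel e1
    by_contra hne
    have hne' : x.1 ≠ x'.1 := fun hh => hne (Subtype.ext hh)
    exact x'.2.2 (h.dblW x.1 x'.1 x.2.1 x'.2.1 hne' e3 e2)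
  · intro x v e1 e2
    exact imm_lem V f g x (hfd x.1 x.2) (hgd x.1 x.2) (h.deriv_or x.1 x.2.1.1) v e1 e2
  · rintro p ⟨x, hx, hw, rfl⟩
    exact hw
  · intro x x' e1 e2
    exact absurd e2 x.2.2
  · intro x e1
    exact absurd e1 x.2.2
  · intro w hw _
    obtain ⟨t, ht⟩ := h.miss w
    refine ⟨t, ?_⟩
    rintro ⟨x, hx, hw', he⟩
    have h1 := (Prod.ext_iff.1 he).1
    have h2 := (Prod.ext_iff.1 he).2
    simp only at h1 h2
    exact ht x hx.1 h1.symm h2.symm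
  · rintro x ⟨x', hx', hw', he⟩
    have h1 := (Prod.ext_iff.1 he).1
    simp only at h1
    rw [← h1] at hw'
    exact x.2.2 hw'
  · intro K hK hKT
    rw [Subtype.isCompact_iff]
    have e : ((↑) '' ((fun x : V => (f x + g x, g x)) ⁻¹' K) : Set ℂ) =
        {z | z ∈ XX Ω P P' ∧ (f z + g z, g z) ∈ K} := by
      ext x
      constructor
      · rintro ⟨z, hz, rfl⟩
        exact ⟨z.2.1, hz⟩
      · rintro ⟨hx, hxK⟩
        have hxV : x ∈ V := by
          refine ⟨hx, fun hw => ?_⟩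
          exact Set.disjoint_left.1 hKT hxK ⟨x, hx, hw, rfl⟩
        exact ⟨⟨x, hxV⟩, hxK, rfl⟩
    rw [e]
    exact h.proper K hK

/-- `f + g` is not locally constant -/
theorem Dat.nonconst (h : Dat Ω E O r s f g P P' α β) (z : ℂ) (hz : z ∈ XX Ω P P') (w : ℂ) :
    ¬ ∀ᶠ y in 𝓝 z, f y + g y = w := by
  intro hzw
  set C : Set ℂ := {x | x ∈ XX Ω P P' ∧ ∀ᶠ y in 𝓝 x, f y + g y = w} with hC
  have hCo : IsOpen C := by
    have h1 : C = XX Ω P P' ∩ {x | ∀ᶠ y in 𝓝 x, f y + g y = w} := rfl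
    rw [h1]
    exact h.openX.inter isOpen_setOf_eventually_nhds
  have hval : ∀ x ∈ C, f x + g x = w := fun x hx => hx.2.self_of_nhds
  have han : ∀ x ∈ XX Ω P P', AnalyticAt ℂ (fun y => f y + g y) x := by
    intro x hx
    have h1 : DifferentiableOn ℂ (fun y => f y + g y) (XX Ω P P') := fun y hy =>
      ((h.fdiff y hy).add (h.gdiff y hy)).differentiableWithinAt
    exact h1.analyticAt (h.openX.mem_nhds hx)
  have hgan : ∀ x ∈ XX Ω P P', AnalyticAt ℂ g x := by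
    intro x hx
    have h1 : DifferentiableOn ℂ g (XX Ω P P') := fun y hy => (h.gdiff y hy).differentiableWithinAt
    exact h1.analyticAt (h.openX.mem_nhds hx)
  have hopen : IsOpen (g '' C) := by
    rw [isOpen_iff_mem_nhds]
    rintro _ ⟨x, hx, rfl⟩
    have hd : deriv g x ≠ 0 := by
      have e1 : deriv (fun y => f y + g y) x = 0 := by
        have : (fun y => f y + g y) =ᶠ[𝓝 x] fun _ => w := hx.2
        rw [this.deriv_eq]
        simp
      have e2 : deriv (fun y => f y + g y) x = deriv f x + deriv g x :=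
        deriv_add (h.fdiff x hx.1) (h.gdiff x hx.1)
      rcases h.deriv_or x hx.1.1 with h1 | h1
      · intro h2
        apply h1
        rw [e2, h2, add_zero] at e1
        exact e1
      · exact h1
    rw [← (hgan x hx.1).hasStrictDerivAt.map_nhds_eq hd]
    exact image_mem_map (hCo.mem_nhds hx)
  have hclosed : IsClosed (g '' C) := by
    apply isClosed_of_closure_subset
    intro t ht
    obtain ⟨x, hx, hxt⟩ := mem_closure_iff_seq_limit.1 ht
    choose c hcC hcx using hx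
    set K : Set (ℂ × ℂ) := ({w} : Set ℂ) ×ˢ closedBall t 1 with hK
    have hKc : IsCompact K := isCompact_singleton.prod (isCompact_closedBall t 1)
    have hSc := h.proper K hKc
    have hev : ∀ᶠ n in atTop, c n ∈ {z | z ∈ XX Ω P P' ∧ (f z + g z, g z) ∈ K} := by
      filter_upwards [hxt.eventually (closedBall_mem_nhds t one_pos)] with n hn
      refine ⟨(hcC n).1, hval _ (hcC n), ?_⟩
      show g (c n) ∈ closedBall t 1
      rw [hcx n]
      exact hn
    obtain ⟨a, haS, φ, hφ, hta⟩ := hSc.tendsto_subseq' hev.frequently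
    have h1 : Tendsto (fun n => g (c (φ n))) atTop (𝓝 (g a)) :=
      (hgan a haS.1).continuousAt.tendsto.comp hta
    have h2 : Tendsto (fun n => g (c (φ n))) atTop (𝓝 t) := by
      have : (fun n => g (c (φ n))) = fun n => x (φ n) := funext fun n => hcx (φ n)
      rw [this]
      exact hxt.comp hφ.tendsto_atTop
    have h3 : g a = t := tendsto_nhds_unique h1 h2
    refine ⟨a, ⟨haS.1, ?_⟩, h3⟩
    rcases (han a haS.1).eventually_eq_or_eventually_ne (g := fun _ => w) analyticAt_const with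
      h4 | h4
    · exact h4
    · rw [eventually_nhdsWithin_iff] at h4
      obtain ⟨n, hn⟩ := (hta.eventually h4).exists
      by_cases h5 : (c ∘ φ) n = a
      · have h6 := (hcC (φ n)).2
        have h7 : c (φ n) = a := h5
        rw [h7] at h6
        exact h6
      · exact absurd (hval _ (hcC (φ n))) (hn h5)
  have huniv : g '' C = univ := IsClopen.eq_univ ⟨hclosed, hopen⟩ ⟨g z, z, ⟨hz, hzw⟩, rfl⟩
  obtain ⟨t, ht⟩ := h.miss w
  have h8 : t ∈ g '' C := by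
    rw [huniv]
    trivial
  obtain ⟨x, hx, hxt⟩ := h8
  exact ht x hx.1.1 (hval x hx) hxt

/-- near a point which is not a pole all other points belong to the domain -/
theorem Dat.isoV (h : Dat Ω E O r s f g P P' α β) (z : ℂ) (hz : z ∈ XX Ω P P') :
    ∀ᶠ y in 𝓝[≠] z, y ∈ VV Ω E O f g P P' := by
  have han : AnalyticAt ℂ (fun y => f y + g y) z := by
    have h1 : DifferentiableOn ℂ (fun y => f y + g y) (XX Ω P P') := fun y hy =>
      ((h.fdiff y hy).add (h.gdiff y hy)).differentiableWithinAt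
    exact h1.analyticAt (h.openX.mem_nhds hz)
  set w : ℂ := f z + g z with hw
  have h1 : ∀ᶠ y in 𝓝[≠] z, f y + g y ≠ w :=
    (han.eventually_eq_or_eventually_ne (g := fun _ => w) analyticAt_const).resolve_left
      (h.nonconst z hz w)
  have hcl : IsClosed (WW Ω E O f g P P' \ {w}) := by
    apply lf_closed
    intro R
    exact (h.lfW R).subset (inter_subset_inter_left _ Set.diff_subset)
  have h2 : ∀ᶠ y in 𝓝 z, f y + g y ∉ WW Ω E O f g P P' \ {w} :=
    han.continuousAt.eventually (hcl.isOpen_compl.mem_nhds (by simp [hw]))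
  filter_upwards [h1, mem_nhdsWithin_of_mem_nhds h2,
    mem_nhdsWithin_of_mem_nhds (h.openX.mem_nhds hz)] with y h3 h4 h5
  exact ⟨h5, fun h6 => h4 ⟨h6, h3⟩⟩

theorem Dat.compactIn (h : Dat Ω E O r s f g P P' α β) (hα : 2 * r 0 + s 0 + 2 ≤ α 1 - r 1)
    (z : ℂ) (hz : z ∈ E 0) : z ∈ VV Ω E O f g P P' := by
  have k1 : z ∈ Kf E 0 := hz
  have k2 : z ∉ Vf O 0 := fun hc => hc
  have k3 : z ∈ Kg E 0 := h.Emono (by omega) hz
  have k4 : z ∉ Vg O 0 := fun hc => hc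
  have hzX : z ∈ XX Ω P P' :=
    ⟨(h.un z).2 ⟨0, hz⟩, h.hf.notP h.nf 0 z k1 k2, h.hg.notP h.ng 0 z k3 k4⟩
  refine ⟨hzX, ?_⟩
  rintro ⟨i, j, y, hy, he⟩
  have h1 := h.hf.re_le h.nf 0 z k1 k2
  have h2 := h.hg.re_le h.ng 0 z k3 k4
  rw [h.hf.a0] at h1
  rw [h.hg.a0] at h2
  have h2' : (g z).re ≤ r 0 + 1 / 4 := by
    have h3 := h.hg.val 0 z k3 k4
    rw [h.hg.a0] at h3
    have h4 := (abs_le.1 ((Complex.abs_re_le_norm _).trans h3)).2
    have h5 := (abs_le.1 ((Complex.abs_re_le_norm _).trans (h.nf.kr 0 z k1))).2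
    simp only [Complex.sub_re, Complex.ofReal_re] at h4
    linarith
  obtain ⟨a1, a2⟩ := h.LgS i y.1 hy.1
  obtain ⟨b1, b2⟩ := h.LfS j y.2 hy.2.2.1
  have h3 := h.hf.re_ge h.nf (i + 1) y.1 a1 a2
  have h4 := h.hg.re_ge h.ng j y.2 b1 b2
  have h5 := h.hg.low h.ng j
  have h6 : α 1 - r 1 ≤ α (i + 1) - r (i + 1) := by
    cases i with
    | zero => exact le_rfl
    | succ i =>
      have h7 := h.hf.sepk h.nf 1 i
      have h8 := h.nf.r0 1
      have e : 1 + i + 1 = i + 1 + 1 := by ring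
      rw [e] at h7
      linarith
  have h7 : (f z + g z).re = (f y.1).re + (g y.2).re := by
    rw [he, Complex.add_re, hy.2.2.2.2.1]
  rw [Complex.add_re] at h7
  have h8 := h.ng.r0 0
  have h9 : (0 : ℝ) ≤ j := Nat.cast_nonneg j
  linarith

end dat

/-- **Theorem.** -/
theorem thmA (Ω : TopologicalSpace.Opens ℂ) (K : Set ℂ) (hK : IsCompact K)
    (hKΩ : K ⊆ (Ω : Set ℂ)) :
    ∃ (V : TopologicalSpace.Opens ℂ) (A : Set ℂ), V ≤ Ω ∧ K ⊆ (V : Set ℂ) ∧
      (∀ z ∈ Ω, ∀ᶠ y in 𝓝[≠] z, y ∉ A) ∧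
      (∀ z ∈ Ω, z ∉ A → ∀ᶠ y in 𝓝[≠] z, y ∈ V) ∧
      ((Ω : Set ℂ) \ V).Countable ∧ (IsConnected (Ω : Set ℂ) → IsConnected (V : Set ℂ)) ∧
      HasPHE V := by
  obtain ⟨E, O, r, s, f, g, P, P', α, β, h, hKE, hα⟩ := exists_dat Ω K hK hKΩ
  set V : TopologicalSpace.Opens ℂ := ⟨VV (Ω : Set ℂ) E O f g P P', h.openV⟩ with hV
  have hVΩ : V ≤ Ω := fun z hz => hz.1.1
  have c1 : ∀ z ∈ Ω, ∀ᶠ y in 𝓝[≠] z, y ∉ P ∪ P' := by
    intro z hz
    filter_upwards [h.isoA z hz] with y hy hc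
    rcases hc with hc | hc
    · exact hy.2.1 hc
    · exact hy.2.2 hc
  have c2 : ∀ z ∈ Ω, z ∉ P ∪ P' → ∀ᶠ y in 𝓝[≠] z, y ∈ V := by
    intro z hz hzA
    exact h.isoV z ⟨hz, fun hc => hzA (Or.inl hc), fun hc => hzA (Or.inr hc)⟩
  have c3 : ((Ω : Set ℂ) \ V).Countable := by
    have h1 : ((Ω : Set ℂ) ∩ (P ∪ P')).Countable := by
      apply count_of_disc
      intro x hx
      filter_upwards [c1 x hx.1] with y hy hc
      exact hy hc.2
    have h2 : (((Ω : Set ℂ) \ V) \ (P ∪ P')).Countable := by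
      apply count_of_disc
      intro x hx
      filter_upwards [c2 x hx.1.1 hx.2] with y hy hc
      exact hc.1.2 hy
    refine (h1.union h2).mono ?_
    intro z hz
    by_cases hzA : z ∈ P ∪ P'
    · exact Or.inl ⟨hz.1, hzA⟩
    · exact Or.inr ⟨hz, hzA⟩
  refine ⟨V, P ∪ P', hVΩ, fun z hz => h.compactIn hα z (hKE hz), c1, c2, c3, ?_, h.phe⟩
  intro hconn
  exact conn_lem Ω V Ω.isOpen V.isOpen hVΩ c3 hconn

end Pool.RSE
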